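import Mathlib
import Pool.Agent.Lib.MP_2024f4_pr.Main

set_option autoImplicit false
set_option linter.unusedSectionVars false

open MeasureTheory ProbabilityTheory Set
open scoped ENNReal

namespace Pool.Agent.Lib.MP_2024f4_pr.TR

/-- state space -/
abbrev St (d : ℕ) : Type := Euc d × Euc d

variable {d : ℕ} {N : St d → Measure (St d)} {r : St d → ℝ}

lemma flow_zero (z : St d) : flow 0 z = z := by simp [flow]

lemma flow_flow (s t : ℝ) (z : St d) : flow s (flow t z) = flow (s + t) z := by
  simp only [flow, add_smul]; congr 1; abel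

lemma measurable_flow (t : ℝ) : Measurable (fun z : St d => flow t z) :=
  meas_comp2 flow continuous_flow.measurable measurable_const measurable_id

lemma Lam_add (hr : Continuous r) (z : St d) (t s : ℝ) :
    Lam r z (t + s) = Lam r z t + Lam r (flow t z) s := by
  have hc := cont_rate hr z
  have h1 : Lam r (flow t z) s = ∫ u in t..(t + s), r (flow u z) := by
    have := intervalIntegral.integral_comp_add_right (a := 0) (b := s)
      (fun u => r (flow u z)) t
    simp only [zero_add] at this
    rw [Lam, add_comm t s, ← this]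
    simp only [flow_flow]
  rw [h1, Lam, Lam, intervalIntegral.integral_add_adjacent_intervals (hc.intervalIntegrable _ _)
    (hc.intervalIntegrable _ _)]

lemma surv_add (h : Reg N r) (z : St d) (t s : ℝ) :
    surv N z (t + s) = surv N z t * surv N (flow t z) s := by
  rw [h.surv_eq, h.surv_eq, h.surv_eq, Lam_add h.cont, neg_add, Real.exp_add,
    ENNReal.ofReal_mul (Real.exp_nonneg _)]

/-- lower bound of the survival probability from a bound on the rate along the flight -/
lemma le_surv (h : Reg N r) (z : St d) {t L : ℝ} (ht : 0 ≤ t)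
    (hL : ∀ s, 0 ≤ s → s ≤ t → r (flow s z) ≤ L) :
    ENNReal.ofReal (Real.exp (-(L * t))) ≤ surv N z t := by
  rw [h.surv_eq]
  refine ENNReal.ofReal_le_ofReal (Real.exp_le_exp.mpr (neg_le_neg ?_))
  have := intervalIntegral.integral_mono_on (μ := volume) ht
    ((cont_rate h.cont z).intervalIntegrable 0 t)
    (continuous_const.intervalIntegrable (u := fun _ => L) 0 t) fun s hs => hL s hs.1 hs.2
  simpa [Lam, mul_comm] using this

lemma measurable_Wt (h : Reg N r) (t : ℝ) : Measurable (W N t) :=
  meas_comp2 (W N) h.measurable_W measurable_const measurable_id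

lemma measurable_lawNt (h : Reg N r) (n : ℕ) (t : ℝ) : Measurable (lawN N n t) :=
  meas_comp2 (lawN N n) (h.measurable_lawN n) measurable_const measurable_id

lemma law_eq (p : Measure (St d)) (t : ℝ) : law N p t = p.bind (W N t) := rfl

/-- joint measurability of the integral against a jointly measurable family of measures -/
lemma meas_lint {T : Type} [MeasurableSpace T] {L : T → Measure (St d)} (hL : Measurable L)
    {g : St d → ℝ≥0∞} (hg : Measurable g) : Measurable fun q => ∫⁻ w, g w ∂L q :=
  (Measure.measurable_lintegral hg).comp hL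

lemma lint_lawN_zero (h : Reg N r) (t : ℝ) (z : St d) {g : St d → ℝ≥0∞} (hg : Measurable g) :
    ∫⁻ w, g w ∂lawN N 0 t z = surv N z t * g (flow t z) := by
  have := h.meas
  rw [lawN, lintegral_smul_measure, lintegral_dirac' _ hg, smul_eq_mul]

lemma lint_lawN_succ (h : Reg N r) (n : ℕ) (t : ℝ) (z : St d) {g : St d → ℝ≥0∞}
    (hg : Measurable g) : ∫⁻ w, g w ∂lawN N (n + 1) t z =
      ∫⁻ s in Ioc (0 : ℝ) t, surv N z s *
        ∫⁻ w, (∫⁻ u, g u ∂lawN N n (t - s) w) ∂N (flow s z) := by
  rw [lawN, Measure.lintegral_bind (h.step_meas _ (h.measurable_lawN n) t z).aemeasurable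
    hg.aemeasurable]
  refine lintegral_congr fun s => ?_
  rw [lintegral_smul_measure, smul_eq_mul,
    Measure.lintegral_bind (measurable_lawNt h n _).aemeasurable hg.aemeasurable]

lemma lint_W_tsum (t : ℝ) (z : St d) (g : St d → ℝ≥0∞) :
    ∫⁻ w, g w ∂W N t z = ∑' n, ∫⁻ w, g w ∂lawN N n t z := by
  rw [W, lintegral_sum_measure]

lemma lint_lawN_le (n : ℕ) (t : ℝ) (z : St d) (g : St d → ℝ≥0∞) :
    ∫⁻ w, g w ∂lawN N n t z ≤ ∫⁻ w, g w ∂W N t z := by
  rw [lint_W_tsum]; exact ENNReal.le_tsum n

/-- measurability of the integrand of the first-jump step for a jointly measurable family -/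
lemma meas_step (h : Reg N r) {F : ℝ → St d → ℝ≥0∞}
    (hF : Measurable fun p : ℝ × St d => F p.1 p.2) {T : Type} [MeasurableSpace T]
    {t s : T → ℝ} {z : T → St d} (ht : Measurable t) (hs : Measurable s) (hz : Measurable z) :
    Measurable fun q => surv N (z q) (s q) * ∫⁻ w, F (t q - s q) w ∂N (flow (s q) (z q)) := by
  refine Measurable.mul (meas_comp2 (surv N) h.measurable_surv hz hs) ?_
  refine measurable_lintegral_fin (fun q => N (flow (s q) (z q))) (h.meas_N hs hz) ?_
    (fun w => F (t w.1 - s w.1) w.2) ?_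
  · intro q; rw [h.mass]; exact ENNReal.ofReal_ne_top
  · exact meas_comp2 F hF (by fun_prop) measurable_snd

/-- first-jump equation for integrals -/
lemma lint_W_eq (h : Reg N r) (t : ℝ) (z : St d) {g : St d → ℝ≥0∞} (hg : Measurable g) :
    ∫⁻ w, g w ∂W N t z = surv N z t * g (flow t z) +
      ∫⁻ s in Ioc (0 : ℝ) t, surv N z s * ∫⁻ w, (∫⁻ u, g u ∂W N (t - s) w) ∂N (flow s z) := by
  rw [lint_W_tsum, tsum_eq_zero_add' ENNReal.summable, lint_lawN_zero h t z hg]
  congr 1
  simp only [lint_lawN_succ h _ _ _ hg]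
  rw [← lintegral_tsum fun n => (meas_step h (F := fun t w => ∫⁻ u, g u ∂lawN N n t w)
    (meas_lint (h.measurable_lawN n) hg) (t := fun _ => t) (s := fun s => s) (z := fun _ => z)
    measurable_const measurable_id measurable_const).aemeasurable]
  refine lintegral_congr fun s => ?_
  rw [ENNReal.tsum_mul_left, ← lintegral_tsum]
  · simp only [lint_W_tsum]
  · intro n
    exact (meas_lint (measurable_lawNt h n _) hg).aemeasurable

/-- a set kept by the flow and by the jumps -/
structure Closed (N : St d → Measure (St d)) (S : Set (St d)) : Prop where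
  meas : MeasurableSet S
  flow : ∀ z ∈ S, ∀ s : ℝ, flow s z ∈ S
  jump : ∀ z ∈ S, N z Sᶜ = 0

lemma closed_univ : Closed N univ := ⟨MeasurableSet.univ, fun _ _ _ => mem_univ _, by simp⟩

/-- the transition function is the least solution of the first-jump equation -/
lemma minimal (h : Reg N r) {S : Set (St d)} (hS : Closed N S) {g : St d → ℝ≥0∞}
    (hg : Measurable g) (F : ℝ → St d → ℝ≥0∞)
    (hF : ∀ t, 0 ≤ t → ∀ z ∈ S, surv N z t * g (flow t z) +
      ∫⁻ s in Ioc (0 : ℝ) t, surv N z s * ∫⁻ w, F (t - s) w ∂N (flow s z) ≤ F t z) :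
    ∀ t, 0 ≤ t → ∀ z ∈ S, ∫⁻ w, g w ∂W N t z ≤ F t z := by
  have key : ∀ n : ℕ, ∀ t, 0 ≤ t → ∀ z ∈ S,
      ∑ k ∈ Finset.range n, ∫⁻ w, g w ∂lawN N k t z ≤ F t z := by
    intro n
    induction n with
    | zero => simp
    | succ n ih =>
      intro t ht z hz
      rw [Finset.sum_range_succ', lint_lawN_zero h t z hg, add_comm]
      refine le_trans (add_le_add_right ?_ _) (hF t ht z hz)
      simp only [lint_lawN_succ h _ _ _ hg]
      rw [← lintegral_finsetSum _ fun k _ =>
        meas_step h (F := fun t w => ∫⁻ u, g u ∂lawN N k t w)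
          (meas_lint (h.measurable_lawN k) hg) (t := fun _ => t) (s := fun s => s)
          (z := fun _ => z) measurable_const measurable_id measurable_const]
      refine setLIntegral_mono' measurableSet_Ioc fun s hs => ?_
      rw [← Finset.mul_sum, ← lintegral_finsetSum _ fun k _ =>
        meas_lint (measurable_lawNt h k _) hg]
      refine mul_le_mul_right (lintegral_mono_ae ?_) _
      have : ∀ᵐ w ∂N (flow s z), w ∈ S := hS.jump _ (hS.flow z hz s)
      filter_upwards [this] with w hw using ih _ (by linarith [hs.2]) w hw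
  intro t ht z hz
  rw [lint_W_tsum]
  exact ENNReal.tsum_le_of_sum_range_le fun n => key n t ht z hz

/-- a closed set is absorbing -/
lemma absorb (h : Reg N r) {S : Set (St d)} (hS : Closed N S) (t : ℝ) (ht : 0 ≤ t) (z : St d)
    (hz : z ∈ S) : W N t z Sᶜ = 0 := by
  have := minimal h hS (g := Sᶜ.indicator 1) (measurable_one.indicator hS.meas.compl)
    (fun _ _ => 0) (fun t _ z hz => by simp [indicator, hS.flow z hz t]) t ht z hz
  rw [lintegral_indicator_one hS.meas.compl] at this
  exact le_zero_iff.mp this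

/-- two probability measures, one below the other, are equal -/
lemma eq_of_le_of_univ {E : Type} [MeasurableSpace E] {p q : Measure E}
    (hle : ∀ A, MeasurableSet A → p A ≤ q A) (hp : p univ = 1) (hq : q univ = 1) : p = q := by
  have : IsProbabilityMeasure p := ⟨hp⟩
  have : IsProbabilityMeasure q := ⟨hq⟩
  ext A hA
  refine le_antisymm (hle A hA) ?_
  have h1 := hle Aᶜ hA.compl
  rw [prob_compl_eq_one_sub hA, prob_compl_eq_one_sub hA] at h1
  exact (ENNReal.sub_le_sub_iff_left prob_le_one ENNReal.one_ne_top).mp h1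

end Pool.Agent.Lib.MP_2024f4_pr.TR
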