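import Mathlib
import Pool.Agent.Lib.MP_2024f4_pr.TR.Base

set_option autoImplicit false

open MeasureTheory ProbabilityTheory Set
open scoped ENNReal

namespace Pool.Agent.Lib.MP_2024f4_pr.TR

/-- Chapman-Kolmogorov -/
def sSemi : Prop :=
  ∀ (d : ℕ) (N : St d → Measure (St d)) (r : St d → ℝ), Reg N r → Confined N r →
    ∀ t s : ℝ, 0 ≤ t → 0 ≤ s → ∀ z, W N (t + s) z = (W N t z).bind (W N s)

/-- generator inequality `L V ≤ -c V + b` at the state `z` -/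
def Drift {d : ℕ} (N : St d → Measure (St d)) (r V : St d → ℝ) (c b : ℝ) (z : St d) : Prop :=
  ∃ D J : ℝ, HasDerivAt (fun s => V (flow s z)) D 0 ∧ 0 ≤ J ∧
    ∫⁻ w, ENNReal.ofReal (V w) ∂N z ≤ ENNReal.ofReal J ∧ D + J - r z * V z ≤ -c * V z + b

/-- Lyapunov lemma -/
def sLyap : Prop :=
  ∀ (d : ℕ) (N : St d → Measure (St d)) (r V : St d → ℝ) (S : Set (St d)) (c b : ℝ),
    Reg N r → Closed N S → Measurable V → (∀ z, 0 ≤ V z) → 0 < c → 0 ≤ b →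
    (∀ z ∈ S, Drift N r V c b z) →
    ∀ t, 0 ≤ t → ∀ z ∈ S, ∫⁻ w, ENNReal.ofReal (V w) ∂W N t z ≤
      ENNReal.ofReal (Real.exp (-c * t) * V z + b / c)

/-- abstract invariance criterion (`r'` is the rate of the time reversal) -/
def sInvA : Prop :=
  ∀ (d : ℕ) (N : St d → Measure (St d)) (r r' : St d → ℝ) (μ : Measure (St d)),
    Reg N r → Confined N r → IsProbabilityMeasure μ → Continuous r' → (∀ z, 0 ≤ r' z) →
    (∀ g : St d → ℝ≥0∞, Measurable g →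
      ∫⁻ z, (∫⁻ w, g w ∂N z) ∂μ ≤ ∫⁻ z, ENNReal.ofReal (r' z) * g z ∂μ) →
    (∀ t, 0 ≤ t → ∀ g : St d → ℝ≥0∞, Measurable g →
      ∫⁻ z, surv N z t * g (flow t z) ∂μ ≤
        ∫⁻ z, ENNReal.ofReal (Real.exp (-∫ s in (0 : ℝ)..t, r' (flow (-s) z))) * g z ∂μ) →
    ∀ t, 0 ≤ t → μ.bind (W N t) = μ

/-- total rate of the Zig-Zag process -/
noncomputable def rZ {d : ℕ} (U : Euc d → ℝ) (γ : Fin d → ℝ) (z : St d) : ℝ :=
  ∑ i, (max (z.2 i * gradient U z.1 i) 0 + γ i)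

/-- total rate of the Bouncy Particle Sampler -/
noncomputable def rB {d : ℕ} (U : Euc d → ℝ) (γ : ℝ) (z : St d) : ℝ :=
  max (inner ℝ z.2 (gradient U z.1)) 0 + γ

/-- states with velocity in the discrete cube -/
def SZ (d : ℕ) : Set (St d) := {z | ∀ i, z.2 i = 1 ∨ z.2 i = -1}

/-- invariance of the target for both processes -/
def sInv : Prop :=
  ∀ (d : ℕ) (U : Euc d → ℝ), Standing U →
    (∀ γ : Fin d → ℝ, (∀ i, 0 < γ i) → ∀ t, 0 ≤ t →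
      ((target U).prod (signs d)).bind (W (zigzag U γ) t) = (target U).prod (signs d)) ∧
    (∀ γ : ℝ, 0 < γ → ∀ t, 0 ≤ t →
      ((target U).prod (stdGaussian (Euc d))).bind (W (bps U γ) t) =
        (target U).prod (stdGaussian (Euc d)))

/-- abstract Markov semigroup with an invariant law and a Lyapunov function on a closed set -/
structure Setup {E : Type} [MeasurableSpace E] (P : ℝ → E → Measure E) (μ : Measure E)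
    (S : Set E) (V : E → ℝ) (c b : ℝ) : Prop where
  meas : ∀ t, Measurable (P t)
  prob : ∀ t, 0 ≤ t → ∀ z, P t z univ = 1
  semi : ∀ t s, 0 ≤ t → 0 ≤ s → ∀ z, P (t + s) z = (P t z).bind (P s)
  muP : IsProbabilityMeasure μ
  inv : ∀ t, 0 ≤ t → μ.bind (P t) = μ
  measS : MeasurableSet S
  muS : μ Sᶜ = 0
  abs : ∀ t, 0 ≤ t → ∀ z ∈ S, P t z Sᶜ = 0
  measV : Measurable V
  V_nonneg : ∀ z, 0 ≤ V z
  c_pos : 0 < c
  b_nonneg : 0 ≤ b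
  lyap : ∀ t, 0 ≤ t → ∀ z ∈ S, ∫⁻ w, ENNReal.ofReal (V w) ∂P t z ≤
    ENNReal.ofReal (Real.exp (-c * t) * V z + b)

/-- sublevel sets of `V` are small -/
def Minor {E : Type} [MeasurableSpace E] (P : ℝ → E → Measure E) (S : Set E) (V : E → ℝ) : Prop :=
  ∀ R : ℝ, ∃ T : ℝ, 1 ≤ T ∧ ∃ ν : Measure E, ν univ ≠ 0 ∧ ∀ z ∈ S, V z ≤ R → ν ≤ P T z

/-- geometric ergodicity in total variation -/
def Geo {E : Type} [MeasurableSpace E] (P : ℝ → E → Measure E) (μ : Measure E) (S : Set E)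
    (V : E → ℝ) : Prop :=
  ∃ lam C : ℝ, 0 < lam ∧ ∀ t, 0 ≤ t → ∀ z ∈ S, ∀ A, MeasurableSet A →
    |(P t z).real A - μ.real A| ≤ C * Real.exp (-lam * t) * (1 + V z)

/-- Harris theorem -/
def sHarris : Prop :=
  ∀ (E : Type) [MeasurableSpace E] (P : ℝ → E → Measure E) (μ : Measure E) (S : Set E)
    (V : E → ℝ) (c b : ℝ), Setup P μ S V c b → Minor P S V → Geo P μ S V

/-- uniform regularisation: from every state a good state is reached with probability `η`, and from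
a good state a part of mass `η` of the transition law has density at most `Φ` -/
def Regul {E : Type} [MeasurableSpace E] (P : ℝ → E → Measure E) (μ : Measure E) (S : Set E)
    (V : E → ℝ) : Prop :=
  ∃ (T₀ T₁ η B : ℝ) (G : Set E) (R : E → Measure E) (Φ : E → ℝ),
    0 < T₀ ∧ 0 ≤ T₁ ∧ 0 < η ∧ MeasurableSet G ∧ Measurable R ∧ Measurable Φ ∧
    (∀ z ∈ S, ENNReal.ofReal η ≤ P T₀ z G) ∧
    (∀ z ∈ G, ENNReal.ofReal η ≤ R z univ ∧ R z ≤ P T₁ z ∧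
      R z ≤ μ.withDensity fun w => ENNReal.ofReal (Φ w)) ∧
    (∀ z, 0 < Φ z) ∧ ∀ z ∈ S, Real.log (Φ z) ≤ B * (1 + Real.log (1 + V z)) ^ 2

/-- iterates of a kernel acting on a measure -/
noncomputable def iter {E : Type} [MeasurableSpace E] (K : E → Measure E) (p : Measure E) :
    ℕ → Measure E
  | 0 => p
  | n + 1 => (iter K p n).bind K

/-- Young inequality inside the kernel -/
def sYoung : Prop :=
  ∀ (E : Type) [MeasurableSpace E] (K R : E → Measure E) (μ p : Measure E) (S : Set E)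
    (Φ G : E → ℝ) (θ l : ℝ) (ρ : ℝ≥0∞) (n : ℕ),
    Measurable K → Measurable R → (∀ z, K z univ = 1) → IsProbabilityMeasure μ →
    IsProbabilityMeasure p → μ.bind K = μ → MeasurableSet S → μ Sᶜ = 0 → p ≪ μ →
    (∀ z, R z ≤ K z) → (∀ z, R z ≤ μ.withDensity fun w => ENNReal.ofReal (Φ w)) →
    0 ≤ θ → θ ≤ 1 → (∀ z ∈ S, ENNReal.ofReal (1 - θ) ≤ R z univ) →
    Measurable Φ → (∀ z, 0 < Φ z) → Measurable G → (∀ z, 0 ≤ G z) → 0 ≤ l →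
    (∀ j, ∫⁻ w, ENNReal.ofReal (Real.log (Φ w) - l) ∂iter K p j ≤ ρ) →
    ∫⁻ w, ENNReal.ofReal (G w) ∂iter K p n ≤
      ENNReal.ofReal (θ ^ n) * (InformationTheory.klDiv p μ + 1) + n * ρ +
        (n + 1) * ENNReal.ofReal (Real.exp l) * ∫⁻ w, ENNReal.ofReal (Real.exp (G w) - 1) ∂μ

/-- relative entropy from total variation and the far tail of the log-density -/
def sSplit : Prop :=
  ∀ (E : Type) [MeasurableSpace E] (μ m : Measure E) (L D : ℝ),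
    IsProbabilityMeasure μ → IsProbabilityMeasure m → m ≪ μ → 0 ≤ L →
    (∀ A, MeasurableSet A → |m.real A - μ.real A| ≤ D) →
    ∃ G : E → ℝ, Measurable G ∧ (∀ z, 0 ≤ G z) ∧
      ∫⁻ w, ENNReal.ofReal (Real.exp (G w) - 1) ∂μ ≤ ENNReal.ofReal (Real.exp (-L)) ∧
      InformationTheory.klDiv m μ ≤
        ENNReal.ofReal ((1 + 2 * L) * D) + 2 * ∫⁻ w, ENNReal.ofReal (G w) ∂m

/-- exponential decay of the relative entropy for initial laws that integrate `V` -/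
def Decay {E : Type} [MeasurableSpace E] (P : ℝ → E → Measure E) (μ : Measure E)
    (V : E → ℝ) : Prop :=
  ∃ lam : ℝ, 0 < lam ∧ ∀ p : Measure E, IsProbabilityMeasure p →
    ∫⁻ z, ENNReal.ofReal (V z) ∂p ≠ ∞ → InformationTheory.klDiv p μ ≠ ∞ →
    ∃ C₀ : ℝ, ∀ t, 0 ≤ t →
      InformationTheory.klDiv (p.bind (P t)) μ ≤ ENNReal.ofReal (C₀ * Real.exp (-lam * t))

def sEnt : Prop :=
  ∀ (E : Type) [MeasurableSpace E] (P : ℝ → E → Measure E) (μ : Measure E) (S : Set E)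
    (V : E → ℝ) (c b : ℝ), Setup P μ S V c b → Geo P μ S V → Regul P μ S V → Decay P μ V

/-- consequences of the bounded Hessian -/
structure Hess {d : ℕ} (U : Euc d → ℝ) (M : ℝ) : Prop where
  one_le : 1 ≤ M
  cont : Continuous (gradient U)
  lip : ∀ x y, ‖gradient U x - gradient U y‖ ≤ M * ‖x - y‖
  taylor : ∀ x y, |U (x + y) - U x - inner ℝ y (gradient U x)| ≤ M * ‖y‖ ^ 2
  der1 : ∀ x v, HasDerivAt (fun s : ℝ => U (x + s • v)) (inner ℝ v (gradient U x)) 0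
  der2 : ∀ x v u, ∃ D : ℝ, HasDerivAt (fun s : ℝ => inner ℝ u (gradient U (x + s • v))) D 0 ∧
    |D| ≤ M * ‖u‖ * ‖v‖

def sHess : Prop := ∀ (d : ℕ) (U : Euc d → ℝ), Standing U → ∃ M, Hess U M

/-- LSI and bounded Hessian give a gradient domination inequality -/
def sPL : Prop :=
  ∀ (d : ℕ) (U : Euc d → ℝ) (M : ℝ), Standing U → Hess U M → LSI (target U) →
    ∃ B : ℝ, 0 < B ∧ ∀ x, U x ≤ B * (1 + ‖gradient U x‖ ^ 2)

/-- the height function `w = sqrt (U + C₀)` -/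
structure Pot {d : ℕ} (U w : Euc d → ℝ) (M C₀ c₁ C₁ w₀ : ℝ) : Prop where
  hess : Hess U M
  contU : Continuous U
  contw : Continuous w
  one_le : ∀ x, 1 ≤ w x
  sq : ∀ x, w x ^ 2 = U x + C₀
  c₁_pos : 0 < c₁
  one_le_C₁ : 1 ≤ C₁
  up : ∀ x, ‖gradient U x‖ ≤ 2 * C₁ * w x
  pl : ∀ x, w₀ ≤ w x → 2 * c₁ * w x ≤ ‖gradient U x‖
  grow : ∀ x, w x ≤ C₁ * (1 + ‖x‖)
  coer : ∀ R : ℝ, ∃ ρ : ℝ, 0 ≤ ρ ∧ ∀ x, w x ≤ R → ‖x‖ ≤ ρ
  der : ∀ x v, HasDerivAt (fun s : ℝ => w (x + s • v))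
    (inner ℝ v (gradient U x) / (2 * w x)) 0

def sPot : Prop :=
  ∀ (d : ℕ) (U : Euc d → ℝ), Standing U → LSI (target U) →
    ∃ (w : Euc d → ℝ) (M C₀ c₁ C₁ w₀ : ℝ), Pot U w M C₀ c₁ C₁ w₀

/-- comparison of Lebesgue measure, point masses and the Gaussian with the target factors -/
def sDens : Prop :=
  ∀ d : ℕ,
    (∀ U : Euc d → ℝ, Standing U → ∃ Z : ℝ, 0 < Z ∧ ∀ ν : Measure (Euc d), IsFiniteMeasure ν →
      (volume : Measure (Euc d)).prod ν =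
        ((target U).prod ν).withDensity fun z => ENNReal.ofReal (Z * Real.exp (U z.1))) ∧
    (∃ K : ℝ, 0 < K ∧ ∀ v : Euc d, (∀ i, v i = 1 ∨ v i = -1) →
      Measure.dirac v ≤ ENNReal.ofReal K • signs d) ∧
    (∃ K : ℝ, 0 < K ∧ stdGaussian (Euc d) ≤ ENNReal.ofReal K • (volume : Measure (Euc d))) ∧
    (∀ ρ : ℝ, ∃ ε : ℝ, 0 < ε ∧
      ENNReal.ofReal ε • (volume : Measure (Euc d)).restrict (Metric.closedBall 0 ρ) ≤
        stdGaussian (Euc d))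

/-- moments of the standard Gaussian -/
def sMom : Prop :=
  ∀ d : ℕ,
    (∀ a : ℝ, Integrable (fun w : Euc d => Real.exp (a * ‖w‖)) (stdGaussian (Euc d))) ∧
    (∀ c : ℝ, 0 < c → ∃ m : ℝ, 0 < m ∧ ∀ g : Euc d, c ≤ ‖g‖ →
      m ≤ ∫ w, (inner ℝ w g) ^ 2 / (1 + (inner ℝ w g) ^ 2) ∂stdGaussian (Euc d)) ∧
    (∃ m : ℝ, 0 < m ∧ ∀ g : Euc d,
      ENNReal.ofReal m ≤ stdGaussian (Euc d) {w | ‖w‖ ≤ 1 ∧ inner ℝ w g ≤ 0})

/-- Zig-Zag: Lyapunov function -/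
def sZL : Prop :=
  ∀ (d : ℕ) (U w : Euc d → ℝ) (M C₀ c₁ C₁ w₀ : ℝ) (γ : Fin d → ℝ) (a : ℝ),
    Pot U w M C₀ c₁ C₁ w₀ → (∀ i, 0 < γ i) → 0 < a →
    ∃ (V : St d → ℝ) (c b : ℝ), Measurable V ∧ 0 < c ∧ 0 ≤ b ∧
      (∀ z, Real.exp (a * w z.1) ≤ 2 * V z ∧ V z ≤ 2 * Real.exp (a * w z.1)) ∧
      ∀ z ∈ SZ d, Drift (zigzag U γ) (rZ U γ) V c b z

/-- Zig-Zag: states that are not strongly uphill in any coordinate -/
def GZ {d : ℕ} (U : Euc d → ℝ) (A : ℝ) : Set (St d) :=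
  {z | z ∈ SZ d ∧ ∀ i, z.2 i * gradient U z.1 i ≤ A}

def sZG : Prop :=
  ∀ (d : ℕ) (U : Euc d → ℝ) (M : ℝ) (γ : Fin d → ℝ), Standing U → Hess U M → (∀ i, 0 < γ i) →
    ∃ A : ℝ, 0 ≤ A ∧ ∀ z ∈ SZ d, ENNReal.ofReal (1 / 2) ≤ W (zigzag U γ) 1 z (GZ U A)

/-- Zig-Zag: two flips of coordinate `i` in a time window of length `τ` -/
def sZD : Prop :=
  ∀ (d : ℕ) (U : Euc d → ℝ) (γ : Fin d → ℝ) (x v : Euc d) (i : Fin d) (τ δ L₁ L₂ a₂ : ℝ)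
    (g : St d → ℝ≥0∞), Standing U → (∀ i, 0 < γ i) → 0 < δ → 2 * δ ≤ τ → 0 ≤ L₁ → 0 ≤ L₂ →
    0 ≤ a₂ → Measurable g →
    (∀ y, ‖y - x‖ ≤ τ * ‖v‖ → rZ U γ (y, v) ≤ L₁ ∧ rZ U γ (y, flip i v) ≤ L₂ ∧
      a₂ ≤ max (flip i v i * gradient U y i) 0 + γ i) →
    ENNReal.ofReal (τ / 2 * γ i * a₂ * Real.exp (-(L₁ * τ + L₂ * δ))) *
        ∫⁻ σ in Ioo (0 : ℝ) δ, g (x + τ • v - EuclideanSpace.single i (2 * σ * v i), v) ≤
      ∫⁻ u, g u ∂W (zigzag U γ) τ (x, v)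

/-- the box of positions reached by double flips of all coordinates -/
def Box {d : ℕ} (τ : ℝ) (δ : Fin d → ℝ) (z : St d) : Set (Euc d) :=
  {y | ∀ i, 0 < (z.1 i + d * τ * z.2 i - y i) * z.2 i ∧
    (z.1 i + d * τ * z.2 i - y i) * z.2 i < 2 * δ i}

def sZB : Prop :=
  ∀ (d : ℕ) (U : Euc d → ℝ) (γ : Fin d → ℝ) (z : St d) (τ L₁ : ℝ) (δ L₂ a₂ : Fin d → ℝ)
    (g : St d → ℝ≥0∞), Standing U → (∀ i, 0 < γ i) → z ∈ SZ d → 0 < τ → (∀ i, 0 < δ i) →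
    (∀ i, 2 * δ i ≤ τ) → 0 ≤ L₁ → (∀ i, 0 ≤ L₂ i) → (∀ i, 0 ≤ a₂ i) → Measurable g →
    (∀ y, ‖y - z.1‖ ≤ d * τ * ‖z.2‖ → rZ U γ (y, z.2) ≤ L₁ ∧ ∀ i,
      rZ U γ (y, flip i z.2) ≤ L₂ i ∧ a₂ i ≤ max (flip i z.2 i * gradient U y i) 0 + γ i) →
    ENNReal.ofReal (∏ i, (τ / 4 * γ i * a₂ i * Real.exp (-(L₁ * τ + L₂ i * δ i)))) *
        ∫⁻ y in Box τ δ z, g (y, z.2) ≤
      ∫⁻ u, g u ∂W (zigzag U γ) (d * τ) z

/-- Zig-Zag: bounded sets are small -/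
def sZM : Prop :=
  ∀ (d : ℕ) (U : Euc d → ℝ) (γ : Fin d → ℝ) (ρ : ℝ), 0 < d → Standing U → (∀ i, 0 < γ i) →
    ∃ T : ℝ, 1 ≤ T ∧ ∃ ν : Measure (St d), ν univ ≠ 0 ∧
      ∀ z ∈ SZ d, ‖z.1‖ ≤ ρ → ν ≤ W (zigzag U γ) T z

/-- Zig-Zag: uniform regularisation -/
def sZR : Prop :=
  ∀ (d : ℕ) (U w : Euc d → ℝ) (M C₀ c₁ C₁ w₀ : ℝ) (γ : Fin d → ℝ) (a : ℝ) (V : St d → ℝ),
    Standing U → Pot U w M C₀ c₁ C₁ w₀ → (∀ i, 0 < γ i) → 0 < a →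
    (∀ z, Real.exp (a * w z.1) ≤ 2 * V z) →
    Regul (W (zigzag U γ)) ((target U).prod (signs d)) (SZ d) V

/-- Bouncy Particle Sampler: Lyapunov function -/
def sBL : Prop :=
  ∀ (d : ℕ) (U w : Euc d → ℝ) (M C₀ c₁ C₁ w₀ : ℝ) (γ a₀ : ℝ),
    Pot U w M C₀ c₁ C₁ w₀ → 0 < γ → 0 < a₀ →
    ∃ (V : St d → ℝ) (a c b K : ℝ), Measurable V ∧ 0 < a ∧ 0 < c ∧ 0 ≤ b ∧
      (∀ z, Real.exp (a * w z.1) ≤ 2 * V z ∧ Real.exp (a₀ * ‖z.2‖) ≤ V z ∧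
        V z ≤ K * Real.exp (a₀ * (‖z.1‖ + ‖z.2‖))) ∧
      ∀ z, Drift (bps U γ) (rB U γ) V c b z

/-- Bouncy Particle Sampler: slow states that are not strongly uphill -/
def GB {d : ℕ} (U : Euc d → ℝ) (A : ℝ) : Set (St d) :=
  {z | ‖z.2‖ ≤ A ∧ inner ℝ z.2 (gradient U z.1) ≤ A}

def sBG : Prop :=
  ∀ (d : ℕ) (U : Euc d → ℝ) (M γ : ℝ), Standing U → Hess U M → 0 < γ →
    ∃ A T : ℝ, 0 ≤ A ∧ 0 < T ∧ ∀ z, ENNReal.ofReal (1 / 2) ≤ W (bps U γ) T z (GB U A)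

/-- state at time one after refreshments at times `s₁` and `s₁ + s` -/
def pt {d : ℕ} (z : St d) (s₁ s : ℝ) (w₁ w₂ : Euc d) : St d :=
  (z.1 + s₁ • z.2 + s • w₁ + (1 - s₁ - s) • w₂, w₂)

/-- Bouncy Particle Sampler: two refreshments and no bounce in a unit time window -/
def sBD : Prop :=
  ∀ (d : ℕ) (U : Euc d → ℝ) (γ L ρ : ℝ) (z : St d) (D : Set (Euc d)) (g : St d → ℝ≥0∞),
    Standing U → 0 < γ → 0 ≤ L → 0 ≤ ρ → MeasurableSet D → Measurable g → (∀ u ∈ D, ‖u‖ ≤ ρ) →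
    (∀ y, ‖y - z.1‖ ≤ ‖z.2‖ + ρ → rB U γ (y, z.2) ≤ L ∧ ∀ u ∈ D, rB U γ (y, u) ≤ L) →
    ENNReal.ofReal (γ ^ 2 * Real.exp (-L)) *
        ∫⁻ s₁ in Ioo (0 : ℝ) (1 / 3), ∫⁻ w₁ in D, (∫⁻ s in Ioo (1 / 3 : ℝ) (2 / 3),
          ∫⁻ w₂ in D, g (pt z s₁ s w₁ w₂) ∂stdGaussian (Euc d)) ∂stdGaussian (Euc d) ≤
      ∫⁻ u, g u ∂W (bps U γ) 1 z

/-- Bouncy Particle Sampler: bounded sets are small -/
def sBM : Prop :=
  ∀ (d : ℕ) (U : Euc d → ℝ) (γ ρ : ℝ), Standing U → 0 < γ →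
    ∃ ν : Measure (St d), ν univ ≠ 0 ∧ ∀ z : St d, ‖z.1‖ ≤ ρ → ‖z.2‖ ≤ ρ → ν ≤ W (bps U γ) 1 z

/-- Bouncy Particle Sampler: uniform regularisation -/
def sBR : Prop :=
  ∀ (d : ℕ) (U w : Euc d → ℝ) (M C₀ c₁ C₁ w₀ γ a : ℝ) (V : St d → ℝ),
    Standing U → Pot U w M C₀ c₁ C₁ w₀ → 0 < γ → 0 < a →
    (∀ z, Real.exp (a * w z.1) ≤ 2 * V z) →
    Regul (W (bps U γ)) ((target U).prod (stdGaussian (Euc d))) univ V

end Pool.Agent.Lib.MP_2024f4_pr.TR
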