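import Mathlib
import Pool.Agent.Lib.MP_2024f4_pr.TR.St

set_option autoImplicit false

open MeasureTheory ProbabilityTheory Set
open scoped ENNReal

namespace Pool.Agent.Lib.MP_2024f4_pr.TR.BG

variable {d : ℕ}

lemma reg {U : Euc d → ℝ} (hU : Standing U) {γ : ℝ} (hγ : 0 < γ) : Reg (bps U γ) (rB U γ) :=
  bps_reg hU hγ

/-- integral against the jump measure -/
lemma lint_bps (U : Euc d → ℝ) (γ : ℝ) (z : St d) {G : St d → ℝ≥0∞} (hG : Measurable G) :
    ∫⁻ w, G w ∂bps U γ z =
      ENNReal.ofReal (max (inner ℝ z.2 (gradient U z.1)) 0) *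
          G (z.1, reflect (gradient U z.1) z.2) +
        ENNReal.ofReal γ * ∫⁻ w, G (z.1, w) ∂stdGaussian (Euc d) := by
  rw [bps, lintegral_add_measure, lintegral_smul_measure, lintegral_smul_measure,
    lintegral_dirac' _ hG, lintegral_map hG (by fun_prop), smul_eq_mul, smul_eq_mul]

/-- one refreshment into `D` during the time window `(a, b)` -/
lemma step {U : Euc d → ℝ} (hU : Standing U) {γ : ℝ} (hγ : 0 < γ) {D : Set (Euc d)}
    (hD : MeasurableSet D) {g : St d → ℝ≥0∞} (hg : Measurable g) (n : ℕ) (z : St d)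
    {t a b L κ : ℝ} (ha : 0 ≤ a) (hb : b ≤ t) (_hκ : 0 ≤ κ)
    (hL : ∀ s, 0 ≤ s → s ≤ b → rB U γ (flow s z) ≤ L) (F : ℝ → Euc d → ℝ≥0∞)
    (hF : ∀ s ∈ Ioo a b, ∀ w ∈ D, ENNReal.ofReal (κ * Real.exp (-(L * (t - s)))) * F s w ≤
      ∫⁻ u, g u ∂lawN (bps U γ) n (t - s) (z.1 + s • z.2, w)) :
    ENNReal.ofReal (γ * κ * Real.exp (-(L * t))) *
        ∫⁻ s in Ioo a b, ∫⁻ w in D, F s w ∂stdGaussian (Euc d) ≤
      ∫⁻ u, g u ∂lawN (bps U γ) (n + 1) t z := by
  have h := reg hU hγ
  rw [lint_lawN_succ h n t z hg, ← lintegral_const_mul' _ _ ENNReal.ofReal_ne_top]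
  refine le_trans (setLIntegral_mono' measurableSet_Ioo fun s hs => ?_)
    (lintegral_mono_set (fun s hs => ⟨lt_of_le_of_lt ha hs.1, hs.2.le.trans hb⟩))
  have hs0 : 0 ≤ s := ha.trans hs.1.le
  have h1 := le_surv h z hs0 (L := L) fun u hu0 hu => hL u hu0 (hu.trans hs.2.le)
  have hG : Measurable fun w : St d => ∫⁻ u, g u ∂lawN (bps U γ) n (t - s) w :=
    meas_lint (measurable_lawNt h n _) hg
  have h2 : ENNReal.ofReal (κ * Real.exp (-(L * (t - s)))) *
      ∫⁻ w in D, F s w ∂stdGaussian (Euc d) ≤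
      ∫⁻ w, (∫⁻ u, g u ∂lawN (bps U γ) n (t - s) ((flow s z).1, w)) ∂stdGaussian (Euc d) := by
    rw [← lintegral_const_mul' _ _ ENNReal.ofReal_ne_top]
    exact le_trans (setLIntegral_mono' hD fun w hw => hF s hs w hw) (setLIntegral_le_lintegral _ _)
  have e : γ * κ * Real.exp (-(L * t)) =
      Real.exp (-(L * s)) * (γ * (κ * Real.exp (-(L * (t - s))))) := by
    rw [show -(L * t) = -(L * s) + -(L * (t - s)) by ring, Real.exp_add]; ring
  rw [e, ENNReal.ofReal_mul (Real.exp_nonneg _), ENNReal.ofReal_mul hγ.le, mul_assoc, mul_assoc,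
    lint_bps U γ _ hG]
  refine mul_le_mul' h1 (le_trans ?_ le_add_self)
  exact mul_le_mul' le_rfl h2

theorem bd : sBD := by
  intro d U γ L ρ z D g hU hγ hL hρ hD hg hDρ hb
  have h := reg hU hγ
  refine le_trans ?_ (lint_lawN_le 2 1 z g)
  have hv := norm_nonneg z.2
  have e : γ ^ 2 * Real.exp (-L) = γ * (γ * 1) * Real.exp (-(L * 1)) := by
    rw [mul_one L]; ring
  rw [e]
  refine step hU hγ hD hg 1 z le_rfl (by norm_num) (by positivity) (fun s hs0 hs => ?_) _
    fun s₁ hs₁ w₁ hw₁ => ?_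
  · refine (hb (z.1 + s • z.2) ?_).1
    rw [add_sub_cancel_left, norm_smul, Real.norm_of_nonneg hs0]
    nlinarith
  have hw1 := hDρ w₁ hw₁
  have hn1 : ‖s₁ • z.2‖ ≤ ‖z.2‖ := by
    rw [norm_smul, Real.norm_of_nonneg hs₁.1.le]
    nlinarith [hs₁.2]
  refine step hU hγ hD hg 0 (z.1 + s₁ • z.2, w₁) (by norm_num) (by linarith [hs₁.2]) zero_le_one
    (fun s hs0 hs => ?_) _ fun s hs w₂ hw₂ => ?_
  · refine (hb (z.1 + s₁ • z.2 + s • w₁) ?_).2 w₁ hw₁
    rw [add_assoc, add_sub_cancel_left]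
    refine (norm_add_le _ _).trans (add_le_add hn1 ?_)
    rw [norm_smul, Real.norm_of_nonneg hs0]
    nlinarith [norm_nonneg w₁]
  have hw2 := hDρ w₂ hw₂
  have ht : 0 ≤ 1 - s₁ - s := by linarith [hs₁.2, hs.2]
  rw [lint_lawN_zero h _ _ hg, one_mul]
  refine mul_le_mul' (le_surv h _ ht fun u hu0 hu => ?_) (le_of_eq rfl)
  refine (hb (z.1 + s₁ • z.2 + s • w₁ + u • w₂) ?_).2 w₂ hw₂
  rw [add_assoc, add_assoc, add_sub_cancel_left]
  refine (norm_add_le _ _).trans (add_le_add hn1 ((norm_add_le _ _).trans ?_))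
  have hs0 : 0 ≤ s := by linarith [hs.1]
  rw [norm_smul, norm_smul, Real.norm_of_nonneg hs0, Real.norm_of_nonneg hu0]
  have a1 : s * ‖w₁‖ ≤ s * ρ := mul_le_mul_of_nonneg_left hw1 hs0
  have a2 : u * ‖w₂‖ ≤ u * ρ := mul_le_mul_of_nonneg_left hw2 hu0
  nlinarith [hs₁.1]

lemma inner_reflect (g v : Euc d) : inner ℝ (reflect g v) g = -inner ℝ v g := by
  by_cases hg : g = 0
  · simp [hg]
  have h1 : ‖g‖ ≠ 0 := norm_ne_zero_iff.mpr hg
  rw [reflect, inner_sub_left, real_inner_smul_left, real_inner_self_eq_norm_sq]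
  field_simp
  ring

/-- indicator of the fast states -/
noncomputable def f1 (A : ℝ) (z : St d) : ℝ := if A < ‖z.2‖ then 1 else 0

/-- smoothed indicator of the slow, strongly uphill states -/
noncomputable def f2 (U : Euc d → ℝ) (A A₀ : ℝ) (z : St d) : ℝ :=
  Real.smoothTransition (inner ℝ z.2 (gradient U z.1) - A₀) * (1 - f1 A z)

lemma f1_meas (A : ℝ) : Measurable (f1 (d := d) A) :=
  Measurable.ite (measurableSet_lt measurable_const (by fun_prop)) measurable_const
    measurable_const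

lemma f1_nonneg (A : ℝ) (z : St d) : 0 ≤ f1 A z := by unfold f1; split_ifs <;> norm_num

lemma f1_le (A : ℝ) (z : St d) : f1 A z ≤ 1 := by unfold f1; split_ifs <;> norm_num

lemma f2_meas {U : Euc d → ℝ} (hU : Continuous (gradient U)) (A A₀ : ℝ) :
    Measurable (f2 U A A₀) := by
  refine Measurable.mul (Continuous.measurable ?_) (measurable_const.sub (f1_meas A))
  exact Real.smoothTransition.continuous.comp
    ((continuous_snd.inner (hU.comp continuous_fst)).sub continuous_const)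

lemma f2_nonneg (U : Euc d → ℝ) (A A₀ : ℝ) (z : St d) : 0 ≤ f2 U A A₀ z :=
  mul_nonneg (Real.smoothTransition.nonneg _) (by linarith [f1_le A z])

lemma f2_le (U : Euc d → ℝ) (A A₀ : ℝ) (z : St d) : f2 U A A₀ z ≤ 1 :=
  mul_le_one₀ (Real.smoothTransition.le_one _) (by linarith [f1_le A z])
    (by linarith [f1_nonneg A z])

lemma drift1 (U : Euc d → ℝ) {γ : ℝ} (hγ : 0 < γ) (A : ℝ) (z : St d) :
    Drift (bps U γ) (rB U γ) (f1 A) γ (γ * (stdGaussian (Euc d)).real {w | A < ‖w‖}) z := by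
  have hp : 0 ≤ (stdGaussian (Euc d)).real {w | A < ‖w‖} := measureReal_nonneg
  have hm : 0 ≤ max (inner ℝ z.2 (gradient U z.1)) 0 := le_max_right _ _
  have hf := f1_nonneg A z
  refine ⟨0, max (inner ℝ z.2 (gradient U z.1)) 0 * f1 A z +
    γ * (stdGaussian (Euc d)).real {w | A < ‖w‖}, ?_, by positivity, ?_, ?_⟩
  · exact hasDerivAt_const (0 : ℝ) (f1 A z)
  · rw [lint_bps U γ z (f1_meas A).ennreal_ofReal, ENNReal.ofReal_add (by positivity)
      (by positivity), ENNReal.ofReal_mul hm, ENNReal.ofReal_mul hγ.le]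
    have e1 : f1 A (z.1, reflect (gradient U z.1) z.2) = f1 A z := by
      simp only [f1, norm_reflect]
    have hS : MeasurableSet {w : Euc d | A < ‖w‖} :=
      measurableSet_lt measurable_const measurable_norm
    have e2 : ∫⁻ w, ENNReal.ofReal (f1 A (z.1, w)) ∂stdGaussian (Euc d) =
        ENNReal.ofReal ((stdGaussian (Euc d)).real {w | A < ‖w‖}) := by
      rw [ofReal_measureReal (measure_ne_top _ _), ← lintegral_indicator_one hS]
      refine lintegral_congr fun w => ?_
      simp only [f1, indicator, mem_ofPred_eq, Pi.one_apply]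
      split_ifs <;> simp
    rw [e1, e2]
  · rw [rB]; linarith

lemma drift2 {U : Euc d → ℝ} {M γ K A A₀ : ℝ} (hH : Hess U M) (hγ : 0 < γ)
    (hK : ∀ x, |deriv Real.smoothTransition x| ≤ K) (hA₀ : 0 ≤ A₀) (z : St d) :
    Drift (bps U γ) (rB U γ) (f2 U A A₀) A₀ (K * (M * A ^ 2) + γ) z := by
  obtain ⟨D, hD, hDb⟩ := hH.der2 z.1 z.2 z.2
  set s := inner ℝ z.2 (gradient U z.1) with hs
  have hK0 : 0 ≤ K := (abs_nonneg _).trans (hK 0)
  have hM : 0 ≤ M := zero_le_one.trans hH.one_le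
  have h1 : HasDerivAt Real.smoothTransition (deriv Real.smoothTransition (s - A₀))
      (inner ℝ z.2 (gradient U (z.1 + (0 : ℝ) • z.2)) - A₀) := by
    rw [zero_smul, add_zero]
    exact ((Real.smoothTransition.contDiff (n := 1)).differentiable (by simp) _).hasDerivAt
  have h2 := (h1.comp (0 : ℝ) (hD.sub_const A₀)).mul_const (1 - f1 A z)
  refine ⟨_, γ, h2, hγ.le, ?_, ?_⟩
  · rw [lint_bps U γ z (f2_meas hH.cont A A₀).ennreal_ofReal]
    have e1 : ENNReal.ofReal (max s 0) *
        ENNReal.ofReal (f2 U A A₀ (z.1, reflect (gradient U z.1) z.2)) = 0 := by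
      rcases le_total s 0 with h | h
      · simp [max_eq_right h]
      · have : f2 U A A₀ (z.1, reflect (gradient U z.1) z.2) = 0 := by
          rw [f2]
          simp only [inner_reflect]
          rw [Real.smoothTransition.zero_of_nonpos (by linarith), zero_mul]
        simp [this]
    rw [e1, zero_add]
    have e2 : ∫⁻ w, ENNReal.ofReal (f2 U A A₀ (z.1, w)) ∂stdGaussian (Euc d) ≤ 1 := by
      calc _ ≤ ∫⁻ _w, 1 ∂stdGaussian (Euc d) :=
            lintegral_mono fun w => ENNReal.ofReal_le_one.mpr (f2_le U A A₀ _)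
        _ = 1 := by simp
    exact mul_le_of_le_one_right' e2
  · have hf := f2_nonneg U A A₀ z
    have a1 : deriv Real.smoothTransition (s - A₀) * D * (1 - f1 A z) ≤ K * (M * A ^ 2) := by
      unfold f1
      split_ifs with h
      · rw [sub_self, mul_zero]; positivity
      · rw [sub_zero, mul_one]
        have hn := norm_nonneg z.2
        have h' : ‖z.2‖ ≤ A := not_lt.mp h
        have b1 : |D| ≤ M * A ^ 2 := by
          refine hDb.trans ?_
          rw [mul_assoc, sq]
          exact mul_le_mul_of_nonneg_left (mul_le_mul h' h' hn (hn.trans h')) hM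
        calc _ ≤ |deriv Real.smoothTransition (s - A₀) * D| := le_abs_self _
          _ = |deriv Real.smoothTransition (s - A₀)| * |D| := abs_mul _ _
          _ ≤ _ := mul_le_mul (hK _) b1 (abs_nonneg _) hK0
    have a2 : A₀ * f2 U A A₀ z ≤ rB U γ z * f2 U A A₀ z := by
      rcases le_total s A₀ with h | h
      · have : f2 U A A₀ z = 0 := by
          rw [f2, Real.smoothTransition.zero_of_nonpos (by linarith), zero_mul]
        rw [this, mul_zero, mul_zero]
      · refine mul_le_mul_of_nonneg_right ?_ hf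
        have := le_max_left s 0
        rw [rB]; linarith
    linarith

theorem bg (h : sLyap) : sBG := by
  intro d U M γ hU hH hγ
  have hr := reg hU hγ
  obtain ⟨K, hK⟩ := deriv_st_bound
  have hK0 : 0 ≤ K := (abs_nonneg _).trans (hK 0)
  have hM : 0 ≤ M := zero_le_one.trans hH.one_le
  obtain ⟨n, hn⟩ := ((tendsto_tail (stdGaussian (Euc d))).eventually
    (ge_mem_nhds (by norm_num : (0 : ℝ) < 1 / 8))).exists
  have hA1 : (0 : ℝ) ≤ (n : ℝ) := Nat.cast_nonneg n
  generalize (n : ℝ) = A₁ at hn hA1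
  set b := K * (M * A₁ ^ 2) + γ with hb
  have hb0 : γ ≤ b := by
    have : 0 ≤ K * (M * A₁ ^ 2) := by positivity
    linarith
  have hbp : 0 < b := lt_of_lt_of_le hγ hb0
  set T := 7 / γ with hT
  have hT0 : 0 < T := by positivity
  have he : ∀ c, γ ≤ c → Real.exp (-c * T) ≤ 1 / 8 := by
    intro c hc
    have h1 : 7 ≤ c * T := by
      rw [hT, mul_div_assoc', le_div_iff₀ hγ]; linarith
    have h2 := Real.add_one_le_exp (c * T)
    rw [neg_mul, Real.exp_neg, one_div]
    exact inv_anti₀ (by norm_num) (by linarith)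
  refine ⟨A₁ + 8 * b + 1, T, by positivity, hT0, fun z => ?_⟩
  have hp : 0 ≤ (stdGaussian (Euc d)).real {w | A₁ < ‖w‖} := measureReal_nonneg
  have l1 := h d _ _ _ univ _ _ hr closed_univ (f1_meas A₁) (f1_nonneg A₁) hγ (by positivity)
    (fun z _ => drift1 U hγ A₁ z) T hT0.le z (mem_univ _)
  have l2 := h d _ _ _ univ _ _ hr closed_univ (f2_meas hH.cont A₁ (8 * b))
    (f2_nonneg U A₁ (8 * b)) (by positivity) hbp.le
    (fun z _ => drift2 hH hγ hK (by positivity) z) T hT0.le z (mem_univ _)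
  have m1 : ∫⁻ w, ENNReal.ofReal (f1 A₁ w) ∂W (bps U γ) T z ≤ ENNReal.ofReal (1 / 4) := by
    refine l1.trans (ENNReal.ofReal_le_ofReal ?_)
    rw [mul_div_cancel_left₀ _ hγ.ne']
    have := mul_le_mul (he γ le_rfl) (f1_le A₁ z) (f1_nonneg A₁ z) (by norm_num)
    linarith
  have m2 : ∫⁻ w, ENNReal.ofReal (f2 U A₁ (8 * b) w) ∂W (bps U γ) T z ≤
      ENNReal.ofReal (1 / 4) := by
    refine l2.trans (ENNReal.ofReal_le_ofReal ?_)
    have e : b / (8 * b) = 1 / 8 := by field_simp
    rw [e]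
    have := mul_le_mul (he (8 * b) (by linarith)) (f2_le U A₁ (8 * b) z)
      (f2_nonneg U A₁ (8 * b) z) (by norm_num)
    linarith
  have hG : MeasurableSet (GB U (A₁ + 8 * b + 1)) := by
    have c1 : Continuous fun z : St d => ‖z.2‖ := by fun_prop
    have c2 : Continuous fun z : St d => inner ℝ z.2 (gradient U z.1) :=
      continuous_snd.inner (hH.cont.comp continuous_fst)
    exact (measurableSet_le c1.measurable measurable_const).inter
      (measurableSet_le c2.measurable measurable_const)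
  have hc : W (bps U γ) T z (GB U (A₁ + 8 * b + 1))ᶜ ≤ ENNReal.ofReal (1 / 2) := by
    rw [← lintegral_indicator_one hG.compl]
    calc _ ≤ ∫⁻ w, (ENNReal.ofReal (f1 A₁ w) + ENNReal.ofReal (f2 U A₁ (8 * b) w))
          ∂W (bps U γ) T z := by
          refine lintegral_mono fun w => ?_
          by_cases hw : w ∈ (GB U (A₁ + 8 * b + 1))ᶜ
          · rw [indicator_of_mem hw, Pi.one_apply]
            by_cases h1 : A₁ < ‖w.2‖
            · rw [f1, if_pos h1, ENNReal.ofReal_one]; exact le_self_add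
            · have h2 : A₁ + 8 * b + 1 < inner ℝ w.2 (gradient U w.1) := by
                by_contra h3
                exact hw ⟨by linarith [not_lt.mp h1], not_lt.mp h3⟩
              rw [f2, Real.smoothTransition.one_of_one_le (by linarith), f1, if_neg h1]
              simp
          · rw [indicator_of_notMem hw]; exact zero_le
      _ = _ := lintegral_add_left (f1_meas A₁).ennreal_ofReal _
      _ ≤ ENNReal.ofReal (1 / 4) + ENNReal.ofReal (1 / 4) := add_le_add m1 m2
      _ = _ := by rw [← ENNReal.ofReal_add (by norm_num) (by norm_num)]; norm_num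
  have hu := hr.W_univ (bps_confined hγ) T hT0.le z
  have hs := measure_add_measure_compl (μ := W (bps U γ) T z) hG
  rw [hu] at hs
  have e1 : (1 : ℝ≥0∞) = ENNReal.ofReal (1 / 2) + ENNReal.ofReal (1 / 2) := by
    rw [← ENNReal.ofReal_add (by norm_num) (by norm_num)]; norm_num
  have h3 : ENNReal.ofReal (1 / 2) + ENNReal.ofReal (1 / 2) ≤
      W (bps U γ) T z (GB U (A₁ + 8 * b + 1)) + ENNReal.ofReal (1 / 2) := by
    rw [← e1, ← hs]; exact add_le_add le_rfl hc
  exact (ENNReal.add_le_add_iff_right ENNReal.ofReal_ne_top).mp h3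

end Pool.Agent.Lib.MP_2024f4_pr.TR.BG
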