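import Mathlib
import Pool.Agent.Lib.MP_2024f4_pr.TR.St

set_option autoImplicit false

open MeasureTheory ProbabilityTheory Set
open scoped ENNReal

namespace Pool.Agent.Lib.MP_2024f4_pr.TR.BL

/-- even bounded correction -/
noncomputable def rho (t : ℝ) : ℝ := t ^ 2 / (1 + t ^ 2)

/-- velocity correction as a function of the speed `n` and of the slope `t` -/
noncomputable def psi (κ C n t : ℝ) : ℝ := -rho t + t + κ * (2 * n ^ 2 + n * t / C)

lemma rho_nonneg (t : ℝ) : 0 ≤ rho t := by unfold rho; positivity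

lemma rho_le_one (t : ℝ) : rho t ≤ 1 := by
  unfold rho; rw [div_le_one (by positivity)]; linarith

lemma rho_neg (t : ℝ) : rho (-t) = rho t := by simp [rho]

lemma rho_le_half {t : ℝ} (ht : 0 ≤ t) : rho t ≤ t / 2 := by
  unfold rho
  rw [div_le_iff₀ (by positivity)]
  nlinarith [mul_nonneg ht (sq_nonneg (t - 1))]

lemma continuous_rho : Continuous rho := by
  unfold rho
  exact Continuous.div (by fun_prop) (by fun_prop) fun t => by positivity

lemma deriv_rho (t : ℝ) : ∃ e : ℝ, HasDerivAt rho e t ∧ |e| ≤ 1 := by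
  have h0 : (0 : ℝ) < 1 + t ^ 2 := by positivity
  have h1 : HasDerivAt (fun t : ℝ => t ^ 2) (2 * t) t := by simpa using hasDerivAt_pow 2 t
  refine ⟨_, h1.div (h1.const_add 1) h0.ne', ?_⟩
  rw [abs_div, abs_of_pos (pow_pos h0 2), div_le_one (pow_pos h0 2), abs_le]
  constructor <;> nlinarith [sq_nonneg (t - 1), sq_nonneg (t + 1), sq_nonneg (t ^ 2), sq_nonneg t]

lemma cross {C n t : ℝ} (hC : 1 ≤ C) (hn : 0 ≤ n) (ht : |t| ≤ C * n) : |n * t / C| ≤ n ^ 2 := by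
  rw [abs_div, abs_mul, abs_of_nonneg hn, abs_of_pos (by linarith : 0 < C),
    div_le_iff₀ (by linarith)]
  nlinarith [mul_le_mul_of_nonneg_left ht hn]

lemma psi_bounds {β κ C n t : ℝ} (hβ : 0 < β) (hκ : 0 < κ) (hC : 1 ≤ C) (hn : 0 ≤ n)
    (ht : |t| ≤ C * n) (h1 : β ≤ 1 / 4) (h2 : β * C ^ 2 ≤ κ) :
    1 / 2 ≤ 1 + β * psi κ C n t ∧ 1 + β * psi κ C n t ≤ 2 + 4 * (β * κ * n ^ 2) := by
  obtain ⟨c1, c2⟩ := abs_le.mp (cross hC hn ht)
  obtain ⟨t1, t2⟩ := abs_le.mp ht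
  have r0 := mul_nonneg hβ.le (rho_nonneg t)
  have r1 := mul_le_mul_of_nonneg_left (rho_le_one t) hβ.le
  have k1 := mul_le_mul_of_nonneg_left c1 (mul_pos hβ hκ).le
  have k2 := mul_le_mul_of_nonneg_left c2 (mul_pos hβ hκ).le
  have u1 := mul_le_mul_of_nonneg_left t1 hβ.le
  have u2 := mul_le_mul_of_nonneg_left t2 hβ.le
  have q : β * (C * n) ≤ 1 / 4 + β * κ * n ^ 2 := by
    have := mul_le_mul_of_nonneg_left h2 (mul_nonneg hβ.le (sq_nonneg n))
    nlinarith [sq_nonneg (β * (C * n) - 1 / 2)]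
  have e : β * psi κ C n t =
      -(β * rho t) + β * t + 2 * (β * κ * n ^ 2) + β * κ * (n * t / C) := by unfold psi; ring
  rw [e]
  constructor <;> nlinarith

/-- the pointwise generator bound -/
lemma core {γ β κ C C₂ w n t t' e : ℝ} (hγ : 0 < γ) (hβ : 0 < β) (hκ : 0 < κ) (hC : 1 ≤ C)
    (hw : 1 ≤ w) (hn : 0 ≤ n) (ht : |t| ≤ C * n) (ht' : |t'| ≤ C₂ * n ^ 2 / w)
    (he : |e| ≤ 1) (h1 : β ≤ 1 / 4) (h2 : β * C ^ 2 ≤ κ) (h3 : 3 * γ * β ≤ 1) :
    3 * γ * t * (1 + β * psi κ C n t) + (-e + 1 + κ * (n / C)) * t' +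
        max (2 * w * t) 0 * (psi κ C n (-t) - psi κ C n t) - γ * psi κ C n t ≤
      -(γ * κ * n ^ 2) + (3 * γ ^ 2 / 4 + 2 * C₂ * n ^ 2 + κ * (C₂ + C) * n ^ 3) / w := by
  have hw0 : 0 < w := by linarith
  have hC0 : 0 < C := by linarith
  obtain ⟨c1, c2⟩ := abs_le.mp (cross hC hn ht)
  have hd : (-e + 1 + κ * (n / C)) * t' ≤ (2 * C₂ * n ^ 2 + κ * C₂ * n ^ 3) / w := by
    have a1 : n / C ≤ n := div_le_self hn hC
    have a2 : 0 ≤ n / C := by positivity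
    obtain ⟨e1, e2⟩ := abs_le.mp he
    have a3 : |-e + 1 + κ * (n / C)| ≤ 2 + κ * n := by
      rw [abs_le]
      constructor <;> nlinarith [mul_le_mul_of_nonneg_left a1 hκ.le, mul_nonneg hκ.le a2]
    calc _ ≤ |(-e + 1 + κ * (n / C)) * t'| := le_abs_self _
      _ ≤ (2 + κ * n) * (C₂ * n ^ 2 / w) := by
        rw [abs_mul]; exact mul_le_mul a3 ht' (abs_nonneg _) (by positivity)
      _ = _ := by ring
  have hs : (3 * γ ^ 2 / 4 + 2 * C₂ * n ^ 2 + κ * (C₂ + C) * n ^ 3) / w =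
      3 * γ ^ 2 / 4 / w + (2 * C₂ * n ^ 2 + κ * C₂ * n ^ 3) / w + κ * n * (C * n ^ 2 / w) := by
    ring
  have p1 : 0 ≤ 3 * γ ^ 2 / 4 / w := by positivity
  have p2 : 0 ≤ κ * n * (C * n ^ 2 / w) := by positivity
  have k1 := mul_le_mul_of_nonneg_left c1 (mul_pos hγ hκ).le
  have eγ : γ * psi κ C n t =
      -(γ * rho t) + γ * t + 2 * (γ * κ * n ^ 2) + γ * κ * (n * t / C) := by unfold psi; ring
  rw [hs, eγ]
  rcases le_total t 0 with h | h
  · have b1 := (psi_bounds hβ hκ hC hn ht h1 h2).1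
    have b2 : 3 * γ * t * (1 + β * psi κ C n t) ≤ 3 * γ * t * (1 / 2) :=
      mul_le_mul_of_nonpos_left b1 (by nlinarith)
    have b3 : rho t ≤ -t / 2 := by rw [← rho_neg]; exact rho_le_half (by linarith)
    have b4 := mul_le_mul_of_nonneg_left b3 hγ.le
    rw [max_eq_right (by nlinarith)]
    nlinarith
  · obtain ⟨τ, rfl⟩ : ∃ τ, t = C * τ := ⟨t / C, by field_simp⟩
    have hτ : 0 ≤ τ := nonneg_of_mul_nonneg_right h hC0
    have e1 : n * (C * τ) / C = n * τ := by field_simp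
    have e2 : psi κ C n (-(C * τ)) - psi κ C n (C * τ) = -(2 * (C * τ)) - 2 * (κ * n * τ) := by
      unfold psi; rw [rho_neg]; field_simp; ring
    have b1 : psi κ C n (C * τ) ≤ C * τ + κ * (2 * n ^ 2 + n * τ) := by
      unfold psi; rw [e1]; linarith [rho_nonneg (C * τ)]
    have b0 : 0 ≤ C * τ + κ * (2 * n ^ 2 + n * τ) := by positivity
    have b2 : 3 * γ * (C * τ) * (1 + β * psi κ C n (C * τ)) ≤
        3 * γ * (C * τ) + C * τ * (C * τ + κ * (2 * n ^ 2 + n * τ)) := by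
      have a1 := mul_le_mul_of_nonneg_left b1 (by positivity : 0 ≤ 3 * γ * β * (C * τ))
      have a2 := mul_le_mul_of_nonneg_right h3 (mul_nonneg h b0)
      nlinarith
    have b3 := mul_le_mul_of_nonneg_left (rho_le_half h) hγ.le
    have b4 : 3 * γ * (C * τ) - 3 * w * (C * τ) ^ 2 ≤ 3 * γ ^ 2 / 4 / w := by
      rw [le_div_iff₀ hw0]; nlinarith [sq_nonneg (γ - 2 * w * (C * τ))]
    have b5 : 2 * n * (C * τ) - 3 * w * (C * τ ^ 2) ≤ C * n ^ 2 / w := by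
      rw [le_div_iff₀ hw0]
      nlinarith [mul_nonneg hC0.le (sq_nonneg (n - w * τ)), mul_nonneg hC0.le (sq_nonneg (w * τ))]
    have b6 := mul_le_mul_of_nonneg_left b5 (mul_nonneg hκ.le hn)
    have b7 := mul_le_mul_of_nonneg_right hw (sq_nonneg (C * τ))
    have b8 := mul_le_mul_of_nonneg_right hw (by positivity : 0 ≤ κ * n * (C * τ ^ 2))
    have b9 : 0 ≤ γ * κ * (n * τ) := by positivity
    have b10 : 0 ≤ γ * κ * n ^ 2 := by positivity
    have b11 : 0 ≤ γ * (C * τ) := by positivity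
    rw [max_eq_left (by positivity), e1, e2]
    nlinarith

lemma pay {K g : ℝ} (hK : 0 ≤ K) (hg : 0 < g) :
    ∃ b : ℝ, 0 ≤ b ∧ ∀ y : ℝ, 0 ≤ y → K * y ^ 3 ≤ g * y ^ 4 + b := by
  refine ⟨K * (K / g) ^ 3, by positivity, fun y hy => ?_⟩
  rcases le_total y (K / g) with h | h
  · have : K * y ^ 3 ≤ K * (K / g) ^ 3 := by gcongr
    have : 0 ≤ g * y ^ 4 := by positivity
    linarith
  · rw [div_le_iff₀ hg] at h
    have h1 := mul_le_mul_of_nonneg_right h (pow_nonneg hy 3)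
    have : 0 ≤ K * (K / g) ^ 3 := by positivity
    nlinarith

lemma cubic {A B D δ : ℝ} (hA : 0 ≤ A) (hB : 0 ≤ B) (hD : 0 ≤ D) (hδ : 0 < δ) :
    ∃ K : ℝ, 0 ≤ K ∧ ∀ n : ℝ, 0 ≤ n → A + B * n ^ 2 + D * n ^ 3 ≤ K * Real.exp (δ * n) := by
  obtain ⟨c, hc0, hc⟩ := poly_le_exp hδ 3
  refine ⟨(A + B + D) * c, by positivity, fun n hn => ?_⟩
  have h2 : 0 ≤ n ^ 2 := by positivity
  have h3 : 0 ≤ n ^ 3 := by positivity
  have e : (1 + n) ^ 3 = 1 + 3 * n + 3 * n ^ 2 + n ^ 3 := by ring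
  have a1 : A * 1 ≤ A * (1 + n) ^ 3 := mul_le_mul_of_nonneg_left (by linarith) hA
  have a2 : B * n ^ 2 ≤ B * (1 + n) ^ 3 := mul_le_mul_of_nonneg_left (by linarith) hB
  have a3 : D * n ^ 3 ≤ D * (1 + n) ^ 3 := mul_le_mul_of_nonneg_left (by linarith) hD
  have a4 := mul_le_mul_of_nonneg_left (hc n hn) (by positivity : 0 ≤ A + B + D)
  linarith

/-- from the pointwise bound to the drift inequality -/
lemma final {γ β κ C₂ C₃ m₀ m₂ m₃ a₀ : ℝ} (w₀ : ℝ) (hγ : 0 < γ) (hβ : 0 < β) (hκ : 0 < κ)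
    (hC₂ : 0 ≤ C₂) (hC₃ : 0 < C₃) (hm₀ : 0 < m₀) (hm₂ : 0 ≤ m₂) (hm₃ : 0 ≤ m₃) (ha₀ : 0 < a₀)
    (h3 : 3 * γ * β ≤ 1) (h4 : 12 * κ * m₂ ≤ m₀) (h5 : 24 * β * C₃ ≤ a₀) :
    ∃ c b : ℝ, 0 < c ∧ 0 ≤ b ∧ ∀ w n m P : ℝ, 1 ≤ w → 0 ≤ n → 0 ≤ m → (w₀ ≤ w → m₀ ≤ m) →
      P ≤ 2 + 4 * (β * κ * n ^ 2) →
      Real.exp (3 * γ * β * w) * (β * (-(γ * κ * n ^ 2) +
          (3 * γ ^ 2 / 4 + 2 * C₂ * n ^ 2 + κ * C₃ * n ^ 3) / w - γ * m + 6 * γ * κ * m₂)) +
          γ * m₃ - γ * Real.exp (a₀ * n) ≤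
        -c * (Real.exp (3 * γ * β * w) * P + Real.exp (a₀ * n)) + b := by
  obtain ⟨c, hc, c1, c2⟩ : ∃ c : ℝ, 0 < c ∧ c ≤ β * γ * m₀ / 8 ∧ c ≤ γ / 8 :=
    ⟨min _ _, lt_min (by positivity) (by positivity), min_le_left _ _, min_le_right _ _⟩
  obtain ⟨w₁, hw₁, u0, u1, u2⟩ :
      ∃ w₁ : ℝ, 0 ≤ w₁ ∧ w₀ ≤ w₁ ∧ 3 * γ / m₀ ≤ w₁ ∧ 8 * C₂ / (γ * κ) ≤ w₁ := by
    have a1 : 0 ≤ 3 * γ / m₀ := by positivity
    have a2 : 0 ≤ 8 * C₂ / (γ * κ) := by positivity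
    have a3 := le_abs_self w₀
    have a4 := abs_nonneg w₀
    exact ⟨|w₀| + 3 * γ / m₀ + 8 * C₂ / (γ * κ), by linarith, by linarith, by linarith,
      by linarith⟩
  obtain ⟨K, hK, hK'⟩ := cubic (A := β * (3 * γ ^ 2 / 4 + 6 * γ * κ * m₂) + 2 * c)
    (B := 2 * β * C₂ + 4 * c * β * κ) (D := β * κ * C₃) (δ := a₀ / 4) (by positivity)
    (by positivity) (by positivity) (by positivity)
  obtain ⟨b, hb, hb'⟩ := pay (K := Real.exp w₁ * K) (g := γ / 2) (by positivity) (by positivity)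
  refine ⟨c, b + γ * m₃, hc, by positivity, fun w n m P hw hn hm hm' hP => ?_⟩
  have hw0 : 0 < w := by linarith
  have hE := Real.exp_pos (3 * γ * β * w)
  have hY := Real.exp_pos (a₀ * n)
  have hcP := mul_le_mul_of_nonneg_left hP hc.le
  have hcY := mul_le_mul_of_nonneg_right c2 hY.le
  have hγY := mul_pos hγ hY
  set Q := -(γ * κ * n ^ 2) + (3 * γ ^ 2 / 4 + 2 * C₂ * n ^ 2 + κ * C₃ * n ^ 3) / w - γ * m +
    6 * γ * κ * m₂ with hQ
  suffices H : Real.exp (3 * γ * β * w) * (β * Q + c * P) ≤ γ / 2 * Real.exp (a₀ * n) + b by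
    linarith
  by_cases hg : w₁ ≤ w ∧ 4 * C₃ * n ≤ γ * w
  · have v0 := mul_le_mul_of_nonneg_left (hm' (u0.trans hg.1)) hγ.le
    have v1 := (div_le_iff₀ hm₀).mp (u1.trans hg.1)
    have v2 := (div_le_iff₀ (mul_pos hγ hκ)).mp (u2.trans hg.1)
    have v3 : (3 * γ ^ 2 / 4 + 2 * C₂ * n ^ 2 + κ * C₃ * n ^ 3) / w ≤
        γ * m₀ / 4 + γ * κ * n ^ 2 / 2 := by
      rw [div_le_iff₀ hw0]
      have a1 := mul_le_mul_of_nonneg_left v1 hγ.le
      have a2 := mul_le_mul_of_nonneg_right v2 (sq_nonneg n)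
      have a3 := mul_le_mul_of_nonneg_right hg.2 (mul_nonneg hκ.le (sq_nonneg n))
      linarith
    have v4 := mul_le_mul_of_nonneg_left h4 hγ.le
    have v5 : Q ≤ -(γ * m₀ / 4) - γ * κ * n ^ 2 / 2 := by rw [hQ]; linarith
    have v6 := mul_le_mul_of_nonneg_left v5 hβ.le
    have v7 := mul_le_mul_of_nonneg_right c2 (by positivity : 0 ≤ β * κ * n ^ 2)
    have v8 : β * Q + c * P ≤ 0 := by linarith
    have v9 := mul_nonpos_of_nonneg_of_nonpos hE.le v8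
    linarith
  · have hy := Real.exp_pos (a₀ / 4 * n)
    have y2 : Real.exp (a₀ / 4 * n) ^ 2 = Real.exp (a₀ / 2 * n) := by
      rw [← Real.exp_nat_mul]; congr 1; push_cast; ring
    have y4 : Real.exp (a₀ / 4 * n) ^ 4 = Real.exp (a₀ * n) := by
      rw [← Real.exp_nat_mul]; congr 1; push_cast; ring
    have v1 : Real.exp (3 * γ * β * w) ≤ Real.exp w₁ * Real.exp (a₀ / 4 * n) ^ 2 := by
      rw [y2, ← Real.exp_add]
      refine Real.exp_le_exp.mpr ?_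
      have a0 : 0 ≤ a₀ / 2 * n := by positivity
      rcases not_and_or.mp hg with h | h
      · have := mul_le_mul_of_nonneg_right h3 hw0.le
        linarith [not_le.mp h]
      · have a1 := mul_le_mul_of_nonneg_left (not_le.mp h).le hβ.le
        have a2 := mul_le_mul_of_nonneg_right h5 hn
        linarith
    have v2 : (3 * γ ^ 2 / 4 + 2 * C₂ * n ^ 2 + κ * C₃ * n ^ 3) / w ≤
        3 * γ ^ 2 / 4 + 2 * C₂ * n ^ 2 + κ * C₃ * n ^ 3 := div_le_self (by positivity) hw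
    have v3 : Q ≤ 3 * γ ^ 2 / 4 + 2 * C₂ * n ^ 2 + κ * C₃ * n ^ 3 + 6 * γ * κ * m₂ := by
      have a1 : 0 ≤ γ * κ * n ^ 2 := by positivity
      have a2 : 0 ≤ γ * m := by positivity
      rw [hQ]; linarith
    have v4 := mul_le_mul_of_nonneg_left v3 hβ.le
    have v5 : β * Q + c * P ≤ K * Real.exp (a₀ / 4 * n) := by linarith [hK' n hn]
    have v6 := mul_le_mul_of_nonneg_left v5 hE.le
    have v7 := mul_le_mul_of_nonneg_right v1 (mul_nonneg hK hy.le)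
    have v8 := hb' _ hy.le
    rw [y4] at v8
    linarith

variable {d : ℕ} {U w : Euc d → ℝ} {M C₀ c₁ C₁ w₀ : ℝ}

/-- slope of the height function along the flight -/
noncomputable def sl (U w : Euc d → ℝ) (z : St d) : ℝ :=
  inner ℝ z.2 (gradient U z.1) / (2 * w z.1)

/-- the Lyapunov function -/
noncomputable def VV (U w : Euc d → ℝ) (a β κ C a₀ : ℝ) (z : St d) : ℝ :=
  Real.exp (a * w z.1) * (1 + β * psi κ C ‖z.2‖ (sl U w z)) + Real.exp (a₀ * ‖z.2‖)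

lemma sl_bound (h : Pot U w M C₀ c₁ C₁ w₀) (z : St d) : |sl U w z| ≤ C₁ * ‖z.2‖ := by
  have hw : 0 < 2 * w z.1 := by linarith [h.one_le z.1]
  rw [sl, abs_div, abs_of_pos hw, div_le_iff₀ hw]
  have h1 := abs_real_inner_le_norm z.2 (gradient U z.1)
  have h2 := mul_le_mul_of_nonneg_left (h.up z.1) (norm_nonneg z.2)
  linarith

lemma sl_reflect (U w : Euc d → ℝ) (z : St d) :
    sl U w (z.1, reflect (gradient U z.1) z.2) = -sl U w z := by
  simp only [sl, ← neg_div]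
  congr 1
  by_cases hg : gradient U z.1 = 0
  · simp [hg]
  have h1 : ‖gradient U z.1‖ ≠ 0 := norm_ne_zero_iff.mpr hg
  rw [reflect, inner_sub_left, real_inner_smul_left, real_inner_self_eq_norm_sq]
  field_simp
  ring

lemma continuous_VV (h : Pot U w M C₀ c₁ C₁ w₀) (a β κ C a₀ : ℝ) :
    Continuous (VV U w a β κ C a₀) := by
  have hw : Continuous fun z : St d => w z.1 := h.contw.comp continuous_fst
  have hs : Continuous (sl U w) :=
    (continuous_snd.inner (h.hess.cont.comp continuous_fst)).div (continuous_const.mul hw)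
      fun z => by linarith [h.one_le z.1]
  have hr := continuous_rho.comp hs
  have hn : Continuous fun z : St d => ‖z.2‖ := continuous_snd.norm
  exact ((continuous_const.mul hw).rexp.mul (continuous_const.add (continuous_const.mul
    ((hr.neg.add hs).add (continuous_const.mul ((continuous_const.mul (hn.pow 2)).add
      ((hn.mul hs).div_const C))))))).add (continuous_const.mul hn).rexp

lemma deriv_sl (h : Pot U w M C₀ c₁ C₁ w₀) (z : St d) :
    ∃ t' : ℝ, HasDerivAt (fun s => sl U w (flow s z)) t' 0 ∧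
      |t'| ≤ (M / 2 + C₁ ^ 2) * ‖z.2‖ ^ 2 / w z.1 := by
  obtain ⟨D, hD, hD'⟩ := h.hess.der2 z.1 z.2 z.2
  have hw : 0 < w z.1 := by linarith [h.one_le z.1]
  have h1 := hD.div ((h.der z.1 z.2).const_mul 2) (by simpa using hw.ne')
  refine ⟨D / (2 * w z.1) - sl U w z ^ 2 / w z.1, h1.congr_deriv ?_, ?_⟩
  · simp only [zero_smul, add_zero, sl]
    field_simp
  · have h2 : sl U w z ^ 2 ≤ (C₁ * ‖z.2‖) ^ 2 := by
      rw [← sq_abs]; exact pow_le_pow_left₀ (abs_nonneg _) (sl_bound h z) 2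
    have h3 : D / (2 * w z.1) - sl U w z ^ 2 / w z.1 = (D / 2 - sl U w z ^ 2) / w z.1 := by
      field_simp
    obtain ⟨d1, d2⟩ := abs_le.mp hD'
    rw [h3, abs_div, abs_of_pos hw]
    refine div_le_div_of_nonneg_right (abs_le.mpr ⟨?_, ?_⟩) hw.le <;>
      nlinarith [sq_nonneg (sl U w z), sq_nonneg (C₁ * ‖z.2‖)]

lemma deriv_VV (h : Pot U w M C₀ c₁ C₁ w₀) (a β κ C a₀ : ℝ) (z : St d) :
    ∃ e t' : ℝ, |e| ≤ 1 ∧ |t'| ≤ (M / 2 + C₁ ^ 2) * ‖z.2‖ ^ 2 / w z.1 ∧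
      HasDerivAt (fun s => VV U w a β κ C a₀ (flow s z))
        (Real.exp (a * w z.1) * (a * sl U w z * (1 + β * psi κ C ‖z.2‖ (sl U w z)) +
          β * ((-e + 1 + κ * (‖z.2‖ / C)) * t'))) 0 := by
  obtain ⟨t', h1, h2⟩ := deriv_sl h z
  obtain ⟨e, h3, h4⟩ := deriv_rho (sl U w z)
  refine ⟨e, t', h4, h2, ?_⟩
  have h5 : HasDerivAt (fun s => rho (sl U w (flow s z))) (e * t') 0 := by
    refine HasDerivAt.comp (0 : ℝ) (h₂ := rho) ?_ h1
    simpa only [flow_zero] using h3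
  have h6 := ((h.der z.1 z.2).const_mul a).exp
  have h7 := ((((h5.neg.add h1).add ((((h1.const_mul ‖z.2‖).div_const C).const_add
    (2 * ‖z.2‖ ^ 2)).const_mul κ)).const_mul β).const_add 1)
  refine ((h6.mul h7).add_const (Real.exp (a₀ * ‖z.2‖))).congr_deriv ?_
  simp only [zero_smul, add_zero, Pi.add_apply, Pi.neg_apply, flow_zero, psi]
  rw [show inner ℝ z.2 (gradient U z.1) / (2 * w z.1) = sl U w z from rfl]
  ring

lemma jump (h : Pot U w M C₀ c₁ C₁ w₀) {a β κ a₀ m₀ : ℝ} (hβ : 0 < β) (hκ : 0 < κ)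
    (h1 : β ≤ 1 / 4) (h2 : β * C₁ ^ 2 ≤ κ)
    (hI : ∀ a : ℝ, Integrable (fun u : Euc d => Real.exp (a * ‖u‖)) (stdGaussian (Euc d)))
    (hm : ∀ g : Euc d, c₁ ≤ ‖g‖ →
      m₀ ≤ ∫ u, (inner ℝ u g) ^ 2 / (1 + (inner ℝ u g) ^ 2) ∂stdGaussian (Euc d)) (x : Euc d) :
    ∃ m J : ℝ, 0 ≤ m ∧ (w₀ ≤ w x → m₀ ≤ m) ∧ 0 ≤ J ∧
      J = Real.exp (a * w x) *
          (1 + β * (-m + 6 * κ * ∫ u, Real.exp (1 * ‖u‖) ∂stdGaussian (Euc d))) +
        ∫ u, Real.exp (a₀ * ‖u‖) ∂stdGaussian (Euc d) ∧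
      ∫⁻ u, ENNReal.ofReal (VV U w a β κ C₁ a₀ (x, u)) ∂stdGaussian (Euc d) ≤
        ENNReal.ofReal J := by
  have hw : 0 < 2 * w x := by linarith [h.one_le x]
  set G : Euc d := (2 * w x)⁻¹ • gradient U x with hG
  have hs : ∀ u, sl U w (x, u) = inner ℝ u G := fun u => by
    rw [hG, real_inner_smul_right, sl, div_eq_inv_mul]
  have i1 : Integrable (fun u : Euc d => rho (inner ℝ u G)) (stdGaussian (Euc d)) :=
    (integrable_const (1 : ℝ)).mono'
      (continuous_rho.comp (continuous_id.inner continuous_const)).aestronglyMeasurable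
      (ae_of_all _ fun u => by rw [Real.norm_of_nonneg (rho_nonneg _)]; exact rho_le_one _)
  have i2 : Integrable (fun u : Euc d => (inner ℝ u G : ℝ)) (stdGaussian (Euc d)) :=
    IsGaussian.integrable_id.inner_const G
  have i3 : ∫ u, (inner ℝ u G : ℝ) ∂stdGaussian (Euc d) = 0 := by
    have := integral_strongDual_stdGaussian (innerSL ℝ G)
    simpa only [coe_innerSL_apply, real_inner_comm G] using this
  set F : Euc d → ℝ := fun u => Real.exp (a * w x) *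
    (1 + β * (-rho (inner ℝ u G) + inner ℝ u G + 6 * κ * Real.exp (1 * ‖u‖))) +
      Real.exp (a₀ * ‖u‖) with hF
  have j0 : Integrable (fun u : Euc d => -rho (inner ℝ u G) + inner ℝ u G)
      (stdGaussian (Euc d)) := i1.neg.add i2
  have j1 : Integrable (fun u : Euc d => -rho (inner ℝ u G) + inner ℝ u G +
      6 * κ * Real.exp (1 * ‖u‖)) (stdGaussian (Euc d)) := j0.add ((hI 1).const_mul (6 * κ))
  have j2 : Integrable (fun u : Euc d => Real.exp (a * w x) * (1 + β * (-rho (inner ℝ u G) +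
      inner ℝ u G + 6 * κ * Real.exp (1 * ‖u‖)))) (stdGaussian (Euc d)) :=
    ((integrable_const (1 : ℝ)).add (j1.const_mul β)).const_mul (Real.exp (a * w x))
  have iF : Integrable F (stdGaussian (Euc d)) := j2.add (hI a₀)
  have le : ∀ u, VV U w a β κ C₁ a₀ (x, u) ≤ F u := fun u => by
    have b1 := (abs_le.mp (cross h.one_le_C₁ (norm_nonneg u) (sl_bound h (x, u)))).2
    have b2 := Real.quadratic_le_exp_of_nonneg (norm_nonneg u)
    have b3 : 2 * ‖u‖ ^ 2 + ‖u‖ * sl U w (x, u) / C₁ ≤ 6 * Real.exp (1 * ‖u‖) := by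
      rw [one_mul]; linarith [norm_nonneg u]
    have b4 := mul_le_mul_of_nonneg_left b3 hκ.le
    simp only [VV, hF, psi, ← hs]
    refine add_le_add (mul_le_mul_of_nonneg_left (add_le_add le_rfl
      (mul_le_mul_of_nonneg_left ?_ hβ.le)) (Real.exp_nonneg _)) le_rfl
    linarith
  have nn : ∀ u, 0 ≤ F u := fun u => by
    have b1 := (psi_bounds hβ hκ h.one_le_C₁ (norm_nonneg u) (sl_bound h (x, u)) h1 h2).1
    refine le_trans ?_ (le u)
    exact add_nonneg (mul_nonneg (Real.exp_nonneg _) (by linarith)) (Real.exp_nonneg _)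
  refine ⟨∫ u, rho (inner ℝ u G) ∂stdGaussian (Euc d), ∫ u, F u ∂stdGaussian (Euc d),
    integral_nonneg fun u => rho_nonneg _, fun hx => hm G ?_, integral_nonneg nn, ?_, ?_⟩
  · rw [hG, norm_smul, norm_inv, Real.norm_of_nonneg hw.le, ← div_eq_inv_mul, le_div_iff₀ hw]
    linarith [h.pl x hx]
  · simp only [hF]
    rw [integral_add j2 (hI a₀), integral_const_mul,
      integral_add (integrable_const _) (j1.const_mul β), integral_const_mul,
      integral_add j0 ((hI 1).const_mul _), integral_add i1.fun_neg i2, integral_neg, i3,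
      integral_const_mul]
    simp
  · rw [ofReal_integral_eq_lintegral_ofReal iF (ae_of_all _ nn)]
    exact lintegral_mono fun u => ENNReal.ofReal_le_ofReal (le u)

theorem bl (h : sMom) : sBL := by
  intro d U w M C₀ c₁ C₁ w₀ γ a₀ hP hγ ha₀
  obtain ⟨hI, hm, -⟩ := h d
  obtain ⟨m₀, hm₀, hm⟩ := hm c₁ hP.c₁_pos
  have hC := hP.one_le_C₁
  have hM := hP.hess.one_le
  have hC0 : 0 < C₁ := by linarith
  set m₂ := ∫ u, Real.exp (1 * ‖u‖) ∂stdGaussian (Euc d) with hm₂e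
  set m₃ := ∫ u, Real.exp (a₀ * ‖u‖) ∂stdGaussian (Euc d) with hm₃e
  have hm₂ : 0 ≤ m₂ := integral_nonneg fun u => Real.exp_nonneg _
  have hm₃ : 0 ≤ m₃ := integral_nonneg fun u => Real.exp_nonneg _
  obtain ⟨κ, hκ, h4⟩ : ∃ κ : ℝ, 0 < κ ∧ 12 * κ * m₂ ≤ m₀ := by
    refine ⟨m₀ / (12 * (m₂ + 1)), by positivity, ?_⟩
    rw [mul_div_assoc', div_mul_eq_mul_div, div_le_iff₀ (by positivity)]
    nlinarith
  have hC₂ : 0 ≤ M / 2 + C₁ ^ 2 := by positivity
  have hC₃ : 0 < M / 2 + C₁ ^ 2 + C₁ := by positivity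
  obtain ⟨β, hβ, h1, h2, h3, h5, h6⟩ : ∃ β : ℝ, 0 < β ∧ β ≤ 1 / 4 ∧ β * C₁ ^ 2 ≤ κ ∧
      3 * γ * β ≤ 1 ∧ 24 * β * (M / 2 + C₁ ^ 2 + C₁) ≤ a₀ ∧ 3 * γ * β * C₁ ≤ a₀ := by
    have e : ∀ A B : ℝ, 0 < B → ∀ᶠ β in nhdsWithin (0 : ℝ) (Ioi 0), β * A ≤ B := fun A B hB =>
      eventually_nhdsWithin_of_eventually_nhds (Filter.Tendsto.eventually_le_const hB
        ((continuous_mul_const A).tendsto' 0 0 (zero_mul A)))
    obtain ⟨β, ⟨⟨⟨⟨a1, a2⟩, a3⟩, a4⟩, a5⟩, a0⟩ := ((((((e 1 (1 / 4) (by norm_num)).and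
      (e (C₁ ^ 2) κ hκ)).and (e (3 * γ) 1 one_pos)).and
      (e (24 * (M / 2 + C₁ ^ 2 + C₁)) a₀ ha₀)).and (e (3 * γ * C₁) a₀ ha₀)).and
      self_mem_nhdsWithin).exists
    exact ⟨β, a0, by linarith, a2, by linarith, by linarith, by linarith⟩
  obtain ⟨c, b, hc, hb, hfin⟩ := final w₀ hγ hβ hκ hC₂ hC₃ hm₀ hm₂ hm₃ ha₀ h3 h4 h5
  obtain ⟨K, hK, hK'⟩ := cubic (A := 2) (B := 4 * (β * κ)) (D := 0) (by norm_num) (by positivity)
    le_rfl ha₀
  have hc0 := continuous_VV hP (3 * γ * β) β κ C₁ a₀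
  have pb := fun z : St d => psi_bounds hβ hκ hC (norm_nonneg z.2) (sl_bound hP z) h1 h2
  have nn : ∀ z, 0 ≤ VV U w (3 * γ * β) β κ C₁ a₀ z := fun z =>
    add_nonneg (mul_nonneg (Real.exp_nonneg _) (by linarith [(pb z).1])) (Real.exp_nonneg _)
  refine ⟨VV U w (3 * γ * β) β κ C₁ a₀, 3 * γ * β, c, b, Real.exp a₀ * K + 1, hc0.measurable,
    by positivity, hc, hb, fun z => ?_, fun z => ?_⟩
  · have hE := Real.exp_pos (3 * γ * β * w z.1)
    have hY := Real.exp_pos (a₀ * ‖z.2‖)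
    have a1 := mul_le_mul_of_nonneg_left (pb z).1 hE.le
    have a2 : 1 + β * psi κ C₁ ‖z.2‖ (sl U w z) ≤ K * Real.exp (a₀ * ‖z.2‖) := by
      linarith [(pb z).2, hK' _ (norm_nonneg z.2)]
    have a3 : Real.exp (3 * γ * β * w z.1) ≤ Real.exp a₀ * Real.exp (a₀ * ‖z.1‖) := by
      rw [← Real.exp_add]
      have b1 := mul_le_mul_of_nonneg_left (hP.grow z.1) (by positivity : 0 ≤ 3 * γ * β)
      have b2 := mul_le_mul_of_nonneg_right h6 (by positivity : 0 ≤ 1 + ‖z.1‖)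
      exact Real.exp_le_exp.mpr (by linarith)
    have a4 := mul_le_mul a3 a2 (by linarith [(pb z).1]) (by positivity)
    have a5 := mul_le_mul_of_nonneg_right (Real.one_le_exp (by positivity : 0 ≤ a₀ * ‖z.1‖)) hY.le
    rw [mul_add, Real.exp_add]
    unfold VV
    exact ⟨by linarith, by linarith, by linarith⟩
  · obtain ⟨e, t', he, ht', hD⟩ := deriv_VV hP (3 * γ * β) β κ C₁ a₀ z
    obtain ⟨m, J, q0, q1, q2, q3, q4⟩ :=
      jump (a := 3 * γ * β) (a₀ := a₀) hP hβ hκ h1 h2 hI hm z.1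
    have s0 : 0 ≤ max (inner ℝ z.2 (gradient U z.1) : ℝ) 0 := le_max_right _ _
    have s1 := mul_nonneg s0 (nn (z.1, reflect (gradient U z.1) z.2))
    have mV : Measurable fun z => ENNReal.ofReal (VV U w (3 * γ * β) β κ C₁ a₀ z) :=
      ENNReal.measurable_ofReal.comp hc0.measurable
    refine ⟨_, max (inner ℝ z.2 (gradient U z.1)) 0 *
      VV U w (3 * γ * β) β κ C₁ a₀ (z.1, reflect (gradient U z.1) z.2) + γ * J, hD,
      by positivity, ?_, ?_⟩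
    · rw [bps, lintegral_add_measure, lintegral_smul_measure, lintegral_smul_measure,
        lintegral_dirac' _ mV, lintegral_map mV measurable_prodMk_left,
        ENNReal.ofReal_add s1 (by positivity), ENNReal.ofReal_mul s0, ENNReal.ofReal_mul hγ.le,
        smul_eq_mul, smul_eq_mul]
      gcongr
    · have hw := hP.one_le z.1
      have k1 := core hγ hβ hκ hC hw (norm_nonneg z.2) (sl_bound hP z) ht' he h1 h2 h3
      have k2 := hfin (w z.1) ‖z.2‖ m _ hw (norm_nonneg _) q0 q1 (pb z).2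
      have k3 := mul_le_mul_of_nonneg_left k1
        (mul_pos (Real.exp_pos (3 * γ * β * w z.1)) hβ).le
      have k4 : 2 * w z.1 * sl U w z = inner ℝ z.2 (gradient U z.1) := by
        rw [sl]; field_simp
      rw [k4] at k3
      simp only [rB, VV, sl_reflect, norm_reflect, q3]
      linarith

end Pool.Agent.Lib.MP_2024f4_pr.TR.BL
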