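import Mathlib
import Pool.Agent.Lib.MP_2024f4_pr.TR.St

set_option autoImplicit false

open MeasureTheory ProbabilityTheory Set
open scoped ENNReal

namespace Pool.Agent.Lib.MP_2024f4_pr.TR.BM

variable {d : ℕ}

lemma le_of_lint {E : Type} [MeasurableSpace E] {p q : Measure E}
    (h : ∀ g : E → ℝ≥0∞, Measurable g → ∫⁻ w, g w ∂p ≤ ∫⁻ w, g w ∂q) : p ≤ q := by
  refine Measure.le_iff.2 fun A hA => ?_
  have := h (A.indicator 1) (measurable_one.indicator hA)
  rwa [lintegral_indicator_one hA, lintegral_indicator_one hA] at this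

/-- a measurable family of images of restrictions of a fixed measure -/
lemma exists_family {A Q B : Type} [MeasurableSpace A] [MeasurableSpace Q] [MeasurableSpace B]
    (m : Measure Q) [SFinite m] {E : Set (A × Q)} (hE : MeasurableSet E) {f : A × Q → B}
    (hf : Measurable f) : ∃ R : A → Measure B, Measurable R ∧ ∀ z (g : B → ℝ≥0∞), Measurable g →
      ∫⁻ w, g w ∂(R z) = ∫⁻ q, E.indicator (fun p => g (f p)) (z, q) ∂m := by
  have key : ∀ z (g : B → ℝ≥0∞), Measurable g →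
      ∫⁻ w, g w ∂(m.restrict (Prod.mk z ⁻¹' E)).map (fun q => f (z, q)) =
        ∫⁻ q, E.indicator (fun p => g (f p)) (z, q) ∂m := fun z g hg => by
    have hz : Measurable fun q => f (z, q) := hf.comp measurable_prodMk_left
    rw [lintegral_map hg hz, ← lintegral_indicator (measurable_prodMk_left hE)]
    rfl
  refine ⟨fun z => (m.restrict (Prod.mk z ⁻¹' E)).map (fun q => f (z, q)), ?_, key⟩
  refine Measure.measurable_of_measurable_coe _ fun S hS => ?_
  simp only [← lintegral_indicator_one hS, key _ _ (measurable_one.indicator hS)]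
  exact (((measurable_one.indicator hS).comp hf).indicator hE).lintegral_prod_right'

lemma lint_scale {s : ℝ} (hs : 0 < s) (c : Euc d) {h : Euc d → ℝ≥0∞} (hh : Measurable h) :
    ∫⁻ w, h (c + s • w) = ENNReal.ofReal (s ^ d)⁻¹ * ∫⁻ y, h y := by
  have h1 := lintegral_map (μ := (volume : Measure (Euc d))) (f := fun y => h (c + y))
    (g := fun w => s • w) (hh.comp (measurable_const_add c)) (measurable_const_smul s)
  rw [← h1, Measure.map_addHaar_smul _ hs.ne', lintegral_smul_measure,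
    lintegral_add_left_eq_self, finrank_euclideanSpace_fin, abs_of_pos (by positivity),
    smul_eq_mul]

/-- the integral over the paths with two refreshments -/
noncomputable def J (z : St d) (D : Set (Euc d)) (g : St d → ℝ≥0∞) : ℝ≥0∞ :=
  ∫⁻ s₁ in Ioo (0 : ℝ) (1 / 3), ∫⁻ s in Ioo (1 / 3 : ℝ) (2 / 3), ∫⁻ w₂ in D,
    (∫⁻ w₁ in D, g (pt z s₁ s w₁ w₂) ∂stdGaussian (Euc d)) ∂stdGaussian (Euc d)

lemma J_eq (z : St d) (D : Set (Euc d)) {g : St d → ℝ≥0∞} (hg : Measurable g) :
    ∫⁻ s₁ in Ioo (0 : ℝ) (1 / 3), ∫⁻ w₁ in D, (∫⁻ s in Ioo (1 / 3 : ℝ) (2 / 3),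
      ∫⁻ w₂ in D, g (pt z s₁ s w₁ w₂) ∂stdGaussian (Euc d)) ∂stdGaussian (Euc d) = J z D g := by
  refine lintegral_congr fun s₁ => ?_
  have h1 : Measurable fun p : (Euc d × ℝ) × Euc d => g (pt z s₁ p.1.2 p.1.1 p.2) :=
    hg.comp (by unfold pt; fun_prop)
  rw [lintegral_lintegral_swap h1.lintegral_prod_right'.aemeasurable]
  refine lintegral_congr fun s => ?_
  have h2 : Measurable fun p : Euc d × Euc d => g (pt z s₁ s p.1 p.2) :=
    hg.comp (by unfold pt; fun_prop)
  exact lintegral_lintegral_swap h2.aemeasurable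

lemma pt_eq (z : St d) (s₁ s : ℝ) (w₁ w₂ : Euc d) :
    pt z s₁ s w₁ w₂ = (z.1 + s₁ • z.2 + (1 - s₁ - s) • w₂ + s • w₁, w₂) := by
  rw [pt, add_right_comm]

lemma time_le {F : ℝ → ℝ → ℝ≥0∞} {C : ℝ≥0∞}
    (h : ∀ s₁ ∈ Ioo (0 : ℝ) (1 / 3), ∀ s ∈ Ioo (1 / 3 : ℝ) (2 / 3), F s₁ s ≤ C) :
    ∫⁻ s₁ in Ioo (0 : ℝ) (1 / 3), ∫⁻ s in Ioo (1 / 3 : ℝ) (2 / 3), F s₁ s ≤ C := by
  have h1 : ∀ a b : ℝ, b - a ≤ 1 → ∀ G : ℝ → ℝ≥0∞, (∀ s ∈ Ioo a b, G s ≤ C) →
      ∫⁻ s in Ioo a b, G s ≤ C := fun a b hab G hG => by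
    refine (setLIntegral_mono' measurableSet_Ioo hG).trans ?_
    rw [setLIntegral_const, Real.volume_Ioo]
    exact mul_le_of_le_one_right' (ENNReal.ofReal_le_one.2 hab)
  exact h1 _ _ (by norm_num) _ fun s₁ hs₁ => h1 _ _ (by norm_num) _ (h s₁ hs₁)

lemma le_time {F : ℝ → ℝ → ℝ≥0∞} {C : ℝ≥0∞}
    (h : ∀ s₁ ∈ Ioo (0 : ℝ) (1 / 3), ∀ s ∈ Ioo (1 / 3 : ℝ) (2 / 3), C ≤ F s₁ s) :
    ENNReal.ofReal (1 / 9) * C ≤
      ∫⁻ s₁ in Ioo (0 : ℝ) (1 / 3), ∫⁻ s in Ioo (1 / 3 : ℝ) (2 / 3), F s₁ s := by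
  have h1 : ∀ a b : ℝ, b - a = 1 / 3 → ∀ (C : ℝ≥0∞) (G : ℝ → ℝ≥0∞), (∀ s ∈ Ioo a b, C ≤ G s) →
      ENNReal.ofReal (1 / 3) * C ≤ ∫⁻ s in Ioo a b, G s := fun a b hab C G hG => by
    refine le_trans (le_of_eq ?_) (setLIntegral_mono' measurableSet_Ioo hG)
    rw [setLIntegral_const, Real.volume_Ioo, hab, mul_comm]
  have h2 := h1 0 (1 / 3) (by norm_num) _ _ fun s₁ hs₁ =>
    h1 (1 / 3) (2 / 3) (by norm_num) _ _ (h s₁ hs₁)
  rwa [← mul_assoc, ← ENNReal.ofReal_mul (by norm_num), show (1 / 3 * (1 / 3) : ℝ) = 1 / 9 by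
    norm_num] at h2

lemma J_upper {K : ℝ} (hK0 : 0 ≤ K)
    (hK : stdGaussian (Euc d) ≤ ENNReal.ofReal K • (volume : Measure (Euc d))) (z : St d)
    (D : Set (Euc d)) {g : St d → ℝ≥0∞} (hg : Measurable g) :
    J z D g ≤ ENNReal.ofReal (K * 3 ^ d) *
      ∫⁻ u, g u ∂(volume : Measure (Euc d)).prod (stdGaussian (Euc d)) := by
  refine time_le fun s₁ _ s hs => ?_
  have hs0 : 0 < s := lt_trans (by norm_num) hs.1
  rw [lintegral_prod_symm' _ hg, ← lintegral_const_mul _ hg.lintegral_prod_left']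
  refine (setLIntegral_le_lintegral _ _).trans (lintegral_mono fun w₂ => ?_)
  refine (setLIntegral_le_lintegral _ _).trans ((lintegral_mono' hK le_rfl).trans ?_)
  have hm : Measurable fun y : Euc d => g (y, w₂) := hg.comp measurable_prodMk_right
  simp only [pt_eq]
  rw [lintegral_smul_measure, lint_scale hs0 _ hm, smul_eq_mul, ← mul_assoc,
    ← ENNReal.ofReal_mul hK0]
  refine mul_le_mul_left (ENNReal.ofReal_le_ofReal (mul_le_mul_of_nonneg_left ?_ hK0)) _
  rw [← inv_pow]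
  refine pow_le_pow_left₀ (by positivity) ?_ d
  rw [inv_le_comm₀ hs0 (by norm_num)]
  linarith [hs.1]

lemma J_mass (z : St d) {D : Set (Euc d)} {m : ℝ} (hm : 0 ≤ m)
    (h : ENNReal.ofReal m ≤ stdGaussian (Euc d) D) :
    ENNReal.ofReal (m ^ 2 / 9) ≤ J z D fun _ => 1 := by
  refine le_trans (le_of_eq ?_) (le_time (C := ENNReal.ofReal m * ENNReal.ofReal m)
    fun s₁ _ s _ => ?_)
  · rw [← ENNReal.ofReal_mul hm, ← ENNReal.ofReal_mul (by norm_num)]
    congr 1
    ring
  · rw [setLIntegral_const, setLIntegral_const, one_mul]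
    exact mul_le_mul' h h

lemma J_lower {ρ ε : ℝ} (hρ : 0 ≤ ρ)
    (hε : ENNReal.ofReal ε • (volume : Measure (Euc d)).restrict
      (Metric.closedBall 0 (6 * ρ + 6)) ≤ stdGaussian (Euc d)) {z : St d} (h1 : ‖z.1‖ ≤ ρ)
    (h2 : ‖z.2‖ ≤ ρ) {g : St d → ℝ≥0∞} (hg : Measurable g) :
    ENNReal.ofReal (1 / 9) * (ENNReal.ofReal ε *
      ∫⁻ u, g u ∂((volume : Measure (Euc d)).restrict (Metric.closedBall 0 1)).prod
        ((stdGaussian (Euc d)).restrict (Metric.closedBall 0 1))) ≤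
      J z (Metric.closedBall 0 (6 * ρ + 6)) g := by
  refine le_time fun s₁ hs₁ s hs => ?_
  have hs0 : 0 < s := lt_trans (by norm_num) hs.1
  have hB : ∀ r : ℝ, MeasurableSet (Metric.closedBall (0 : Euc d) r) := fun r =>
    measurableSet_closedBall
  rw [lintegral_prod_symm' _ hg, ← lintegral_const_mul _ hg.lintegral_prod_left']
  refine le_trans (setLIntegral_mono' (hB 1) fun w₂ hw₂ => ?_)
    (lintegral_mono_set (Metric.closedBall_subset_closedBall (by linarith)))
  have h3 := Measure.restrict_mono (s := Metric.closedBall (0 : Euc d) (6 * ρ + 6)) le_rfl hε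
  rw [Measure.restrict_smul, Measure.restrict_restrict (hB _), inter_self] at h3
  refine le_trans ?_ (lintegral_mono' h3 le_rfl)
  rw [lintegral_smul_measure, smul_eq_mul]
  refine mul_le_mul_right ?_ _
  have hm : Measurable fun y : Euc d => g (y, w₂) := hg.comp measurable_prodMk_right
  simp only [pt_eq]
  set c := z.1 + s₁ • z.2 + (1 - s₁ - s) • w₂ with hc
  have h4 := lint_scale hs0 c (hm.indicator (hB 1))
  have h5 : (1 : ℝ≥0∞) ≤ ENNReal.ofReal (s ^ d)⁻¹ :=
    ENNReal.one_le_ofReal.2 ((one_le_inv₀ (by positivity)).2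
      (pow_le_one₀ hs0.le (by linarith [hs.2])))
  rw [← lintegral_indicator (hB 1), ← lintegral_indicator (hB _)]
  refine (le_mul_of_one_le_left' h5).trans (h4.symm.le.trans (lintegral_mono fun w₁ => ?_))
  by_cases h6 : c + s • w₁ ∈ Metric.closedBall (0 : Euc d) 1
  · have h7 : w₁ ∈ Metric.closedBall (0 : Euc d) (6 * ρ + 6) := by
      rw [mem_closedBall_zero_iff] at h6 hw₂ ⊢
      have a1 : ‖s₁ • z.2‖ ≤ ρ := by
        rw [norm_smul, Real.norm_of_nonneg hs₁.1.le]
        nlinarith [hs₁.1, hs₁.2, norm_nonneg z.2]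
      have a2 : ‖(1 - s₁ - s) • w₂‖ ≤ 1 := by
        rw [norm_smul, Real.norm_of_nonneg (by linarith [hs₁.2, hs.2])]
        nlinarith [hs₁.1, hs₁.2, hs.1, hs.2, norm_nonneg w₂]
      have a3 : ‖c‖ ≤ 2 * ρ + 1 := by
        have := norm_add₃_le (a := z.1) (b := s₁ • z.2) (c := (1 - s₁ - s) • w₂)
        linarith
      have a4 : ‖s • w₁‖ ≤ 2 * ρ + 2 := by
        have := norm_sub_le (c + s • w₁) c
        rw [add_sub_cancel_left] at this
        linarith
      rw [norm_smul, Real.norm_of_nonneg hs0.le] at a4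
      nlinarith [hs.1, norm_nonneg w₁]
    simp only [indicator_of_mem h6, indicator_of_mem h7, le_refl]
  · simp only [indicator_of_notMem h6, zero_le]

theorem bm (h1 : sBD) (h2 : sDens) : sBM := by
  intro d U γ ρ₀ hU hγ
  obtain ⟨ρ, hρ, hρ₀⟩ : ∃ ρ : ℝ, 0 ≤ ρ ∧ ρ₀ ≤ ρ := ⟨max ρ₀ 0, le_max_right _ _, le_max_left _ _⟩
  obtain ⟨ε, hε, hεl⟩ := (h2 d).2.2.2 (6 * ρ + 6)
  obtain ⟨C, hC⟩ := (isCompact_closedBall (0 : Euc d) (8 * ρ + 6)).exists_bound_of_continuousOn
    hU.continuous_gradient.continuousOn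
  have hC0 : 0 ≤ C := (norm_nonneg _).trans (hC 0 (Metric.mem_closedBall_self (by linarith)))
  have hB : ∀ r : ℝ, MeasurableSet (Metric.closedBall (0 : Euc d) r) := fun r =>
    measurableSet_closedBall
  set L := (6 * ρ + 6) * C + γ with hL
  have hr : ∀ y u : Euc d, ‖y‖ ≤ 8 * ρ + 6 → ‖u‖ ≤ 6 * ρ + 6 → rB U γ (y, u) ≤ L :=
    fun y u hy hu => by
      refine add_le_add_left (max_le ((real_inner_le_norm _ _).trans ?_) (by positivity)) _
      exact mul_le_mul hu (hC y (mem_closedBall_zero_iff.2 hy)) (norm_nonneg _) (by positivity)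
  refine ⟨(ENNReal.ofReal (γ ^ 2 * Real.exp (-L)) * (ENNReal.ofReal (1 / 9) * ENNReal.ofReal ε)) •
    ((volume : Measure (Euc d)).restrict (Metric.closedBall 0 1)).prod
      ((stdGaussian (Euc d)).restrict (Metric.closedBall 0 1)), ?_, fun z hz1 hz2 => ?_⟩
  · have hv : (volume : Measure (Euc d)) (Metric.closedBall 0 1) ≠ 0 :=
      (Metric.measure_closedBall_pos _ _ one_pos).ne'
    have hp : ∀ x : ℝ, 0 < x → ENNReal.ofReal x ≠ 0 := fun x hx => (ENNReal.ofReal_pos.2 hx).ne'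
    rw [Measure.smul_apply, smul_eq_mul, ← univ_prod_univ, Measure.prod_prod,
      Measure.restrict_apply_univ, Measure.restrict_apply_univ]
    refine mul_ne_zero (mul_ne_zero (hp _ (by positivity))
      (mul_ne_zero (hp _ (by norm_num)) (hp _ hε))) (mul_ne_zero hv fun e => ?_)
    have := Measure.le_iff.1 hεl _ (hB 1)
    rw [e, Measure.smul_apply, smul_eq_mul, Measure.restrict_apply (hB 1),
      inter_eq_left.2 (Metric.closedBall_subset_closedBall (by linarith)), le_zero_iff] at this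
    exact mul_ne_zero (hp _ hε) hv this
  · refine le_of_lint fun g hg => ?_
    have a1 := hz1.trans hρ₀
    have a2 := hz2.trans hρ₀
    have h3 := h1 d U γ L (6 * ρ + 6) z (Metric.closedBall 0 (6 * ρ + 6)) g hU hγ (by positivity)
      (by positivity) (hB _) hg (fun u hu => mem_closedBall_zero_iff.1 hu) fun y hy => by
        have hy' : ‖y‖ ≤ 8 * ρ + 6 := by
          have := norm_add_le (y - z.1) z.1
          rw [sub_add_cancel] at this
          linarith
        exact ⟨hr y z.2 hy' (by linarith), fun u hu => hr y u hy' (mem_closedBall_zero_iff.1 hu)⟩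
    rw [J_eq z _ hg] at h3
    refine le_trans ?_ h3
    rw [lintegral_smul_measure, smul_eq_mul, mul_assoc, mul_assoc]
    exact mul_le_mul_right (J_lower hρ hεl a1 a2 hg) _

/-- short downhill velocities -/
def Dz (U : Euc d → ℝ) (z : St d) : Set (Euc d) :=
  {u | ‖u‖ ≤ 1 ∧ inner ℝ u (gradient U z.1) ≤ 0}

lemma meas_Dz {U : Euc d → ℝ} (hU : Continuous (gradient U)) :
    MeasurableSet {p : St d × Euc d | p.2 ∈ Dz U p.1} :=
  ((isClosed_le (f := fun p : St d × Euc d => ‖p.2‖) (by fun_prop) continuous_const).inter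
    (isClosed_le (f := fun p : St d × Euc d => inner ℝ p.2 (gradient U p.1.1)) (by fun_prop)
      continuous_const)).measurableSet

lemma exists_R {U : Euc d → ℝ} (hU : Continuous (gradient U)) :
    ∃ R : St d → Measure (St d), Measurable R ∧ ∀ z (g : St d → ℝ≥0∞), Measurable g →
      ∫⁻ w, g w ∂(R z) = J z (Dz U z) g := by
  have hD := meas_Dz hU
  have hE : MeasurableSet {p : St d × ℝ × ℝ × Euc d × Euc d |
      p.2.2.2.1 ∈ Dz U p.1 ∧ p.2.2.2.2 ∈ Dz U p.1} :=
    (hD.preimage (f := fun p : St d × ℝ × ℝ × Euc d × Euc d => (p.1, p.2.2.2.1))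
      (by fun_prop)).inter
      (hD.preimage (f := fun p : St d × ℝ × ℝ × Euc d × Euc d => (p.1, p.2.2.2.2)) (by fun_prop))
  have hf : Measurable fun p : St d × ℝ × ℝ × Euc d × Euc d =>
      pt p.1 p.2.1 p.2.2.1 p.2.2.2.2 p.2.2.2.1 := by unfold pt; fun_prop
  obtain ⟨R, hR, e⟩ := exists_family ((volume.restrict (Ioo (0 : ℝ) (1 / 3))).prod
    ((volume.restrict (Ioo (1 / 3 : ℝ) (2 / 3))).prod
      ((stdGaussian (Euc d)).prod (stdGaussian (Euc d))))) hE hf
  refine ⟨R, hR, fun z g hg => ?_⟩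
  have hz : MeasurableSet (Dz U z) := measurable_prodMk_left hD
  have hm := ((hg.comp hf).indicator hE).comp (measurable_prodMk_left (x := z))
  rw [e z g hg]
  refine (lintegral_prod _ hm.aemeasurable).trans (lintegral_congr fun s₁ => ?_)
  have hm1 := hm.comp (measurable_prodMk_left (x := s₁))
  refine (lintegral_prod _ hm1.aemeasurable).trans (lintegral_congr fun s => ?_)
  have hm2 := hm1.comp (measurable_prodMk_left (x := s))
  refine (lintegral_prod _ hm2.aemeasurable).trans ?_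
  rw [← lintegral_indicator hz]
  refine lintegral_congr fun w₂ => ?_
  by_cases h2 : w₂ ∈ Dz U z
  · rw [indicator_of_mem h2, ← lintegral_indicator hz]
    refine lintegral_congr fun w₁ => ?_
    by_cases h1 : w₁ ∈ Dz U z <;> simp [indicator, h1, h2]
  · simp [indicator, h2]

theorem br (h1 : sBG) (h2 : sBD) (h3 : sDens) (h4 : sMom) : sBR := by
  intro d U w M C₀ c₁ C₁ w₀ γ a V hU hP hγ ha hV
  have hH := hP.hess
  have hM : 0 ≤ M := zero_le_one.trans hH.one_le
  obtain ⟨A, T, hA, hT, hG⟩ := h1 d U M γ hU hH hγ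
  obtain ⟨hZ, -, ⟨K, hK0, hK⟩, -⟩ := h3 d
  obtain ⟨Z, hZ0, hZ⟩ := hZ U hU
  obtain ⟨-, -, m, hm0, hm⟩ := h4 d
  obtain ⟨R, hR, e⟩ := exists_R hH.cont
  set L := A + (A + 1) * (M * (A + 1)) + γ with hL
  set c := γ ^ 2 * Real.exp (-L) with hc
  have hc0 : 0 < c := by positivity
  set κ := c * (K * 3 ^ d) * Z with hκ
  have hκ0 : 0 < κ := by positivity
  have hcU := hP.contU
  have hcg := hH.cont
  refine ⟨T, 1, min (1 / 2) (c * (m ^ 2 / 9)), |Real.log κ - C₀| + (a ^ 2)⁻¹, GB U A,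
    fun z => ENNReal.ofReal c • R z, fun z => κ * Real.exp (U z.1), hT, zero_le_one,
    by positivity, ?_, ?_, by fun_prop,
    fun z _ => (ENNReal.ofReal_le_ofReal (min_le_left _ _)).trans (hG z), fun z hz => ⟨?_, ?_, ?_⟩,
    fun z => by positivity, fun z _ => ?_⟩
  · exact ((isClosed_le (f := fun z : St d => ‖z.2‖) (by fun_prop) continuous_const).inter
      (isClosed_le (f := fun z : St d => inner ℝ z.2 (gradient U z.1)) (by fun_prop)
        continuous_const)).measurableSet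
  · refine Measure.measurable_of_measurable_coe _ fun S hS => ?_
    simp only [Measure.smul_apply, smul_eq_mul]
    exact ((Measure.measurable_coe hS).comp hR).const_mul _
  · refine (ENNReal.ofReal_le_ofReal (min_le_right _ _)).trans ?_
    rw [Measure.smul_apply, smul_eq_mul, ENNReal.ofReal_mul hc0.le, ← lintegral_one,
      e z _ measurable_const]
    exact mul_le_mul_right (J_mass z hm0.le (hm _)) _
  · refine le_of_lint fun g hg => ?_
    have hz' : MeasurableSet (Dz U z) := measurable_prodMk_left (meas_Dz hH.cont)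
    have h5 := h2 d U γ L 1 z (Dz U z) g hU hγ (by positivity) zero_le_one hz' hg
      (fun u hu => hu.1) fun y hy => by
        have a1 : ‖gradient U y - gradient U z.1‖ ≤ M * (A + 1) :=
          (hH.lip _ _).trans (mul_le_mul_of_nonneg_left (by linarith [hz.1]) hM)
        have a2 : ∀ u : Euc d, ‖u‖ ≤ A + 1 → inner ℝ u (gradient U z.1) ≤ A →
            rB U γ (y, u) ≤ L := fun u b1 b2 => by
          refine add_le_add_left (max_le ?_ (by positivity)) _
          have b3 := real_inner_le_norm u (gradient U y - gradient U z.1)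
          have b4 := mul_le_mul b1 a1 (norm_nonneg _) (by positivity)
          rw [inner_sub_right] at b3
          show inner ℝ u (gradient U y) ≤ _
          linarith
        exact ⟨a2 z.2 (by linarith [hz.1]) hz.2,
          fun u hu => a2 u (by linarith [hu.1]) (hu.2.trans hA)⟩
    rwa [J_eq z _ hg, ← e z g hg, ← smul_eq_mul, ← lintegral_smul_measure] at h5
  · refine le_of_lint fun g hg => ?_
    have hm1 : Measurable fun u : St d => ENNReal.ofReal (Z * Real.exp (U u.1)) := by fun_prop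
    have hm2 : Measurable fun u : St d => ENNReal.ofReal (κ * Real.exp (U u.1)) := by fun_prop
    rw [lintegral_smul_measure, smul_eq_mul, e z g hg]
    refine (mul_le_mul_right (J_upper hK0.le hK z _ hg) _).trans (le_of_eq ?_)
    rw [hZ _ inferInstance, lintegral_withDensity_eq_lintegral_mul _ hm1 hg,
      lintegral_withDensity_eq_lintegral_mul _ hm2 hg, ← mul_assoc, ← ENNReal.ofReal_mul hc0.le,
      ← lintegral_const_mul _ (hm1.mul hg)]
    refine lintegral_congr fun u => ?_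
    simp only [Pi.mul_apply]
    rw [← mul_assoc, ← ENNReal.ofReal_mul (by positivity), hκ, ← mul_assoc]
  · have b1 := hV z
    have b2 : 0 < V z := by linarith [Real.exp_pos (a * w z.1)]
    have b3 : 0 ≤ Real.log (1 + V z) := Real.log_nonneg (by linarith)
    have b4 : a * w z.1 ≤ 1 + Real.log (1 + V z) := by
      rw [← Real.exp_le_exp, Real.exp_add, Real.exp_log (by linarith)]
      have := Real.add_one_le_exp 1
      nlinarith
    have b5 : 0 ≤ a * w z.1 := mul_nonneg ha.le (zero_le_one.trans (hP.one_le _))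
    have b6 : w z.1 ^ 2 ≤ (a ^ 2)⁻¹ * (1 + Real.log (1 + V z)) ^ 2 := by
      rw [le_inv_mul_iff₀ (by positivity), ← mul_pow]
      exact pow_le_pow_left₀ b5 b4 2
    have b7 : 1 ≤ (1 + Real.log (1 + V z)) ^ 2 := one_le_pow₀ (by linarith)
    have b8 := le_abs_self (Real.log κ - C₀)
    have b9 := mul_le_mul_of_nonneg_left b7 (abs_nonneg (Real.log κ - C₀))
    have b10 := hP.sq z.1
    show Real.log (κ * Real.exp (U z.1)) ≤ _
    rw [Real.log_mul hκ0.ne' (Real.exp_pos _).ne', Real.log_exp]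
    linarith

end Pool.Agent.Lib.MP_2024f4_pr.TR.BM
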