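import Mathlib
import Pool.Agent.Lib.MP_2024f4_pr.TR.St

set_option autoImplicit false

open MeasureTheory ProbabilityTheory Set
open scoped ENNReal

namespace Pool.Agent.Lib.MP_2024f4_pr.TR.Dens

/-- product of standard Gaussians as a density -/
lemma pi_gauss (d : ℕ) :
    (Measure.pi fun _ : Fin d => gaussianReal 0 1) =
      (volume : Measure (Fin d → ℝ)).withDensity
        fun x => ENNReal.ofReal (∏ i, gaussianPDFReal 0 1 (x i)) := by
  refine Measure.pi_eq fun s hs => ?_
  rw [withDensity_apply _ (MeasurableSet.univ_pi hs), volume_pi, Measure.restrict_pi_pi,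
    ← ofReal_integral_eq_lintegral_ofReal, integral_fintype_prod_eq_prod
      (f := fun _ x => gaussianPDFReal 0 1 x), ENNReal.ofReal_prod_of_nonneg]
  · refine Finset.prod_congr rfl fun i _ => ?_
    rw [gaussianReal_apply_eq_integral _ one_ne_zero]
  · exact fun i _ => integral_nonneg fun x => gaussianPDFReal_nonneg _ _ _
  · exact Integrable.fintype_prod (f := fun _ x => gaussianPDFReal 0 1 x)
      fun i => (integrable_gaussianPDFReal 0 1).restrict
  · exact ae_of_all _ fun x => Finset.prod_nonneg fun i _ => gaussianPDFReal_nonneg _ _ _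

/-- normalising constant -/
noncomputable def kk (d : ℕ) : ℝ := ((√(2 * Real.pi))⁻¹) ^ d

lemma kk_pos (d : ℕ) : 0 < kk d := by
  have := Real.pi_pos
  unfold kk; positivity

lemma prod_pdf {d : ℕ} (w : Euc d) :
    ∏ i, gaussianPDFReal 0 1 (w i) = kk d * Real.exp (-‖w‖ ^ 2 / 2) := by
  simp only [gaussianPDFReal, NNReal.coe_one, mul_one, sub_zero]
  rw [Finset.prod_mul_distrib, ← Real.exp_sum, EuclideanSpace.real_norm_sq_eq]
  simp [kk, Finset.sum_div, neg_div]

/-- density of the standard Gaussian -/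
lemma gauss_eq (d : ℕ) : stdGaussian (Euc d) =
    (volume : Measure (Euc d)).withDensity
      fun w => ENNReal.ofReal (kk d * Real.exp (-‖w‖ ^ 2 / 2)) := by
  have hm : Measurable fun w : Euc d => ENNReal.ofReal (kk d * Real.exp (-‖w‖ ^ 2 / 2)) := by
    fun_prop
  have hp := PiLp.volume_preserving_toLp (Fin d)
  rw [← map_pi_eq_stdGaussian, pi_gauss]
  ext s hs
  rw [Measure.map_apply hp.measurable hs, withDensity_apply _ (hp.measurable hs),
    withDensity_apply _ hs, ← hp.setLIntegral_comp_preimage hs hm]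
  refine lintegral_congr fun x => ?_
  rw [← prod_pdf]

lemma gauss_le (d : ℕ) :
    stdGaussian (Euc d) ≤ ENNReal.ofReal (kk d) • (volume : Measure (Euc d)) := by
  rw [gauss_eq, ← withDensity_const]
  refine withDensity_mono (ae_of_all _ fun w => ENNReal.ofReal_le_ofReal ?_)
  have h1 : Real.exp (-‖w‖ ^ 2 / 2) ≤ 1 := Real.exp_le_one_iff.mpr (by nlinarith [sq_nonneg ‖w‖])
  exact mul_le_of_le_one_right (kk_pos d).le h1

lemma le_gauss (d : ℕ) (ρ : ℝ) :
    ENNReal.ofReal (kk d * Real.exp (-ρ ^ 2 / 2)) •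
      (volume : Measure (Euc d)).restrict (Metric.closedBall 0 ρ) ≤ stdGaussian (Euc d) := by
  refine Measure.le_iff.mpr fun A hA => ?_
  have hB : MeasurableSet (A ∩ Metric.closedBall (0 : Euc d) ρ) :=
    hA.inter measurableSet_closedBall
  rw [gauss_eq, withDensity_apply _ hA, Measure.smul_apply, Measure.restrict_apply hA,
    smul_eq_mul, ← setLIntegral_const]
  refine le_trans (setLIntegral_mono' hB fun w hw => ENNReal.ofReal_le_ofReal ?_)
    (lintegral_mono_set inter_subset_left)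
  have h1 : ‖w‖ ≤ ρ := by simpa using hw.2
  have h2 : ‖w‖ ^ 2 ≤ ρ ^ 2 := pow_le_pow_left₀ (norm_nonneg _) h1 2
  exact mul_le_mul_of_nonneg_left (Real.exp_le_exp.mpr (by linarith)) (kk_pos d).le

lemma vol_eq {d : ℕ} {U : Euc d → ℝ} (hU : Standing U) :
    0 < ∫ x, Real.exp (-U x) ∧ (volume : Measure (Euc d)) = (target U).withDensity
      fun x => ENNReal.ofReal ((∫ x, Real.exp (-U x)) * Real.exp (U x)) := by
  have hZ : 0 < ∫ x, Real.exp (-U x) := integral_exp_pos hU.2.1
  have hc : Continuous U := hU.1.continuous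
  refine ⟨hZ, ?_⟩
  rw [target, Measure.tilted, ← withDensity_mul _ (by fun_prop) (by fun_prop)]
  refine Eq.trans withDensity_one.symm (congrArg _ (funext fun x => ?_))
  rw [Pi.mul_apply, ← ENNReal.ofReal_mul (by positivity), Pi.one_apply, ← ENNReal.ofReal_one]
  congr 1
  rw [Real.exp_neg]
  field_simp

lemma dirac_le (d : ℕ) : ∃ K : ℝ, 0 < K ∧ ∀ v : Euc d, (∀ i, v i = 1 ∨ v i = -1) →
    Measure.dirac v ≤ ENNReal.ofReal K • signs d := by
  set S : Set (Euc d) := {v | ∀ i, v i = 1 ∨ v i = -1} with hS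
  have hfin : S.Finite := by
    have h1 : (Set.pi univ fun _ : Fin d => ({1, -1} : Set ℝ)).Finite :=
      Set.Finite.pi fun _ => Set.toFinite _
    exact (h1.image (WithLp.toLp 2)).subset fun v hv => ⟨v.ofLp, fun i _ => hv i, rfl⟩
  have hne : S.Nonempty := ⟨WithLp.toLp 2 (fun _ => 1), fun i => Or.inl rfl⟩
  have h0 : Measure.count S ≠ 0 := Measure.count_ne_zero hne
  have ht : Measure.count S ≠ ∞ := (Measure.count_apply_lt_top.mpr hfin).ne
  refine ⟨(Measure.count S).toReal, ENNReal.toReal_pos h0 ht, fun v hv => ?_⟩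
  refine Measure.le_iff.mpr fun A hA => ?_
  rw [ENNReal.ofReal_toReal ht, signs, ← hS, uniformOn, Measure.smul_apply,
    cond_apply hfin.measurableSet, smul_eq_mul, ← mul_assoc, ENNReal.mul_inv_cancel h0 ht,
    one_mul, Measure.dirac_apply' _ hA]
  by_cases hvA : v ∈ A
  · rw [indicator_of_mem hvA, Pi.one_apply, ← Measure.count_singleton v]
    exact measure_mono (singleton_subset_iff.mpr ⟨hv, hvA⟩)
  · rw [indicator_of_notMem hvA]; exact zero_le

theorem dens : sDens := by
  intro d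
  refine ⟨fun U hU => ?_, dirac_le d, ⟨kk d, kk_pos d, gauss_le d⟩, fun ρ =>
    ⟨_, mul_pos (kk_pos d) (Real.exp_pos _), le_gauss d ρ⟩⟩
  obtain ⟨hZ, h⟩ := vol_eq hU
  have hc : Continuous U := hU.1.continuous
  have := hU.isProb
  refine ⟨_, hZ, fun ν hν => ?_⟩
  rw [← prod_withDensity_left (μ := target U) (ν := ν)
    (f := fun x => ENNReal.ofReal ((∫ x, Real.exp (-U x)) * Real.exp (U x))) (by fun_prop), ← h]

/-- balls of radius one half near the origin have uniformly positive Gaussian mass -/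
lemma ball_low (d : ℕ) : ∃ m : ℝ, 0 < m ∧ ∀ p : Euc d, ‖p‖ ≤ 1 →
    ENNReal.ofReal m ≤ stdGaussian (Euc d) (Metric.ball p (1 / 2)) := by
  have h0 : (volume : Measure (Euc d)) (Metric.ball 0 (1 / 2)) ≠ 0 :=
    (Metric.measure_ball_pos _ _ (by norm_num)).ne'
  have ht : (volume : Measure (Euc d)) (Metric.ball 0 (1 / 2)) ≠ ∞ := measure_ball_lt_top.ne
  have he : 0 < kk d * Real.exp (-(2 : ℝ) ^ 2 / 2) := mul_pos (kk_pos d) (Real.exp_pos _)
  refine ⟨kk d * Real.exp (-(2 : ℝ) ^ 2 / 2) *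
    ((volume : Measure (Euc d)) (Metric.ball 0 (1 / 2))).toReal,
    mul_pos he (ENNReal.toReal_pos h0 ht), fun p hp => ?_⟩
  refine le_trans (le_of_eq ?_) (Measure.le_iff'.mp (le_gauss d 2) _)
  have hsub : Metric.ball p (1 / 2) ⊆ Metric.closedBall (0 : Euc d) 2 := by
    intro w hw
    rw [mem_ball_iff_norm] at hw
    rw [mem_closedBall_zero_iff]
    have := norm_add_le (w - p) p
    rw [sub_add_cancel] at this
    linarith
  rw [Measure.smul_apply, Measure.restrict_apply measurableSet_ball, inter_eq_left.mpr hsub,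
    Measure.addHaar_ball_center volume p, ENNReal.ofReal_mul he.le, ENNReal.ofReal_toReal ht, smul_eq_mul]

lemma int_exp (d : ℕ) (a : ℝ) :
    Integrable (fun w : Euc d => Real.exp (a * ‖w‖)) (stdGaussian (Euc d)) := by
  obtain ⟨C, hC, hi⟩ := IsGaussian.exists_integrable_exp_sq (stdGaussian (Euc d))
  refine (hi.const_mul (Real.exp (a ^ 2 / (4 * C)))).mono' (by fun_prop)
    (ae_of_all _ fun w => ?_)
  rw [Real.norm_of_nonneg (Real.exp_nonneg _), ← Real.exp_add]
  refine Real.exp_le_exp.mpr ?_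
  have h1 : a ^ 2 / (4 * C) + C * ‖w‖ ^ 2 - a * ‖w‖ = (a - 2 * C * ‖w‖) ^ 2 / (4 * C) := by
    field_simp; ring
  have h2 : 0 ≤ (a - 2 * C * ‖w‖) ^ 2 / (4 * C) := by positivity
  linarith

lemma inner_near {d : ℕ} {p w : Euc d} (g : Euc d) (hw : w ∈ Metric.ball p (1 / 2)) :
    |inner ℝ w g - inner ℝ p g| ≤ ‖g‖ / 2 := by
  rw [mem_ball_iff_norm] at hw
  rw [← inner_sub_left]
  refine (abs_real_inner_le_norm _ _).trans ?_
  nlinarith [norm_nonneg g]

theorem mom : sMom := by
  intro d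
  obtain ⟨m, hm, hb⟩ := ball_low d
  refine ⟨int_exp d, fun c hc => ?_, m, hm, fun g => ?_⟩
  · have hκ : 0 < (c / 2) ^ 2 / (1 + (c / 2) ^ 2) := by positivity
    refine ⟨(c / 2) ^ 2 / (1 + (c / 2) ^ 2) * m, mul_pos hκ hm, fun g hg => ?_⟩
    have hg0 : 0 < ‖g‖ := hc.trans_le hg
    have hi : Integrable (fun w : Euc d => (inner ℝ w g) ^ 2 / (1 + (inner ℝ w g) ^ 2))
        (stdGaussian (Euc d)) := by
      refine (integrable_const (1 : ℝ)).mono' (Measurable.aestronglyMeasurable (by fun_prop))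
        (ae_of_all _ fun w => ?_)
      rw [Real.norm_of_nonneg (by positivity), div_le_one (by positivity)]
      linarith
    refine le_trans ?_ (mul_meas_ge_le_integral_of_nonneg (ae_of_all _ fun w => by positivity) hi
      ((c / 2) ^ 2 / (1 + (c / 2) ^ 2)))
    refine mul_le_mul_of_nonneg_left ?_ hκ.le
    have hp : ‖(‖g‖⁻¹ • g : Euc d)‖ ≤ 1 := by
      rw [norm_smul, norm_inv, norm_norm, inv_mul_cancel₀ hg0.ne']
    have h1 := hb _ hp
    rw [ENNReal.ofReal_le_iff_le_toReal (measure_ne_top _ _)] at h1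
    refine h1.trans (measureReal_mono (fun w hw => ?_) (measure_ne_top _ _))
    have h2 := inner_near g hw
    have h3 : inner ℝ (‖g‖⁻¹ • g : Euc d) g = ‖g‖ := by
      rw [real_inner_smul_left, real_inner_self_eq_norm_sq]; field_simp
    rw [h3] at h2
    have h4 : c / 2 ≤ inner ℝ w g := by linarith [(abs_le.mp h2).1]
    have h5 : (c / 2) ^ 2 ≤ (inner ℝ w g) ^ 2 := pow_le_pow_left₀ (by positivity) h4 2
    rw [mem_ofPred_eq, div_le_div_iff₀ (by positivity) (by positivity)]
    nlinarith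
  · have hn : ‖((-(2 * ‖g‖)⁻¹) • g : Euc d)‖ ≤ 1 / 2 := by
      rw [norm_smul, norm_neg, norm_inv, Real.norm_of_nonneg (by positivity)]
      rcases (norm_nonneg g).eq_or_lt with h | h
      · rw [← h]; norm_num
      · apply le_of_eq; field_simp
    have h3 : inner ℝ ((-(2 * ‖g‖)⁻¹) • g : Euc d) g = -(‖g‖ / 2) := by
      rw [real_inner_smul_left, real_inner_self_eq_norm_sq]
      rcases (norm_nonneg g).eq_or_lt with h | h
      · rw [← h]; norm_num
      · field_simp
    refine (hb _ (hn.trans (by norm_num))).trans (measure_mono fun w hw => ⟨?_, ?_⟩)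
    · rw [mem_ball_iff_norm] at hw
      have := norm_add_le (w - (-(2 * ‖g‖)⁻¹) • g) ((-(2 * ‖g‖)⁻¹) • g)
      rw [sub_add_cancel] at this
      linarith
    · have h2 := inner_near g hw
      rw [h3] at h2
      linarith [(abs_le.mp h2).2]

end Pool.Agent.Lib.MP_2024f4_pr.TR.Dens
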