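import Mathlib
import Pool.Agent.Lib.MP_2024f4_pr.TR.St

set_option autoImplicit false

open MeasureTheory ProbabilityTheory Set Filter Topology
open scoped ENNReal

namespace Pool.Agent.Lib.MP_2024f4_pr.TR.Harris

variable {E : Type} [MeasurableSpace E]

lemma int_V {m : Measure E} {V : E → ℝ} (hV : Measurable V) (hV0 : ∀ z, 0 ≤ V z) {B : ℝ}
    (hB : 0 ≤ B) (h : ∫⁻ w, ENNReal.ofReal (V w) ∂m ≤ ENNReal.ofReal B) :
    Integrable V m ∧ ∫ w, V w ∂m ≤ B := by
  have hi : Integrable V m := by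
    refine ⟨hV.aestronglyMeasurable, ?_⟩
    rw [hasFiniteIntegral_iff_ofReal (ae_of_all _ hV0)]
    exact h.trans_lt ENNReal.ofReal_lt_top
  refine ⟨hi, ?_⟩
  rw [← ofReal_integral_eq_lintegral_ofReal hi (ae_of_all _ hV0)] at h
  exact (ENNReal.ofReal_le_ofReal_iff hB).mp h

lemma step {K : E → Measure E} {S : Set E} {V ψ : E → ℝ} {ν : Measure E}
    {α b R ε β q k B : ℝ} (hK : ∀ z, K z univ = 1) (habs : ∀ z ∈ S, K z Sᶜ = 0)
    (hV : Measurable V) (hV0 : ∀ z, 0 ≤ V z) (hα : 0 ≤ α) (hb : 0 ≤ b) (hβ : 0 ≤ β) (hk : 0 ≤ k)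
    (hL : ∀ z ∈ S, ∫⁻ w, ENNReal.ofReal (V w) ∂K z ≤ ENNReal.ofReal (α * V z + b))
    (hε : ENNReal.ofReal ε ≤ ν univ) (hν : ∀ z ∈ S, V z ≤ R → ν ≤ K z)
    (h1 : ∀ s, R ≤ s → 2 + β * (α * s + 2 * b) ≤ q * (2 + β * s))
    (h2 : ∀ s, 0 ≤ s → 2 * (1 - ε) + β * (α * s + 2 * b) ≤ q * (2 + β * s))
    (hψ : Measurable ψ) (hB : ∀ z, |ψ z| ≤ B)
    (hosc : ∀ x ∈ S, ∀ y ∈ S, |ψ x - ψ y| ≤ k * (2 + β * V x + β * V y)) :
    ∀ x ∈ S, ∀ y ∈ S, |∫ w, ψ w ∂K x - ∫ w, ψ w ∂K y| ≤ q * k * (2 + β * V x + β * V y) := by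
  intro x hx y hy
  obtain ⟨c₀, hc₀⟩ : ∃ c₀ : ℝ, ∀ z ∈ S, |ψ z + c₀| ≤ k * (1 + β * V z) := by
    have hlow : ∀ z ∈ S, -(k * (1 + β * V z)) - ψ z ∈
        lowerBounds ((fun w => k * (1 + β * V w) - ψ w) '' S) := by
      rintro z hz _ ⟨w, hw, rfl⟩
      have := (abs_le.mp (hosc w hw z hz)).2
      simp only
      linarith
    refine ⟨sInf ((fun w => k * (1 + β * V w) - ψ w) '' S), fun z hz => abs_le.mpr ⟨?_, ?_⟩⟩
    · have := le_csInf ⟨_, mem_image_of_mem (fun w => k * (1 + β * V w) - ψ w) hx⟩ (hlow z hz)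
      linarith
    · have := csInf_le ⟨_, hlow x hx⟩ (mem_image_of_mem (fun w => k * (1 + β * V w) - ψ w) hz)
      linarith
  have hint : ∀ m : Measure E, IsFiniteMeasure m → Integrable (fun w => ψ w + c₀) m := by
    intro m _
    exact (Integrable.of_bound hψ.aestronglyMeasurable B (ae_of_all _ hB)).add (integrable_const _)
  have hbound : ∀ z ∈ S, ∀ m : Measure E, m ≤ K z →
      |∫ w, (ψ w + c₀) ∂m| ≤ k * (m.real univ + β * (α * V z + b)) := by
    intro z hz m hm
    have : IsProbabilityMeasure (K z) := ⟨hK z⟩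
    have : IsFiniteMeasure m := isFiniteMeasure_of_le (K z) hm
    have hz0 : 0 ≤ α * V z + b := add_nonneg (mul_nonneg hα (hV0 z)) hb
    obtain ⟨hi, hle⟩ := int_V hV hV0 hz0 ((lintegral_mono' hm le_rfl).trans (hL z hz))
    have hS : ∀ᵐ w ∂m, w ∈ S := le_zero_iff.mp ((hm Sᶜ).trans (habs z hz).le)
    calc _ ≤ ∫ w, k * (1 + β * V w) ∂m := by
          rw [← Real.norm_eq_abs]
          refine norm_integral_le_of_norm_le (((integrable_const _).add
            (hi.const_mul β)).const_mul k) ?_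
          filter_upwards [hS] with w hw using hc₀ w hw
      _ = k * (m.real univ + β * ∫ w, V w ∂m) := by
          rw [integral_const_mul, integral_add (integrable_const _) (hi.const_mul β),
            integral_const_mul]
          simp
      _ ≤ _ := by gcongr
  have hshift : ∀ z, ∫ w, ψ w ∂K z = ∫ w, (ψ w + c₀) ∂K z - c₀ := by
    intro z
    have : IsProbabilityMeasure (K z) := ⟨hK z⟩
    rw [integral_add (Integrable.of_bound hψ.aestronglyMeasurable B (ae_of_all _ hB))
      (integrable_const _)]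
    simp
  have hx0 := hV0 x
  have hy0 := hV0 y
  rw [hshift x, hshift y, sub_sub_sub_cancel_right]
  rcases le_or_gt R (V x + V y) with hR | hR
  · have e1 := hbound x hx _ le_rfl
    have e2 := hbound y hy _ le_rfl
    simp only [Measure.real, hK, ENNReal.toReal_one] at e1 e2
    have e3 := mul_le_mul_of_nonneg_left (h1 _ hR) hk
    refine (abs_sub _ _).trans ?_
    nlinarith
  · have hsplit : ∀ z ∈ S, V z ≤ R → ∃ I : ℝ, ∫ w, (ψ w + c₀) ∂K z = I + ∫ w, (ψ w + c₀) ∂ν ∧
        |I| ≤ k * (1 - ε + β * (α * V z + b)) := by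
      intro z hz hzR
      have hle := hν z hz hzR
      have : IsProbabilityMeasure (K z) := ⟨hK z⟩
      have : IsFiniteMeasure ν := isFiniteMeasure_of_le (K z) hle
      refine ⟨∫ w, (ψ w + c₀) ∂(K z - ν), ?_, (hbound z hz _ Measure.sub_le).trans ?_⟩
      · rw [← integral_add_measure (hint _ inferInstance) (hint _ inferInstance),
          Measure.sub_add_cancel_of_le hle]
      · have e1 : (K z - ν).real univ + ν.real univ = 1 := by
          rw [← measureReal_add_apply, Measure.sub_add_cancel_of_le hle]; simp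
        have e2 : ε ≤ ν.real univ := (ENNReal.ofReal_le_iff_le_toReal (measure_ne_top _ _)).mp hε
        gcongr
        linarith
    obtain ⟨I, hI, e1⟩ := hsplit x hx (by linarith)
    obtain ⟨J, hJ, e2⟩ := hsplit y hy (by linarith)
    rw [hI, hJ, add_sub_add_right_eq_sub]
    have e3 := mul_le_mul_of_nonneg_left (h2 (V x + V y) (by linarith)) hk
    refine (abs_sub _ _).trans ?_
    nlinarith

variable {P : ℝ → E → Measure E} {μ : Measure E} {S : Set E} {V : E → ℝ} {c b : ℝ}

lemma mu_V (h : Setup P μ S V c b) : ∫⁻ w, ENNReal.ofReal (V w) ∂μ ≤ ENNReal.ofReal b := by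
  have := h.muP
  have hg : Measurable fun w => ENNReal.ofReal (V w) := ENNReal.measurable_ofReal.comp h.measV
  have hS : ∀ᵐ z ∂μ, z ∈ S := h.muS
  have hk : ∀ k : ℕ, ∫⁻ w, min (ENNReal.ofReal (V w)) k ∂μ ≤ ENNReal.ofReal b := by
    intro k
    have h1 : ∀ n : ℕ, ∫⁻ w, min (ENNReal.ofReal (V w)) k ∂μ ≤
        ∫⁻ z, min (ENNReal.ofReal (Real.exp (-c * n) * V z + b)) k ∂μ := by
      intro n
      have hn : (0 : ℝ) ≤ n := Nat.cast_nonneg n
      conv_lhs => rw [← h.inv n hn]
      rw [Measure.lintegral_bind (h.meas n).aemeasurable (hg.min measurable_const).aemeasurable]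
      refine lintegral_mono_ae ?_
      filter_upwards [hS] with z hz
      refine le_min ((lintegral_mono fun w => min_le_left _ _).trans (h.lyap n hn z hz)) ?_
      refine (lintegral_mono fun w => min_le_right _ _).trans ?_
      simp [h.prob n hn z]
    have h2 : Tendsto (fun n : ℕ => ∫⁻ z, min (ENNReal.ofReal (Real.exp (-c * n) * V z + b)) k ∂μ)
        atTop (𝓝 (∫⁻ _, min (ENNReal.ofReal b) k ∂μ)) := by
      refine tendsto_lintegral_of_dominated_convergence (fun _ => (k : ℝ≥0∞)) (fun n => ?_)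
        (fun n => ae_of_all _ fun z => min_le_right _ _) (by simp) (ae_of_all _ fun z => ?_)
      · exact (ENNReal.measurable_ofReal.comp ((h.measV.const_mul _).add_const _)).min
          measurable_const
      · refine Tendsto.min (ENNReal.tendsto_ofReal ?_) tendsto_const_nhds
        have h3 : Tendsto (fun n : ℕ => Real.exp (-c * n)) atTop (𝓝 0) :=
          Real.tendsto_exp_atBot.comp (Tendsto.const_mul_atTop_of_neg (by linarith [h.c_pos])
            tendsto_natCast_atTop_atTop)
        simpa using (h3.mul_const (V z)).add_const b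
    refine (ge_of_tendsto' h2 h1).trans ?_
    simp
  have h4 : ∀ w, ENNReal.ofReal (V w) = ⨆ k : ℕ, min (ENNReal.ofReal (V w)) k := by
    intro w
    refine le_antisymm ?_ (iSup_le fun k => min_le_left _ _)
    obtain ⟨k, hk⟩ := ENNReal.exists_nat_gt (ENNReal.ofReal_ne_top (r := V w))
    exact le_iSup_of_le k (le_min le_rfl hk.le)
  rw [lintegral_congr h4, lintegral_iSup (fun k => hg.min measurable_const)
    (fun i j hij w => min_le_min_left _ (Nat.cast_le.mpr hij))]
  exact iSup_le hk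

lemma real_bind {p : Measure E} {K : E → Measure E} (hK : Measurable K) (h1 : ∀ z, K z univ = 1)
    {A : Set E} (hA : MeasurableSet A) : (p.bind K).real A = ∫ w, (K w).real A ∂p := by
  rw [Measure.real, Measure.bind_apply hA hK.aemeasurable]
  refine (integral_toReal (meas_coe hK hA).aemeasurable (ae_of_all _ fun w => ?_)).symm
  exact (measure_mono (subset_univ A)).trans_lt (by rw [h1]; exact ENNReal.one_lt_top)

theorem harris : sHarris := by
  intro E _ P μ S V c b h hM
  have := h.muP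
  have hc := h.c_pos
  have hb := h.b_nonneg
  set α := Real.exp (-c) with hα
  have hα0 : 0 < α := Real.exp_pos _
  have hα1 : α < 1 := Real.exp_lt_one_iff.mpr (by linarith)
  set R := 4 * b / (1 - α) + 2 with hR
  have hR1 : 4 * b ≤ (1 - α) * R := by
    rw [hR, mul_add, mul_div_cancel₀ _ (by linarith)]; linarith
  have hR0 : 0 < R := by
    have : 0 ≤ 4 * b / (1 - α) := div_nonneg (by linarith) (by linarith)
    linarith
  obtain ⟨T, hT, ν, hν0, hν⟩ := hM R
  set ε := (min (ν univ) 1).toReal with hε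
  have hmin : min (ν univ) 1 ≠ ∞ := ne_top_of_le_ne_top ENNReal.one_ne_top (min_le_right _ _)
  have hε0 : 0 < ε := ENNReal.toReal_pos (by simp [hν0]) hmin
  have hε1 : ε ≤ 1 := by
    simpa using ENNReal.toReal_mono ENNReal.one_ne_top (min_le_right (ν univ) 1)
  have hεν : ENNReal.ofReal ε ≤ ν univ := by
    rw [hε, ENNReal.ofReal_toReal hmin]; exact min_le_left _ _
  set β := ε / (2 * b + 1) with hβ
  have hβ0 : 0 < β := by positivity
  have hβb : β * (2 * b) ≤ ε := by
    rw [hβ, div_mul_eq_mul_div, div_le_iff₀ (by positivity)]; nlinarith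
  clear_value β
  set q₀ := (2 + β * ((1 + α) / 2) * R) / (2 + β * R) with hq₀
  have hβR : 0 < β * R := mul_pos hβ0 hR0
  have hq₀1 : q₀ < 1 := by
    rw [hq₀, div_lt_one (by linarith)]; nlinarith
  set q := max (max (1 - ε / 2) α) q₀ with hq
  have hq1 : q < 1 := max_lt (max_lt (by linarith) hα1) hq₀1
  have hqa : 1 - ε / 2 ≤ q := (le_max_left _ _).trans (le_max_left _ _)
  have hqb : α ≤ q := (le_max_right _ _).trans (le_max_left _ _)
  have hq0 : 0 < q := by linarith
  have h1 : ∀ s, R ≤ s → 2 + β * (α * s + 2 * b) ≤ q * (2 + β * s) := by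
    intro s hs
    have e0 : 0 < β * s := mul_pos hβ0 (by linarith)
    have e1 : α * s + 2 * b ≤ (1 + α) / 2 * s := by nlinarith
    have e2 : 2 + β * ((1 + α) / 2 * s) ≤ q₀ * (2 + β * s) := by
      have e5 : 0 < 2 + β * R := by linarith
      rw [hq₀, div_mul_eq_mul_div _ (2 + β * R), le_div_iff₀ e5]
      nlinarith [mul_nonneg hβ0.le (mul_nonneg (sub_nonneg.mpr hα1.le) (sub_nonneg.mpr hs))]
    have e3 : q₀ * (2 + β * s) ≤ q * (2 + β * s) :=
      mul_le_mul_of_nonneg_right (le_max_right _ _) (by linarith)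
    have e4 := mul_le_mul_of_nonneg_left e1 hβ0.le
    linarith
  have h2 : ∀ s, 0 ≤ s → 2 * (1 - ε) + β * (α * s + 2 * b) ≤ q * (2 + β * s) := by
    intro s hs
    nlinarith [mul_nonneg (mul_nonneg hβ0.le hs) (sub_nonneg.mpr hqb)]
  have hT0 : 0 < T := by linarith
  have hL : ∀ z ∈ S, ∫⁻ w, ENNReal.ofReal (V w) ∂P T z ≤ ENNReal.ofReal (α * V z + b) := by
    intro z hz
    refine (h.lyap T hT0.le z hz).trans (ENNReal.ofReal_le_ofReal ?_)
    have : Real.exp (-c * T) ≤ α := Real.exp_le_exp.mpr (by nlinarith)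
    have := h.V_nonneg z
    gcongr
  have hbd : ∀ t, 0 ≤ t → ∀ z A, |(P t z).real A| ≤ 1 := by
    intro t ht z A
    have : IsProbabilityMeasure (P t z) := ⟨h.prob t ht z⟩
    rw [abs_of_nonneg measureReal_nonneg]; exact measureReal_le_one
  have hme : ∀ t A, MeasurableSet A → Measurable fun z => (P t z).real A := fun t A hA =>
    (meas_coe (h.meas t) hA).ennreal_toReal
  have key : ∀ (A : Set E), MeasurableSet A → ∀ r, 0 ≤ r → ∀ n : ℕ, ∀ x ∈ S, ∀ y ∈ S,
      |(P (n * T + r) x).real A - (P (n * T + r) y).real A| ≤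
        q ^ n * (2 + β * V x + β * V y) := by
    intro A hA r hr n
    induction n with
    | zero =>
      intro x _ y _
      simp only [Nat.cast_zero, zero_mul, zero_add, pow_zero, one_mul]
      have e1 := hbd r hr x A
      have e2 := hbd r hr y A
      have e3 := mul_nonneg hβ0.le (h.V_nonneg x)
      have e4 := mul_nonneg hβ0.le (h.V_nonneg y)
      exact (abs_sub _ _).trans (by linarith)
    | succ n ih =>
      intro x hx y hy
      have hn : 0 ≤ n * T + r := by positivity
      have e : ((n + 1 : ℕ) : ℝ) * T + r = T + (n * T + r) := by push_cast; ring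
      rw [e, h.semi _ _ hT0.le hn, h.semi _ _ hT0.le hn,
        real_bind (h.meas _) (h.prob _ hn) hA, real_bind (h.meas _) (h.prob _ hn) hA, pow_succ']
      exact step (h.prob T hT0.le) (h.abs T hT0.le) h.measV h.V_nonneg hα0.le hb hβ0.le
        (pow_nonneg hq0.le n) hL hεν hν h1 h2 (hme _ A hA) (fun z => hbd _ hn z A) ih x hx y hy
  obtain ⟨hVi, hVb⟩ := int_V h.measV h.V_nonneg hb (mu_V h)
  have hlog : Real.log q < 0 := Real.log_neg hq0 hq1
  refine ⟨-Real.log q / T, (2 + β + β * b) / q, div_pos (by linarith) hT0,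
    fun t ht z hz A hA => ?_⟩
  set n := ⌊t / T⌋₊ with hn
  have hn1 : (n : ℝ) ≤ t / T := Nat.floor_le (div_nonneg ht hT0.le)
  have hn2 : t / T < n + 1 := Nat.lt_floor_add_one _
  have hr : 0 ≤ t - n * T := by rw [le_div_iff₀ hT0] at hn1; linarith
  have hk := key A hA _ hr n z hz
  rw [add_sub_cancel] at hk
  have hS : ∀ᵐ y ∂μ, y ∈ S := h.muS
  have hz0 := h.V_nonneg z
  have e1 : (P t z).real A - μ.real A = ∫ y, ((P t z).real A - (P t y).real A) ∂μ := by
    rw [integral_sub (integrable_const _) (Integrable.of_bound (hme t A hA).aestronglyMeasurable 1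
      (ae_of_all _ fun y => hbd t ht y A)), ← real_bind (h.meas t) (h.prob t ht) hA, h.inv t ht]
    simp
  have e2 : |(P t z).real A - μ.real A| ≤ q ^ n * (2 + β * V z + β * b) := by
    rw [e1]
    calc _ ≤ ∫ y, q ^ n * (2 + β * V z + β * V y) ∂μ := by
          rw [← Real.norm_eq_abs]
          refine norm_integral_le_of_norm_le (((integrable_const _).add
            (hVi.const_mul β)).const_mul _) ?_
          filter_upwards [hS] with y hy using hk y hy
      _ = q ^ n * (2 + β * V z + β * ∫ y, V y ∂μ) := by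
          rw [integral_const_mul, integral_add (integrable_const _) (hVi.const_mul β),
            integral_const_mul]
          simp
      _ ≤ _ := by gcongr
  have e3 : q ^ n ≤ Real.exp (-(-Real.log q / T) * t) / q := by
    rw [le_div_iff₀ hq0, ← pow_succ, ← Real.exp_log (pow_pos hq0 (n + 1)), Real.log_pow]
    refine Real.exp_le_exp.mpr ?_
    have : -(-Real.log q / T) * t = t / T * Real.log q := by field_simp
    rw [this]
    push_cast
    nlinarith
  have e4 : 2 + β * V z + β * b ≤ (2 + β + β * b) * (1 + V z) := by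
    nlinarith [mul_nonneg (mul_nonneg hβ0.le hb) hz0]
  have e5 : 0 ≤ 2 + β * V z + β * b := by positivity
  calc _ ≤ _ := e2
    _ ≤ Real.exp (-(-Real.log q / T) * t) / q * ((2 + β + β * b) * (1 + V z)) := by gcongr
    _ = _ := by ring

end Pool.Agent.Lib.MP_2024f4_pr.TR.Harris
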