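import Mathlib
import Pool.Agent.Lib.MP_2024f4_pr.TR.St

set_option autoImplicit false

open MeasureTheory ProbabilityTheory Set
open scoped ENNReal

namespace Pool.Agent.Lib.MP_2024f4_pr.TR.Young

/-- truncated entropy function -/
noncomputable def psi (l a : ℝ) : ℝ := a * max (Real.log a - l) 0

lemma measurable_psi (l : ℝ) : Measurable (psi l) := by
  unfold psi
  exact measurable_id.mul ((Real.measurable_log.sub_const l).max measurable_const)

lemma pt {l a b : ℝ} (ha : 0 ≤ a) (hb : 0 ≤ b) :
    a * b ≤ psi l a + Real.exp l * (Real.exp b - 1) := by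
  have h0 : 0 ≤ psi l a := mul_nonneg ha (le_max_right _ _)
  have hl := Real.exp_pos l
  rcases le_or_gt a (Real.exp l) with h | h
  · have h1 := Real.add_one_le_exp b
    nlinarith [mul_nonneg (sub_nonneg.mpr h) hb]
  · have ha0 : 0 < a := hl.trans h
    have h1 := Real.add_one_le_exp (b - (Real.log a - l))
    have h2 : a * Real.exp (b - (Real.log a - l)) = Real.exp l * Real.exp b := by
      rw [show b - (Real.log a - l) = l + b - Real.log a by ring, Real.exp_sub, Real.exp_log ha0,
        Real.exp_add]
      field_simp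
    have h3 : a * (Real.log a - l) ≤ psi l a := mul_le_mul_of_nonneg_left (le_max_left _ _) ha
    nlinarith [mul_le_mul_of_nonneg_left h1 ha]

variable {E : Type} [MeasurableSpace E]

/-- dual bound for the measure `m` -/
def Y (μ m : Measure E) (l : ℝ) (al be : ℝ≥0∞) : Prop :=
  ∀ F H : E → ℝ≥0∞, Measurable F → Measurable H → ∀ τ : ℝ≥0∞,
    (∀ᵐ z ∂μ, ∀ a : ℝ, 0 ≤ a → ENNReal.ofReal a * F z ≤ τ * ENNReal.ofReal (psi l a) + H z) →
    ∫⁻ z, F z ∂m ≤ τ * al + be * ∫⁻ z, H z ∂μ

lemma Y_dens {μ m : Measure E} [IsFiniteMeasure μ] [IsFiniteMeasure m] (hac : m ≪ μ) (l : ℝ)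
    {al : ℝ≥0∞} (hal : ∫⁻ z, ENNReal.ofReal (psi l (m.rnDeriv μ z).toReal) ∂μ ≤ al) :
    Y μ m l al 1 := by
  intro F H hF hH τ hFH
  have hm : Measurable fun z => ENNReal.ofReal (psi l (m.rnDeriv μ z).toReal) :=
    ENNReal.measurable_ofReal.comp ((measurable_psi l).comp
      (Measure.measurable_rnDeriv m μ).ennreal_toReal)
  rw [← lintegral_rnDeriv_mul hac hF.aemeasurable, one_mul]
  calc _ ≤ ∫⁻ z, τ * ENNReal.ofReal (psi l (m.rnDeriv μ z).toReal) + H z ∂μ := by
        refine lintegral_mono_ae ?_
        filter_upwards [hFH, Measure.rnDeriv_ne_top m μ] with z hz hz'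
        have := hz _ (ENNReal.toReal_nonneg (a := m.rnDeriv μ z))
        rwa [ENNReal.ofReal_toReal hz'] at this
    _ ≤ _ := by
        rw [lintegral_add_right _ hH, lintegral_const_mul _ hm]
        gcongr

lemma Y_Q {μ m : Measure E} {K Q : E → Measure E} {l : ℝ} {al be θ : ℝ≥0∞} (hK : Measurable K)
    (hQ : Measurable Q) (hinv : μ.bind K = μ) (hle : ∀ z, Q z ≤ K z)
    (hθ : ∀ᵐ z ∂μ, Q z univ ≤ θ) (h : Y μ m l al be) : Y μ (m.bind Q) l (θ * al) be := by
  intro F H hF hH τ hFH
  have hF' : Measurable fun z => ∫⁻ w, F w ∂Q z := (Measure.measurable_lintegral hF).comp hQ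
  have hH' : Measurable fun z => ∫⁻ w, H w ∂Q z := (Measure.measurable_lintegral hH).comp hQ
  rw [Measure.lintegral_bind hQ.aemeasurable hF.aemeasurable]
  rw [← hinv] at hFH
  have h2 := Measure.ae_ae_of_ae_bind hK.aemeasurable hFH
  refine (h _ _ hF' hH' (τ * θ) ?_).trans ?_
  · filter_upwards [h2, hθ] with z hz hz' a ha
    have hz2 := (Measure.absolutelyContinuous_of_le (hle z)).ae_le hz
    rw [← lintegral_const_mul _ hF]
    calc _ ≤ ∫⁻ w, τ * ENNReal.ofReal (psi l a) + H w ∂Q z := by
          refine lintegral_mono_ae ?_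
          filter_upwards [hz2] with w hw using hw a ha
      _ ≤ _ := by
          rw [lintegral_add_left measurable_const, lintegral_const, mul_right_comm τ θ]
          gcongr
  · rw [mul_assoc]
    refine add_le_add_right (mul_le_mul_right ?_ _) _
    conv_rhs => rw [← hinv, Measure.lintegral_bind hK.aemeasurable hH.aemeasurable]
    exact lintegral_mono fun z => lintegral_mono' (hle z) le_rfl

lemma iter_univ {K : E → Measure E} (hK : Measurable K) (h1 : ∀ z, K z univ = 1) (p : Measure E)
    [IsProbabilityMeasure p] (n : ℕ) : IsProbabilityMeasure (iter K p n) := by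
  induction n with
  | zero => assumption
  | succ n ih =>
    constructor
    rw [iter, Measure.bind_apply MeasurableSet.univ hK.aemeasurable]
    simp [h1]

theorem young : sYoung := by
  intro E _ K R μ p S Φ G θ l ρ n hK hR h1 hμ hp hinv hS hμS hac hRK hRΦ hθ0 hθ1 hRθ hΦ hΦ0 hG
    hG0 hl hρ
  have hKp : ∀ z, IsProbabilityMeasure (K z) := fun z => ⟨h1 z⟩
  have hRf : ∀ z, IsFiniteMeasure (R z) := fun z => isFiniteMeasure_of_le (K z) (hRK z)
  let Q : E → Measure E := fun z => K z - R z
  have hQ : Measurable Q := by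
    apply Measure.measurable_of_measurable_coe
    intro A hA
    simp only [Q, fun z => Measure.sub_apply hA (hRK z)]
    exact (meas_coe hK hA).sub (meas_coe hR hA)
  have hQθ : ∀ᵐ z ∂μ, Q z univ ≤ ENNReal.ofReal θ := by
    have hS' : ∀ᵐ z ∂μ, z ∈ S := hμS
    filter_upwards [hS'] with z hz
    simp only [Q, Measure.sub_apply MeasurableSet.univ (hRK z), h1]
    refine tsub_le_iff_right.mpr (le_trans ?_ (add_le_add_right (hRθ z hz) _))
    rw [← ENNReal.ofReal_add hθ0 (by linarith)]
    simp
  have hg : Measurable fun w => ENNReal.ofReal (Real.log (Φ w) - l) :=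
    ENNReal.measurable_ofReal.comp ((Real.measurable_log.comp hΦ).sub_const l)
  have hYR : ∀ j, Y μ ((iter K p j).bind R) l ρ 1 := by
    intro j
    have := iter_univ hK h1 p j
    have hle : (iter K p j).bind R ≤ μ.withDensity fun w => ENNReal.ofReal (Φ w) := by
      refine Measure.le_iff.mpr fun A hA => ?_
      rw [Measure.bind_apply hA hR.aemeasurable]
      refine (lintegral_mono fun z => hRΦ z A).trans ?_
      simp
    have hle2 : (iter K p j).bind R ≤ iter K p (j + 1) := by
      refine Measure.le_iff.mpr fun A hA => ?_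
      rw [iter, Measure.bind_apply hA hR.aemeasurable, Measure.bind_apply hA hK.aemeasurable]
      exact lintegral_mono fun z => hRK z A
    have := iter_univ hK h1 p (j + 1)
    have : IsFiniteMeasure ((iter K p j).bind R) := isFiniteMeasure_of_le _ hle2
    have hac2 : (iter K p j).bind R ≪ μ :=
      (Measure.absolutelyContinuous_of_le hle).trans (withDensity_absolutelyContinuous _ _)
    have hd : ((iter K p j).bind R).rnDeriv μ ≤ᵐ[μ] fun w => ENNReal.ofReal (Φ w) := by
      refine ae_le_of_forall_setLIntegral_le_of_sigmaFinite (Measure.measurable_rnDeriv _ _)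
        fun A hA _ => ?_
      rw [Measure.setLIntegral_rnDeriv hac2, ← withDensity_apply _ hA]
      exact hle A
    refine Y_dens hac2 l (le_trans ?_ ((lintegral_mono' hle2 le_rfl).trans (hρ (j + 1))))
    rw [← lintegral_rnDeriv_mul hac2 hg.aemeasurable]
    refine lintegral_mono_ae ?_
    filter_upwards [hd, Measure.rnDeriv_ne_top ((iter K p j).bind R) μ] with z hz hz'
    set x := ((iter K p j).bind R).rnDeriv μ z
    rw [psi, ENNReal.ofReal_mul ENNReal.toReal_nonneg, ENNReal.ofReal_toReal hz']
    rcases eq_or_ne x 0 with hx | hx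
    · simp [hx]
    refine mul_le_mul_right ?_ _
    rw [ENNReal.ofReal_max, ENNReal.ofReal_zero, max_eq_left zero_le]
    refine ENNReal.ofReal_le_ofReal (sub_le_sub_right (Real.log_le_log
      (ENNReal.toReal_pos hx hz') ?_) _)
    exact ENNReal.toReal_le_of_le_ofReal (hΦ0 z).le hz
  have key : ∀ n : ℕ, Y μ (iter K p n) l
      (ENNReal.ofReal (θ ^ n) * (InformationTheory.klDiv p μ + 1) + n * ρ) (n + 1) := by
    intro n
    induction n with
    | zero =>
      simp only [pow_zero, ENNReal.ofReal_one, one_mul, Nat.cast_zero, zero_mul, add_zero,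
        zero_add, iter]
      refine Y_dens hac l ?_
      rw [InformationTheory.klDiv_eq_lintegral_klFun_of_ac hac,
        ← (measure_univ : p univ = 1), ← Measure.lintegral_rnDeriv hac,
        ← lintegral_add_right _ (Measure.measurable_rnDeriv p μ)]
      refine lintegral_mono_ae ?_
      filter_upwards [Measure.rnDeriv_ne_top p μ] with z hz
      set x := (p.rnDeriv μ z).toReal with hx
      have hx0 : 0 ≤ x := ENNReal.toReal_nonneg
      rw [← ENNReal.ofReal_toReal hz, ← hx,
        ← ENNReal.ofReal_add (InformationTheory.klFun_nonneg hx0) hx0]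
      refine ENNReal.ofReal_le_ofReal ?_
      have h2 := InformationTheory.klFun_nonneg hx0
      rw [InformationTheory.klFun_apply] at h2 ⊢
      rw [psi]
      rcases le_total (Real.log x - l) 0 with h3 | h3
      · rw [max_eq_right h3]; linarith
      · rw [max_eq_left h3]; nlinarith
    | succ n ih =>
      intro F H hF hH τ hFH
      have e1 := Y_Q hK hQ hinv (fun z => Measure.sub_le) hQθ ih F H hF hH τ hFH
      have e2 := hYR n F H hF hH τ hFH
      have e3 : ∫⁻ z, F z ∂iter K p (n + 1) =
          ∫⁻ z, F z ∂(iter K p n).bind Q + ∫⁻ z, F z ∂(iter K p n).bind R := by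
        have hFR : Measurable fun z => ∫⁻ w, F w ∂(R z) := (Measure.measurable_lintegral hF).comp hR
        rw [iter, Measure.lintegral_bind hK.aemeasurable hF.aemeasurable,
          Measure.lintegral_bind hQ.aemeasurable hF.aemeasurable,
          Measure.lintegral_bind hR.aemeasurable hF.aemeasurable,
          ← lintegral_add_right _ hFR]
        refine lintegral_congr fun z => ?_
        simp only [Q]
        rw [← lintegral_add_measure, Measure.sub_add_cancel_of_le (hRK z)]
      rw [e3]
      refine (add_le_add e1 e2).trans ?_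
      have e4 : ENNReal.ofReal θ * (ENNReal.ofReal (θ ^ n) * (InformationTheory.klDiv p μ + 1) +
          n * ρ) + ρ ≤ ENNReal.ofReal (θ ^ (n + 1)) * (InformationTheory.klDiv p μ + 1) +
          (n + 1 : ℕ) * ρ := by
        rw [mul_add, ← mul_assoc, ← ENNReal.ofReal_mul hθ0, ← pow_succ', add_assoc]
        refine add_le_add_right ?_ _
        push_cast
        rw [add_mul, one_mul]
        exact add_le_add_left (mul_le_of_le_one_left' (ENNReal.ofReal_le_one.mpr hθ1)) _
      calc _ = τ * (ENNReal.ofReal θ * (ENNReal.ofReal (θ ^ n) *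
              (InformationTheory.klDiv p μ + 1) + n * ρ) + ρ) +
              ((n + 1 : ℕ) + 1) * ∫⁻ z, H z ∂μ := by push_cast; ring
        _ ≤ _ := by gcongr
  have hH : Measurable fun w => ENNReal.ofReal (Real.exp (G w) - 1) :=
    ENNReal.measurable_ofReal.comp ((Real.measurable_exp.comp hG).sub_const 1)
  have := key n (fun w => ENNReal.ofReal (G w))
    (fun w => ENNReal.ofReal (Real.exp l) * ENNReal.ofReal (Real.exp (G w) - 1))
    (ENNReal.measurable_ofReal.comp hG) (hH.const_mul _) 1 (ae_of_all _ fun z a ha => by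
      have h2 : 0 ≤ Real.exp (G z) - 1 := by linarith [Real.add_one_le_exp (G z), hG0 z]
      rw [one_mul, ← ENNReal.ofReal_mul ha, ← ENNReal.ofReal_mul (Real.exp_nonneg _),
        ← ENNReal.ofReal_add (p := psi l a) (mul_nonneg ha (le_max_right _ _)) (by positivity)]
      exact ENNReal.ofReal_le_ofReal (pt ha (hG0 z)))
  rwa [one_mul, lintegral_const_mul _ hH, ← mul_assoc] at this

end Pool.Agent.Lib.MP_2024f4_pr.TR.Young
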