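import Mathlib
import Pool.Agent.Lib.MP_2024f4_pr.TR.Harris
import Pool.Agent.Lib.MP_2024f4_pr.TR.Young

set_option autoImplicit false

open MeasureTheory ProbabilityTheory Set
open scoped ENNReal

namespace Pool.Agent.Lib.MP_2024f4_pr.TR.Ent

lemma tail (B : ℝ) : ∃ C κ : ℝ, 0 ≤ C ∧ 0 < κ ∧ ∀ (n : ℕ) (u : ℝ), 0 ≤ u →
    B * (1 + u) ^ 2 - (n : ℝ) ^ 2 ≤ C * Real.exp (-κ * n) * Real.exp u := by
  obtain ⟨c, hc0, hc⟩ := poly_le_exp (a := 1 / 2) (by norm_num) 2
  set B' := |B| + 1 with hB'
  have hB1 : 1 ≤ B' := by have := abs_nonneg B; linarith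
  refine ⟨B' * c * Real.exp (1 / 2), 1 / (2 * B'), by positivity, by positivity, fun n u hu => ?_⟩
  have hB : B * (1 + u) ^ 2 ≤ B' * (1 + u) ^ 2 :=
    mul_le_mul_of_nonneg_right (by linarith [le_abs_self B]) (sq_nonneg _)
  rcases le_or_gt (B' * (1 + u) ^ 2) ((n : ℝ) ^ 2) with h | h
  · have : 0 ≤ B' * c * Real.exp (1 / 2) * Real.exp (-(1 / (2 * B')) * n) * Real.exp u := by
      positivity
    linarith
  · have h1 : (n : ℝ) ≤ B' * (1 + u) := by
      refine (pow_le_pow_iff_left₀ (Nat.cast_nonneg n) (by positivity) two_ne_zero).mp ?_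
      nlinarith [mul_nonneg (mul_nonneg (sub_nonneg.mpr hB1) (by linarith : 0 ≤ B')) (sq_nonneg (1 + u))]
    have h2 : 1 / (2 * B') * n ≤ (1 + u) / 2 := by
      rw [div_mul_eq_mul_div, one_mul, div_le_div_iff₀ (by positivity) (by norm_num)]
      nlinarith
    have h3 : Real.exp (1 / 2 * u) ≤
        Real.exp (1 / 2) * Real.exp (-(1 / (2 * B')) * n) * Real.exp u := by
      rw [← Real.exp_add, ← Real.exp_add]
      exact Real.exp_le_exp.mpr (by linarith)
    have h4 : B' * (1 + u) ^ 2 ≤
        B' * (c * (Real.exp (1 / 2) * Real.exp (-(1 / (2 * B')) * n) * Real.exp u)) :=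
      mul_le_mul_of_nonneg_left ((hc u hu).trans (mul_le_mul_of_nonneg_left h3 hc0)) (by linarith)
    nlinarith [sq_nonneg (n : ℝ)]

variable {E : Type} [MeasurableSpace E] {P : ℝ → E → Measure E} {μ : Measure E} {S : Set E}
  {V : E → ℝ} {c b : ℝ}

lemma bind_eq (h : Setup P μ S V c b) {T : ℝ} (hT : 0 ≤ T) (p : Measure E) (n : ℕ) :
    ∀ r, 0 ≤ r → p.bind (P (n * T + r)) = (iter (P T) p n).bind (P r) := by
  induction n with
  | zero => intro r _; simp [iter]
  | succ n ih =>
    intro r hr
    have e : ((n + 1 : ℕ) : ℝ) * T + r = n * T + (T + r) := by push_cast; ring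
    rw [e, ih _ (by linarith), iter,
      Measure.bind_bind (h.meas T).aemeasurable (h.meas r).aemeasurable]
    congr 1
    funext z
    exact h.semi T r hT hr z

lemma iter_ac (h : Setup P μ S V c b) {T : ℝ} (hT : 0 ≤ T) {p : Measure E} (hp : p ≪ μ) (n : ℕ) :
    iter (P T) p n ≪ μ := by
  induction n with
  | zero => exact hp
  | succ n ih =>
    refine Measure.AbsolutelyContinuous.mk fun A hA h0 => ?_
    rw [← h.inv T hT, Measure.bind_apply hA (h.meas T).aemeasurable,
      lintegral_eq_zero_iff (meas_coe (h.meas T) hA)] at h0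
    rw [iter, Measure.bind_apply hA (h.meas T).aemeasurable,
      lintegral_eq_zero_iff (meas_coe (h.meas T) hA)]
    exact ih.ae_le h0

lemma dpi (h : Setup P μ S V c b) {r : ℝ} (hr : 0 ≤ r) (m : Measure E) [IsProbabilityMeasure m] :
    InformationTheory.klDiv (m.bind (P r)) μ ≤ InformationTheory.klDiv m μ := by
  have := h.muP
  let κ : Kernel E E := ⟨P r, h.meas r⟩
  have : IsMarkovKernel κ := ⟨fun z => ⟨h.prob r hr z⟩⟩
  have h1 := InformationTheory.klDiv_comp_right_le m μ κ
  have h2 : κ ∘ₘ μ = μ := h.inv r hr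
  rw [h2] at h1
  exact h1

set_option maxHeartbeats 1600000 in
theorem ent (h1 : sYoung) (h2 : sSplit) : sEnt := by
  classical
  intro E _ P μ S V c b h ⟨lam, C, hlam, hgeo⟩
    ⟨T₀, T₁, η, B, G, R, Φ, hT₀, hT₁, hη, hG, hR, hΦ, hgood, hRG, hΦ0, hlog⟩
  have hμ := h.muP
  have hb := h.b_nonneg
  set T := T₀ + T₁ with hTd
  have hT : 0 < T := by linarith
  let R₁ : E → Measure E := fun z => if z ∈ G then R z else 0
  have hR₁ : Measurable R₁ := Measurable.ite hG hR measurable_const
  let R₂ : E → Measure E := fun z => (P T₀ z).bind R₁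
  have hR₂ : Measurable R₂ := (Measure.measurable_bind' hR₁).comp (h.meas T₀)
  have hRK : ∀ z, R₂ z ≤ P T z := by
    intro z
    refine Measure.le_iff.mpr fun A hA => ?_
    rw [hTd, h.semi _ _ hT₀.le hT₁, Measure.bind_apply hA hR₁.aemeasurable,
      Measure.bind_apply hA (h.meas T₁).aemeasurable]
    refine lintegral_mono fun w => ?_
    by_cases hw : w ∈ G
    · simp only [R₁, if_pos hw]; exact (hRG w hw).2.1 A
    · simp [R₁, if_neg hw]
  have hRΦ : ∀ z, R₂ z ≤ μ.withDensity fun w => ENNReal.ofReal (Φ w) := by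
    intro z
    refine Measure.le_iff.mpr fun A hA => ?_
    rw [Measure.bind_apply hA hR₁.aemeasurable]
    calc _ ≤ ∫⁻ _, (μ.withDensity fun w => ENNReal.ofReal (Φ w)) A ∂P T₀ z := by
          refine lintegral_mono fun w => ?_
          by_cases hw : w ∈ G
          · simp only [R₁, if_pos hw]; exact (hRG w hw).2.2 A
          · simp [R₁, if_neg hw]
      _ = _ := by simp [h.prob T₀ hT₀.le z]
  set e := min η 1 with he
  have he0 : 0 < e := lt_min hη one_pos
  have he1 : e ≤ 1 := min_le_right _ _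
  have hmass : ∀ z ∈ S, ENNReal.ofReal (1 - (1 - e ^ 2)) ≤ R₂ z univ := by
    intro z hz
    rw [Measure.bind_apply MeasurableSet.univ hR₁.aemeasurable, sub_sub_cancel, sq,
      ENNReal.ofReal_mul he0.le]
    have he2 : ENNReal.ofReal e ≤ ENNReal.ofReal η := ENNReal.ofReal_le_ofReal (min_le_left _ _)
    calc _ ≤ ENNReal.ofReal η * P T₀ z G := mul_le_mul' he2 (he2.trans (hgood z hz))
      _ = ∫⁻ _ in G, ENNReal.ofReal η ∂P T₀ z := by rw [setLIntegral_const]
      _ ≤ ∫⁻ w in G, R₁ w univ ∂P T₀ z := setLIntegral_mono' hG fun w hw => by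
          simp only [R₁, if_pos hw]; exact (hRG w hw).1
      _ ≤ _ := setLIntegral_le_lintegral _ _
  obtain ⟨Ct, κ, hCt, hκ, htail⟩ := tail B
  set a := min (min (e ^ 2) κ) (min (lam * T) 1) with ha
  have ha0 : 0 < a := lt_min (lt_min (by positivity) hκ) (lt_min (by positivity) one_pos)
  have ha1 : a ≤ e ^ 2 := (min_le_left _ _).trans (min_le_left _ _)
  have ha2 : a ≤ κ := (min_le_left _ _).trans (min_le_right _ _)
  have ha3 : a ≤ lam * T := (min_le_right _ _).trans (min_le_left _ _)
  have ha4 : a ≤ 1 := (min_le_right _ _).trans (min_le_right _ _)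
  clear_value a
  obtain ⟨cp, hcp0, hcp⟩ := poly_le_exp (half_pos ha0) 2
  refine ⟨a / (2 * T), by positivity, fun p hp hpV hkl => ?_⟩
  have hac : p ≪ μ := (InformationTheory.klDiv_ne_top_iff.mp hkl).1
  have hgV : Measurable fun w => ENNReal.ofReal (V w) := ENNReal.measurable_ofReal.comp h.measV
  set v := (∫⁻ z, ENNReal.ofReal (V z) ∂p).toReal with hv
  have hv0 : 0 ≤ v := ENNReal.toReal_nonneg
  have hv1 : ∫⁻ z, ENNReal.ofReal (V z) ∂p = ENNReal.ofReal v := (ENNReal.ofReal_toReal hpV).symm
  set k := (InformationTheory.klDiv p μ).toReal with hk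
  have hk0 : 0 ≤ k := ENNReal.toReal_nonneg
  have hk1 : InformationTheory.klDiv p μ = ENNReal.ofReal k := (ENNReal.ofReal_toReal hkl).symm
  clear_value v k
  have hSμ : ∀ᵐ z ∂μ, z ∈ S := h.muS
  have hSp : ∀ᵐ z ∂p, z ∈ S := hac.ae_le hSμ
  have hprob : ∀ n, IsProbabilityMeasure (iter (P T) p n) :=
    Young.iter_univ (h.meas T) (h.prob T hT.le) p
  have hsucc : ∀ n : ℕ, iter (P T) p (n + 1) = p.bind (P (n * T + T)) := fun n =>
    (bind_eq h hT.le p n T hT.le).symm
  have hV : ∀ n, ∫⁻ z, ENNReal.ofReal (V z) ∂iter (P T) p n ≤ ENNReal.ofReal (v + b) := by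
    intro n
    cases n with
    | zero => rw [iter, hv1]; exact ENNReal.ofReal_le_ofReal (by linarith)
    | succ n =>
      have hn : 0 ≤ n * T + T := by positivity
      rw [hsucc, Measure.lintegral_bind (h.meas _).aemeasurable hgV.aemeasurable,
        ENNReal.ofReal_add hv0 hb, ← hv1]
      calc _ ≤ ∫⁻ z, ENNReal.ofReal (V z) + ENNReal.ofReal b ∂p := by
            refine lintegral_mono_ae ?_
            filter_upwards [hSp] with z hz
            refine (h.lyap _ hn z hz).trans ?_
            rw [← ENNReal.ofReal_add (h.V_nonneg z) hb]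
            refine ENNReal.ofReal_le_ofReal ?_
            have : Real.exp (-c * (n * T + T)) ≤ 1 :=
              Real.exp_le_one_iff.mpr (by nlinarith [h.c_pos])
            nlinarith [h.V_nonneg z]
        _ = _ := by rw [lintegral_add_right _ measurable_const]; simp
  obtain ⟨hVi, hVv⟩ := Harris.int_V h.measV h.V_nonneg hv0 hv1.le
  set D := |C| * (1 + v) + 1 with hD
  have hD1 : 1 ≤ D := by have : 0 ≤ |C| * (1 + v) := by positivity
                         linarith
  have hTV : ∀ n : ℕ, ∀ A, MeasurableSet A →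
      |(iter (P T) p n).real A - μ.real A| ≤ D * Real.exp (-a * n) := by
    intro n A hA
    cases n with
    | zero =>
      have e1 : p.real A ≤ 1 := measureReal_le_one
      have e2 : μ.real A ≤ 1 := measureReal_le_one
      have e3 : 0 ≤ p.real A := measureReal_nonneg
      have e4 : 0 ≤ μ.real A := measureReal_nonneg
      simp only [iter, Nat.cast_zero, mul_zero, Real.exp_zero, mul_one]
      exact abs_le.mpr ⟨by linarith, by linarith⟩
    | succ n =>
      have hn : 0 ≤ n * T + T := by positivity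
      have hi : Integrable (fun z => (P (n * T + T) z).real A) p := by
        refine Integrable.of_bound (meas_coe (h.meas _) hA).ennreal_toReal.aestronglyMeasurable 1
          (ae_of_all _ fun z => ?_)
        have : IsProbabilityMeasure (P (n * T + T) z) := ⟨h.prob _ hn z⟩
        rw [Real.norm_of_nonneg measureReal_nonneg]; exact measureReal_le_one
      have e1 : (iter (P T) p (n + 1)).real A - μ.real A =
          ∫ z, ((P (n * T + T) z).real A - μ.real A) ∂p := by
        rw [hsucc, Harris.real_bind (h.meas _) (h.prob _ hn) hA, integral_sub hi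
          (integrable_const _)]
        simp
      have e2 : Real.exp (-lam * (n * T + T)) ≤ Real.exp (-a * (n + 1 : ℕ)) := by
        refine Real.exp_le_exp.mpr ?_
        push_cast
        nlinarith [mul_le_mul_of_nonneg_right ha3 (Nat.cast_nonneg (α := ℝ) n)]
      have e3 := Real.exp_pos (-a * (n + 1 : ℕ))
      rw [e1]
      calc _ ≤ ∫ z, |C| * Real.exp (-a * (n + 1 : ℕ)) * (1 + V z) ∂p := by
            rw [← Real.norm_eq_abs]
            refine norm_integral_le_of_norm_le (((integrable_const _).add hVi).const_mul _) ?_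
            filter_upwards [hSp] with z hz
            refine (hgeo _ hn z hz A hA).trans ?_
            have := h.V_nonneg z
            have := Real.exp_pos (-lam * (n * T + T))
            gcongr
            exact le_abs_self C
        _ = |C| * Real.exp (-a * (n + 1 : ℕ)) * (1 + ∫ z, V z ∂p) := by
            rw [integral_const_mul, integral_add (integrable_const _) hVi]; simp
        _ ≤ |C| * Real.exp (-a * (n + 1 : ℕ)) * (1 + v) := by gcongr
        _ ≤ _ := by rw [hD]; nlinarith
  set ρ₀ := Ct * (1 + (v + b)) with hρ₀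
  have hρ₀0 : 0 ≤ ρ₀ := by positivity
  have hKL : ∀ n : ℕ, InformationTheory.klDiv (iter (P T) p n) μ ≤ ENNReal.ofReal
      ((4 * D + 2 * (k + 1) + 2 * ρ₀ + 2) * ((1 + n) ^ 2 * Real.exp (-a * n))) := by
    intro n
    have hn : (0 : ℝ) ≤ n := Nat.cast_nonneg n
    have hx := Real.exp_pos (-a * n)
    obtain ⟨g, hg, hg0, hg1, hg2⟩ := h2 E μ (iter (P T) p n) (2 * (n : ℝ) ^ 2) _ hμ (hprob n)
      (iter_ac h hT.le hac n) (by positivity) (hTV n)
    have hρ : ∀ j, ∫⁻ w, ENNReal.ofReal (Real.log (Φ w) - (n : ℝ) ^ 2) ∂iter (P T) p j ≤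
        ENNReal.ofReal (ρ₀ * Real.exp (-a * n)) := by
      intro j
      have := hprob j
      have e1 : Real.exp (-κ * n) ≤ Real.exp (-a * n) := Real.exp_le_exp.mpr (by nlinarith)
      calc _ ≤ ∫⁻ w, ENNReal.ofReal (Ct * Real.exp (-a * n)) * (1 + ENNReal.ofReal (V w))
            ∂iter (P T) p j := by
            refine lintegral_mono_ae ?_
            filter_upwards [(iter_ac h hT.le hac j).ae_le hSμ] with w hw
            have hw0 := h.V_nonneg w
            rw [← ENNReal.ofReal_one, ← ENNReal.ofReal_add zero_le_one hw0,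
              ← ENNReal.ofReal_mul (by positivity)]
            refine ENNReal.ofReal_le_ofReal ?_
            have e2 := htail n _ (Real.log_nonneg (show 1 ≤ 1 + V w by linarith))
            rw [Real.exp_log (by linarith)] at e2
            have e3 : Ct * Real.exp (-κ * n) * (1 + V w) ≤ Ct * Real.exp (-a * n) * (1 + V w) := by
              gcongr
            linarith [hlog w hw]
        _ ≤ ENNReal.ofReal (Ct * Real.exp (-a * n)) * (1 + ENNReal.ofReal (v + b)) := by
            rw [lintegral_const_mul _ (hgV.const_add 1), lintegral_add_left measurable_const]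
            simp only [lintegral_const, measure_univ, mul_one]
            gcongr
            exact hV j
        _ = _ := by
            rw [← ENNReal.ofReal_one, ← ENNReal.ofReal_add zero_le_one (by linarith),
              ← ENNReal.ofReal_mul (by positivity)]
            congr 1; rw [hρ₀]; ring
    have hy := h1 E (P T) R₂ μ p S Φ g (1 - e ^ 2) ((n : ℝ) ^ 2) _ n (h.meas T) hR₂
      (h.prob T hT.le) hμ hp (h.inv T hT.le) h.measS h.muS hac hRK hRΦ (by nlinarith)
      (by nlinarith) hmass hΦ hΦ0 hg hg0 (by positivity) hρ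
    have e1 : (1 - e ^ 2) ^ n ≤ Real.exp (-a * n) := by
      rw [mul_comm, Real.exp_nat_mul]
      refine pow_le_pow_left₀ (by nlinarith) ?_ n
      linarith [Real.add_one_le_exp (-a)]
    have e2 : Real.exp ((n : ℝ) ^ 2) * Real.exp (-(2 * (n : ℝ) ^ 2)) ≤ Real.exp (-a * n) := by
      rw [← Real.exp_add]
      refine Real.exp_le_exp.mpr ?_
      have : (n : ℝ) ≤ (n : ℝ) ^ 2 := by exact_mod_cast Nat.le_self_pow two_ne_zero n
      nlinarith
    have hy2 : ∫⁻ w, ENNReal.ofReal (g w) ∂iter (P T) p n ≤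
        ENNReal.ofReal ((k + 1 + n * ρ₀ + (n + 1)) * Real.exp (-a * n)) := by
      refine hy.trans ?_
      have f1 : ENNReal.ofReal ((1 - e ^ 2) ^ n) * (InformationTheory.klDiv p μ + 1) ≤
          ENNReal.ofReal ((k + 1) * Real.exp (-a * n)) := by
        rw [hk1, mul_comm (k + 1), ENNReal.ofReal_mul hx.le, ENNReal.ofReal_add hk0 zero_le_one,
          ENNReal.ofReal_one]
        gcongr
      have f2 : (n : ℝ≥0∞) * ENNReal.ofReal (ρ₀ * Real.exp (-a * n)) =
          ENNReal.ofReal (n * ρ₀ * Real.exp (-a * n)) := by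
        rw [mul_assoc (n : ℝ), ENNReal.ofReal_mul hn, ENNReal.ofReal_natCast]
      have f3 : ((n : ℝ≥0∞) + 1) * ENNReal.ofReal (Real.exp ((n : ℝ) ^ 2)) *
          ∫⁻ w, ENNReal.ofReal (Real.exp (g w) - 1) ∂μ ≤
          ENNReal.ofReal ((n + 1) * Real.exp (-a * n)) := by
        rw [ENNReal.ofReal_mul (by positivity), ENNReal.ofReal_add hn zero_le_one,
          ENNReal.ofReal_natCast, ENNReal.ofReal_one, mul_assoc]
        refine mul_le_mul_right ((mul_le_mul_right hg1 _).trans ?_) _
        rw [← ENNReal.ofReal_mul (Real.exp_nonneg _)]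
        exact ENNReal.ofReal_le_ofReal e2
      rw [f2]
      refine (add_le_add (add_le_add f1 le_rfl) f3).trans ?_
      rw [← ENNReal.ofReal_add (by positivity) (by positivity),
        ← ENNReal.ofReal_add (by positivity) (by positivity)]
      exact le_of_eq (by congr 1; ring)
    refine hg2.trans ((add_le_add_right (mul_le_mul_right hy2 _) _).trans ?_)
    rw [← ENNReal.ofReal_ofNat 2, ← ENNReal.ofReal_mul zero_le_two,
      ← ENNReal.ofReal_add (by positivity) (by positivity)]
    refine ENNReal.ofReal_le_ofReal ?_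
    have e3 : (1 + 2 * (2 * (n : ℝ) ^ 2)) * D + 2 * (k + 1 + n * ρ₀ + (n + 1)) ≤
        (4 * D + 2 * (k + 1) + 2 * ρ₀ + 2) * (1 + n) ^ 2 := by
      have := mul_nonneg hn hn
      have hD0 : 0 ≤ D := by linarith
      nlinarith [mul_nonneg hD0 hn, mul_nonneg hk0 hn, mul_nonneg hk0 this, mul_nonneg hρ₀0 hn,
        mul_nonneg hρ₀0 this]
    nlinarith [mul_le_mul_of_nonneg_right e3 hx.le]
  refine ⟨(4 * D + 2 * (k + 1) + 2 * ρ₀ + 2) * (cp * Real.exp (a / 2)), fun t ht => ?_⟩
  set n := ⌊t / T⌋₊ with hn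
  have hn1 : (n : ℝ) ≤ t / T := Nat.floor_le (div_nonneg ht hT.le)
  have hn2 : t / T < n + 1 := Nat.lt_floor_add_one _
  have hr : 0 ≤ t - n * T := by rw [le_div_iff₀ hT] at hn1; linarith
  have e1 := bind_eq h hT.le p n _ hr
  rw [add_sub_cancel] at e1
  have := hprob n
  rw [e1]
  refine (dpi h hr _).trans ((hKL n).trans (ENNReal.ofReal_le_ofReal ?_))
  rw [mul_assoc]
  refine mul_le_mul_of_nonneg_left ?_ (by positivity)
  refine (mul_le_mul_of_nonneg_right (hcp n (Nat.cast_nonneg n)) (Real.exp_nonneg _)).trans ?_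
  rw [mul_assoc, mul_assoc, ← Real.exp_add, ← Real.exp_add]
  refine mul_le_mul_of_nonneg_left (Real.exp_le_exp.mpr ?_) hcp0
  have : -(a / (2 * T)) * t = -(a / 2) * (t / T) := by field_simp
  rw [this]
  nlinarith

end Pool.Agent.Lib.MP_2024f4_pr.TR.Ent
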