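import Mathlib
import Pool.Agent.Lib.MP_2024f4_pr.TR.St

set_option autoImplicit false

open MeasureTheory ProbabilityTheory Set Filter Topology Real

namespace Pool.Agent.Lib.MP_2024f4_pr.TR.Hess

variable {d : ℕ} {U : Euc d → ℝ} {M : ℝ}

lemma inner_grad (U : Euc d → ℝ) (x v : Euc d) : inner ℝ v (gradient U x) = fderiv ℝ U x v := by
  rw [real_inner_comm, inner_gradient_left]

lemma line (x v : Euc d) : HasDerivAt (fun s : ℝ => x + s • v) v 0 := by
  simpa using ((hasDerivAt_id (0 : ℝ)).smul_const v).const_add x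

theorem hess : sHess := by
  intro d U hU
  obtain ⟨M, hM⟩ := hU.2.2
  have d1 : Differentiable ℝ U := hU.1.differentiable (by simp)
  have d2 : Differentiable ℝ (fderiv ℝ U) :=
    (hU.1.fderiv_right (m := 1) le_rfl).differentiable (by simp)
  have b2 : ∀ y, ‖fderiv ℝ (fderiv ℝ U) y‖ ≤ max 1 M := fun y => by
    rw [← norm_iteratedFDeriv_one, norm_iteratedFDeriv_fderiv]
    exact (hM y).trans (le_max_right _ _)
  have l : ∀ x y, ‖fderiv ℝ U x - fderiv ℝ U y‖ ≤ max 1 M * ‖x - y‖ := fun x y =>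
    convex_univ.norm_image_sub_le_of_norm_fderiv_le (𝕜 := ℝ) (fun y _ => d2 y) (fun y _ => b2 y)
      (mem_univ y) (mem_univ x)
  have m0 : 0 ≤ max 1 M := le_max_of_le_left zero_le_one
  refine ⟨max 1 M, le_max_left _ _, hU.continuous_gradient, fun x y => ?_, fun x y => ?_,
    fun x v => ?_, fun x v u => ⟨fderiv ℝ (fderiv ℝ U) x v u, ?_, ?_⟩⟩
  · rw [gradient, gradient, ← map_sub, LinearIsometryEquiv.norm_map]
    exact l x y
  · have := (convex_closedBall x ‖y‖).norm_image_sub_le_of_norm_fderiv_le' (𝕜 := ℝ) (f := U)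
      (φ := fderiv ℝ U x) (C := max 1 M * ‖y‖) (y := x + y) (fun y _ => d1 y)
      (fun z hz => (l z x).trans (mul_le_mul_of_nonneg_left (mem_closedBall_iff_norm.1 hz) m0))
      (Metric.mem_closedBall_self (norm_nonneg y)) (by simp)
    rw [add_sub_cancel_left, norm_eq_abs] at this
    rw [inner_grad]
    linarith
  · rw [inner_grad]
    exact (d1 x).hasFDerivAt.comp_hasDerivAt_of_eq 0 (line x v) (by simp)
  · simp only [inner_grad]
    have := (d2 x).hasFDerivAt.comp_hasDerivAt_of_eq 0 (line x v) (by simp)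
    simpa using this.clm_apply (hasDerivAt_const (0 : ℝ) u)
  · calc _ ≤ ‖fderiv ℝ (fderiv ℝ U) x v‖ * ‖u‖ := ContinuousLinearMap.le_opNorm _ _
      _ ≤ max 1 M * ‖v‖ * ‖u‖ := by
          gcongr
          exact ContinuousLinearMap.le_of_opNorm_le _ (b2 x) v
      _ = _ := by ring

lemma ball_bound (hU : Standing U) (h : Hess U M) (ρ : ℝ) (x : Euc d) (hx : ρ + 1 ≤ ‖x‖) :
    volume.real (Metric.closedBall (0 : Euc d) 1) * exp (-U x - M) ≤
      2 * ∫ z in {z : Euc d | ρ ≤ ‖z‖}, exp (-U z) := by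
  have ms : MeasurableSet {z : Euc d | ρ ≤ ‖z‖} := measurableSet_le measurable_const measurable_norm
  set F := {z : Euc d | ρ ≤ ‖z‖}.indicator fun z => exp (-U z) with hF
  have i : Integrable F := hU.2.1.indicator ms
  have F0 : ∀ z, 0 ≤ F z := fun z => indicator_nonneg (fun _ _ => (exp_pos _).le) z
  have M0 : 0 ≤ M := zero_le_one.trans h.one_le
  have k : ∀ y : Euc d, ‖y‖ ≤ 1 → inner ℝ y (gradient U x) ≤ 0 → exp (-U x - M) ≤ F (x + y) := by
    intro y hy hg
    have a := (abs_le.1 (h.taylor x y)).2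
    have b : ‖x‖ - ‖-y‖ ≤ ‖x - -y‖ := norm_sub_norm_le _ _
    rw [norm_neg, sub_neg_eq_add] at b
    have m : x + y ∈ {z : Euc d | ρ ≤ ‖z‖} := show ρ ≤ ‖x + y‖ by linarith
    rw [hF, indicator_of_mem m, exp_le_exp]
    have : M * ‖y‖ ^ 2 ≤ M := mul_le_of_le_one_right M0 (pow_le_one₀ (norm_nonneg _) hy)
    linarith
  rw [← integral_indicator ms, ← hF, ← smul_eq_mul, ← setIntegral_const,
    ← integral_indicator measurableSet_closedBall, two_mul]
  conv_rhs => rw [← integral_add_left_eq_self F x]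
  conv_rhs => congr; rfl; rw [integral_add_left_eq_self F x, ← integral_sub_left_eq_self F _ x]
  rw [← integral_add (i.comp_add_left x) (i.comp_sub_left x)]
  refine integral_mono_of_nonneg (ae_of_all _ fun y =>
    indicator_nonneg (fun _ _ => (exp_pos _).le) y) ((i.comp_add_left x).add (i.comp_sub_left x))
    (ae_of_all _ fun y => ?_)
  refine indicator_le' (fun y hy => ?_) (fun y _ => add_nonneg (F0 _) (F0 _)) y
  rw [mem_closedBall_zero_iff] at hy
  show _ ≤ F (x + y) + F (x - y)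
  rcases le_total (inner ℝ y (gradient U x)) 0 with c | c
  · linarith [k y hy c, F0 (x - y)]
  · have := k (-y) (by rwa [norm_neg]) (by rw [inner_neg_left]; linarith)
    rw [← sub_eq_add_neg] at this
    linarith [F0 (x + y)]

lemma vol_pos (d : ℕ) : 0 < volume.real (Metric.closedBall (0 : Euc d) 1) :=
  ENNReal.toReal_pos (Metric.measure_closedBall_pos _ _ one_pos).ne' measure_closedBall_lt_top.ne

lemma lower (hU : Standing U) (h : Hess U M) : ∃ C₀ : ℝ, ∀ x, 1 ≤ U x + C₀ := by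
  refine ⟨M + 2 * (∫ z in {z : Euc d | -1 ≤ ‖z‖}, exp (-U z)) /
    volume.real (Metric.closedBall (0 : Euc d) 1), fun x => ?_⟩
  have a := ball_bound hU h (-1) x (by simp)
  rw [mul_comm, ← le_div_iff₀ (vol_pos d)] at a
  have := add_one_le_exp (-U x - M)
  linarith

lemma coercive (hU : Standing U) (h : Hess U M) (R : ℝ) :
    ∃ ρ : ℝ, 0 ≤ ρ ∧ ∀ x, U x ≤ R → ‖x‖ ≤ ρ := by
  have t := tendsto_setIntegral_of_antitone (μ := volume) (f := fun z => exp (-U z))
    (s := fun n : ℕ => {z : Euc d | (n : ℝ) ≤ ‖z‖})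
    (fun n => measurableSet_le measurable_const measurable_norm)
    (fun a b hab z (hz : (b : ℝ) ≤ _) => (Nat.cast_le.2 hab).trans hz) ⟨0, hU.2.1.integrableOn⟩
  have e : ⋂ n : ℕ, {z : Euc d | (n : ℝ) ≤ ‖z‖} = ∅ := eq_empty_of_forall_notMem fun z hz => by
    obtain ⟨n, hn⟩ := exists_nat_gt ‖z‖
    exact hn.not_ge (mem_iInter.1 hz n)
  rw [e, setIntegral_empty] at t
  have v := vol_pos d
  obtain ⟨n, hn⟩ := (t.eventually (gt_mem_nhds (show 0 <
    volume.real (Metric.closedBall (0 : Euc d) 1) * exp (-R - M) / 2 by positivity))).exists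
  refine ⟨n + 1, by positivity, fun x hx => not_lt.1 fun c => ?_⟩
  have a := ball_bound hU h n x c.le
  have b := mul_le_mul_of_nonneg_left (exp_le_exp.2 (show -R - M ≤ -U x - M by linarith)) v.le
  linarith

theorem pot (h : sPL) : sPot := by
  intro d U hU hL
  obtain ⟨M, hM⟩ := hess d U hU
  obtain ⟨B, B0, hB⟩ := h d U M hU hM hL
  obtain ⟨C, hC⟩ := lower hU hM
  obtain ⟨G, G0, hG⟩ := hU.growth
  have M1 := hM.one_le
  have cU : Continuous U := hU.1.continuous
  have w1 : ∀ x, 1 ≤ √(U x + C) := fun x => one_le_sqrt.2 (hC x)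
  have w2 : ∀ x, √(U x + C) ^ 2 = U x + C := fun x => sq_sqrt (by linarith [hC x])
  have C0 := abs_nonneg C
  have C1 := le_abs_self C
  refine ⟨fun x => √(U x + C), M, C, 1 / (8 * B + 1), M + G + |C|, 2 * (B + |C|), hM, cU,
    by fun_prop, w1, w2, by positivity, by linarith, fun x => ?_, fun x hx => ?_, fun x => ?_,
    fun R => ?_, fun x v => ?_⟩
  · have a := (abs_le.1 (hM.taylor x (-(2 * M)⁻¹ • gradient U x))).2
    have b := hC (x + -(2 * M)⁻¹ • gradient U x)
    rw [real_inner_smul_left, real_inner_self_eq_norm_sq, norm_smul, mul_pow, norm_eq_abs,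
      sq_abs] at a
    have e : M * ((-(2 * M)⁻¹) ^ 2 * ‖gradient U x‖ ^ 2) + -(2 * M)⁻¹ * ‖gradient U x‖ ^ 2 =
        -(‖gradient U x‖ ^ 2 / (4 * M)) := by
      field_simp
      ring
    have c : ‖gradient U x‖ ^ 2 / (4 * M) ≤ √(U x + C) ^ 2 := by
      rw [w2]
      linarith
    rw [div_le_iff₀ (by positivity)] at c
    have := w1 x
    refine le_trans (abs_le_of_sq_le_sq' (b := 2 * M * √(U x + C)) ?_ (by positivity)).2 ?_
    · nlinarith [mul_nonneg (sq_nonneg √(U x + C)) (show 0 ≤ M * (M - 1) by nlinarith)]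
    · gcongr
      linarith
  · have a := hB x
    have b := w1 x
    have c := w2 x
    generalize √(U x + C) = w at *
    rw [mul_one_div, div_mul_eq_mul_div, div_le_iff₀ (by positivity)]
    refine (abs_le_of_sq_le_sq' ?_ (by positivity)).2
    have e : w ^ 2 ≤ 2 * B * ‖gradient U x‖ ^ 2 := by nlinarith
    nlinarith [mul_nonneg (sq_nonneg ‖gradient U x‖) (show 0 ≤ (8 * B + 1) ^ 2 - 8 * B by nlinarith)]
  · have a := (abs_le.1 (hG x)).2
    have n : 1 ≤ (1 + ‖x‖) ^ 2 := one_le_pow₀ (by linarith [norm_nonneg x])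
    refine sqrt_le_iff.2 ⟨by positivity, ?_⟩
    have b : G + |C| ≤ (M + G + |C|) ^ 2 := by nlinarith
    rw [mul_pow]
    nlinarith
  · obtain ⟨ρ, r0, hρ⟩ := coercive hU hM (R ^ 2 - C)
    refine ⟨ρ, r0, fun x hx => hρ x ?_⟩
    have := pow_le_pow_left₀ (sqrt_nonneg _) hx 2
    linarith [w2 x]
  · have := ((hM.der1 x v).add_const C).sqrt (by simpa using (zero_lt_one.trans_le (hC x)).ne')
    simpa using this

end Pool.Agent.Lib.MP_2024f4_pr.TR.Hess
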