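import Mathlib
import Pool.Agent.Lib.MP_2024f4_pr.TR.St

set_option autoImplicit false

open MeasureTheory ProbabilityTheory Set
open scoped ENNReal

namespace Pool.Agent.Lib.MP_2024f4_pr.TR.Inv

variable {d : ℕ}

lemma der {U : Euc d → ℝ} (hU : Standing U) (x v : Euc d) (s : ℝ) :
    HasDerivAt (fun s : ℝ => U (x + s • v)) (inner ℝ v (gradient U (x + s • v))) s := by
  have h1 : HasDerivAt (fun s : ℝ => x + s • v) v s := by
    simpa using ((hasDerivAt_id s).smul_const v).const_add x
  have h2 := (hU.1.differentiable (by simp) (x + s • v)).hasGradientAt.hasFDerivAt.comp_hasDerivAt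
    s h1
  rw [real_inner_comm]
  exact h2

lemma back (r : St d → ℝ) (z : St d) (t : ℝ) :
    ∫ s in (0 : ℝ)..t, r (flow (-s) z) = Lam r (flow (-t) z) t := by
  have := intervalIntegral.integral_comp_sub_left (a := 0) (b := t)
    (fun u => r (flow u (flow (-t) z))) t
  rw [sub_self, sub_zero] at this
  rw [Lam, ← this]
  simp only [flow_flow]
  congr 1
  funext s
  congr 2
  ring

lemma second {U : Euc d → ℝ} (hU : Standing U) {N : St d → Measure (St d)} {r r' : St d → ℝ}
    (h : Reg N r) (hc : Continuous r') (e : ∀ z, r z - r' z = inner ℝ z.2 (gradient U z.1))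
    (ν : Measure (Euc d)) [IsProbabilityMeasure ν] (t : ℝ) {g : St d → ℝ≥0∞}
    (hg : Measurable g) :
    ∫⁻ z, surv N z t * g (flow t z) ∂(target U).prod ν ≤
      ∫⁻ z, ENNReal.ofReal (Real.exp (-∫ s in (0 : ℝ)..t, r' (flow (-s) z))) * g z
        ∂(target U).prod ν := by
  have := hU.isProb
  have m1 : Measurable fun z : St d => surv N z t * g (flow t z) :=
    (meas_comp2 (surv N) h.measurable_surv measurable_id measurable_const).mul
      (hg.comp (measurable_flow t))
  have m2 : Measurable fun z : St d =>
      ENNReal.ofReal (Real.exp (-Lam r' (flow (-t) z) t)) * g z :=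
    (ENNReal.measurable_ofReal.comp (Real.measurable_exp.comp (meas_comp2 (Lam r')
      (continuous_Lam hc).measurable (measurable_flow _) measurable_const).neg)).mul hg
  simp only [back]
  rw [lintegral_prod_symm _ m1.aemeasurable, lintegral_prod_symm _ m2.aemeasurable]
  refine le_of_eq (lintegral_congr fun v => ?_)
  rw [target, lintegral_tilted, lintegral_tilted]
  refine Eq.trans ?_ (lintegral_add_right_eq_self _ (t • v))
  refine lintegral_congr fun x => ?_
  have f1 : flow (-t) ((x + t • v, v) : St d) = (x, v) := by simp [flow]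
  have f2 : Lam r (x, v) t - Lam r' (x, v) t = U (x + t • v) - U x := by
    rw [Lam, Lam, ← intervalIntegral.integral_sub ((cont_rate h.cont _).intervalIntegrable _ _)
      ((cont_rate hc _).intervalIntegrable _ _)]
    simp only [e, flow]
    have c : Continuous fun s : ℝ => inner ℝ v (gradient U (x + s • v)) :=
      continuous_const.inner (hU.continuous_gradient.comp (by fun_prop))
    rw [intervalIntegral.integral_eq_sub_of_hasDerivAt (fun s _ => der hU x v s)
      (c.intervalIntegrable _ _)]
    simp
  rw [f1, h.surv_eq, ← mul_assoc, ← mul_assoc, ← ENNReal.ofReal_mul' (Real.exp_nonneg _),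
    ← ENNReal.ofReal_mul' (Real.exp_nonneg _), div_mul_eq_mul_div, div_mul_eq_mul_div,
    ← Real.exp_add, ← Real.exp_add]
  congr 4
  linarith

lemma first {N : St d → Measure (St d)} {r r' : St d → ℝ} (h : Reg N r) (hc : Continuous r')
    (p ν : Measure (Euc d)) [IsProbabilityMeasure ν] {g : St d → ℝ≥0∞} (hg : Measurable g)
    (e : ∀ x, ∫⁻ v, (∫⁻ w, g w ∂N (x, v)) ∂ν = ∫⁻ v, ENNReal.ofReal (r' (x, v)) * g (x, v) ∂ν) :
    ∫⁻ z, (∫⁻ w, g w ∂N z) ∂p.prod ν ≤ ∫⁻ z, ENNReal.ofReal (r' z) * g z ∂p.prod ν := by
  have m : Measurable fun z => ENNReal.ofReal (r' z) * g z :=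
    (ENNReal.measurable_ofReal.comp hc.measurable).mul hg
  rw [lintegral_prod _ (meas_lint h.meas hg).aemeasurable, lintegral_prod _ m.aemeasurable]
  exact le_of_eq (lintegral_congr e)

lemma flip_self (i : Fin d) (v : Euc d) : flip i v i = -v i := by
  simp [flip]
  ring

lemma flip_ne {i j : Fin d} (h : j ≠ i) (v : Euc d) : flip i v j = v j := by simp [flip, h]

lemma flip_flip (i : Fin d) (v : Euc d) : flip i (flip i v) = v := by
  ext j
  by_cases h : j = i
  · subst h
    rw [flip_self, flip_self, neg_neg]
  · rw [flip_ne h, flip_ne h]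

lemma cont_flip (i : Fin d) : Continuous (flip i : Euc d → Euc d) := by
  have : (flip i : Euc d → Euc d) =
      fun v => v - (2 * v i) • (EuclideanSpace.single i (1 : ℝ) : Euc d) := by
    funext v
    ext j
    by_cases h : j = i <;> simp [flip, h]
  rw [this]
  fun_prop

lemma mp_flip (i : Fin d) : MeasurePreserving (flip i) (signs d) (signs d) := by
  refine ⟨(cont_flip i).measurable, Measure.ext fun A hA => ?_⟩
  have hs : MeasurableSet {v : Euc d | ∀ i, v i = 1 ∨ v i = -1} := by
    rw [ofPred_forall]
    exact MeasurableSet.iInter fun j =>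
      ((isClosed_eq (by fun_prop) continuous_const).union
        (isClosed_eq (by fun_prop) continuous_const)).measurableSet
  have k : ∀ v : Euc d, (∀ j, v j = 1 ∨ v j = -1) → ∀ j, flip i v j = 1 ∨ flip i v j = -1 :=
    fun v hv j => by
      by_cases h : j = i
      · subst h
        rw [flip_self]
        rcases hv j with a | a <;> simp [a]
      · rw [flip_ne h]
        exact hv j
  have e : {v : Euc d | ∀ i, v i = 1 ∨ v i = -1} ∩ A =
      flip i '' ({v : Euc d | ∀ i, v i = 1 ∨ v i = -1} ∩ flip i ⁻¹' A) := by
    ext v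
    constructor
    · rintro ⟨a, b⟩
      exact ⟨flip i v, ⟨k v a, by rwa [mem_preimage, flip_flip]⟩, flip_flip i v⟩
    · rintro ⟨w, ⟨a, b⟩, rfl⟩
      exact ⟨k w a, b⟩
  rw [Measure.map_apply (cont_flip i).measurable hA, signs, uniformOn, cond_apply hs,
    cond_apply hs, e, Measure.count_injective_image (Function.Involutive.injective (flip_flip i))]

lemma mp_reflect (g : Euc d) :
    MeasurePreserving (reflect g) (stdGaussian (Euc d)) (stdGaussian (Euc d)) := by
  have e : (reflect g : Euc d → Euc d) =
      ⇑((ℝ ∙ g).reflection.trans (LinearIsometryEquiv.neg ℝ)) := by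
    funext v
    simp only [LinearIsometryEquiv.trans_apply, Submodule.reflection_singleton_apply,
      LinearIsometryEquiv.coe_neg, reflect, neg_sub]
    rw [real_inner_comm, two_smul, ← add_smul]
    congr 2
    simp only [RCLike.ofReal_real_eq_id, id]
    ring
  rw [e]
  exact ⟨(LinearIsometryEquiv.continuous _).measurable, stdGaussian_map _⟩

lemma inner_reflect (g v : Euc d) : inner ℝ (reflect g v) g = -inner ℝ v g := by
  by_cases hg : g = 0
  · simp [hg]
  have h1 : ‖g‖ ≠ 0 := norm_ne_zero_iff.mpr hg
  rw [reflect, inner_sub_left, real_inner_smul_left, real_inner_self_eq_norm_sq]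
  field_simp
  ring

lemma max_sub (a : ℝ) : max a 0 - max (-a) 0 = a := by
  rcases le_total a 0 with h | h
  · rw [max_eq_right h, max_eq_left (neg_nonneg.2 h)]
    ring
  · rw [max_eq_left h, max_eq_right (neg_nonpos.2 h)]
    ring

theorem inv (h : sInvA) : sInv := by
  intro d U hU
  have hg := hU.continuous_gradient
  have := hU.isProb
  refine ⟨fun γ hγ => ?_, fun γ hγ => ?_⟩
  · have := isProb_signs d
    have hc : ∀ i, Continuous fun z : St d => max (-(z.2 i * gradient U z.1 i)) 0 + γ i :=
      fun i => by fun_prop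
    have hn : ∀ (z : St d) i, 0 ≤ max (-(z.2 i * gradient U z.1 i)) 0 + γ i := fun z i =>
      add_nonneg (le_max_right _ _) (hγ i).le
    have hc' := continuous_finsetSum Finset.univ fun i _ => hc i
    refine h d _ _ _ _ (zigzag_reg hU hγ) (zigzag_confined hγ) inferInstance hc'
      (fun z => Finset.sum_nonneg fun i _ => hn z i)
      (fun g m => first (zigzag_reg hU hγ) hc' _ _ m fun x => ?_)
      fun t _ g m => second hU (zigzag_reg hU hγ) hc' (fun z => ?_) _ t m
    · have mi : ∀ i, Measurable fun v : Euc d =>
          ENNReal.ofReal (max (-(v i * gradient U x i)) 0 + γ i) * g (x, v) := fun i =>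
        (ENNReal.measurable_ofReal.comp ((hc i).measurable.comp measurable_prodMk_left)).mul
          (m.comp measurable_prodMk_left)
      have e1 : ∀ v : Euc d, ∫⁻ w, g w ∂zigzag U γ (x, v) = ∑ i,
          ENNReal.ofReal (max (-(flip i v i * gradient U x i)) 0 + γ i) * g (x, flip i v) :=
        fun v => by
          simp only [zigzag, lintegral_finsetSum_measure, lintegral_smul_measure, smul_eq_mul,
            lintegral_dirac' _ m, flip_self, neg_mul, neg_neg]
      have e2 : ∀ v : Euc d, ENNReal.ofReal (∑ i, (max (-(v i * gradient U x i)) 0 + γ i)) *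
          g (x, v) = ∑ i, ENNReal.ofReal (max (-(v i * gradient U x i)) 0 + γ i) * g (x, v) :=
        fun v => by
          rw [ENNReal.ofReal_sum_of_nonneg fun i _ => hn (x, v) i, Finset.sum_mul]
      simp only [e1, e2]
      rw [lintegral_finsetSum _ fun i _ => mi i]
      exact (lintegral_finsetSum _ fun i _ => (mi i).comp (cont_flip i).measurable).trans
        (Finset.sum_congr rfl fun i _ => (mp_flip i).lintegral_comp (mi i))
    · rw [← Finset.sum_sub_distrib, PiLp.inner_apply]
      refine Finset.sum_congr rfl fun i _ => ?_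
      rw [add_sub_add_right_eq_sub, max_sub]
      simp [mul_comm]
  · have hc0 : Continuous fun z : St d => max (-inner ℝ z.2 (gradient U z.1)) (0 : ℝ) :=
      (continuous_snd.inner (hg.comp continuous_fst)).neg.max continuous_const
    have hc := hc0.add (continuous_const (y := γ))
    refine h d _ _ _ _ (bps_reg hU hγ) (bps_confined hγ) inferInstance hc
      (fun z => add_nonneg (le_max_right _ _) hγ.le)
      (fun g m => first (bps_reg hU hγ) hc _ _ m fun x => ?_)
      fun t _ g m => second hU (bps_reg hU hγ) hc (fun z => ?_) _ t m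
    · have mx : Measurable fun v : Euc d => g (x, v) := m.comp measurable_prodMk_left
      have mi : Measurable fun v : Euc d =>
          ENNReal.ofReal (max (-inner ℝ v (gradient U x)) 0) * g (x, v) :=
        (ENNReal.measurable_ofReal.comp (hc0.measurable.comp measurable_prodMk_left)).mul mx
      have e1 : ∀ v : Euc d, ∫⁻ w, g w ∂bps U γ (x, v) =
          ENNReal.ofReal (max (-inner ℝ (reflect (gradient U x) v) (gradient U x)) 0) *
            g (x, reflect (gradient U x) v) +
              ENNReal.ofReal γ * ∫⁻ w, g (x, w) ∂stdGaussian (Euc d) := fun v => by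
        simp only [bps, lintegral_add_measure, lintegral_smul_measure, smul_eq_mul,
          lintegral_dirac' _ m, inner_reflect, neg_neg, lintegral_map m measurable_prodMk_left]
      have e2 : ∀ v : Euc d, ENNReal.ofReal (max (-inner ℝ v (gradient U x)) 0 + γ) * g (x, v) =
          ENNReal.ofReal (max (-inner ℝ v (gradient U x)) 0) * g (x, v) +
            ENNReal.ofReal γ * g (x, v) := fun v => by
        rw [ENNReal.ofReal_add (le_max_right _ _) hγ.le, add_mul]
      simp only [Pi.add_apply, e1, e2]
      rw [lintegral_add_right _ measurable_const, lintegral_add_left mi, lintegral_const,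
        measure_univ, mul_one, lintegral_const_mul _ mx,
        (mp_reflect _).lintegral_comp mi]
    · simp only [Pi.add_apply]
      rw [add_sub_add_right_eq_sub, max_sub]

end Pool.Agent.Lib.MP_2024f4_pr.TR.Inv
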