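import Mathlib
import Pool.Agent.Lib.MP_2024f4_pr.TR.St

set_option autoImplicit false

open MeasureTheory ProbabilityTheory Set
open scoped ENNReal

namespace Pool.Agent.Lib.MP_2024f4_pr.TR.Lyap

/-- a function with nonpositive derivative: the integral of minus the derivative -/
lemma lint_deriv {u u' : ℝ → ℝ} (hu : ∀ s, HasDerivAt u (u' s) s) {t : ℝ} (ht : 0 ≤ t)
    (hn : ∀ s ∈ Ioo 0 t, 0 ≤ u' s) :
    ∫⁻ s in Ioc (0 : ℝ) t, ENNReal.ofReal (u' s) = ENNReal.ofReal (u t - u 0) := by
  have hc : Continuous u := continuous_iff_continuousAt.mpr fun s => (hu s).continuousAt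
  have hi : IntegrableOn u' (Ioc 0 t) volume :=
    intervalIntegral.integrableOn_deriv_of_nonneg hc.continuousOn (fun s _ => hu s) hn
  have hi' : IntervalIntegrable u' volume 0 t :=
    (intervalIntegrable_iff_integrableOn_Ioc_of_le ht).mpr hi
  rw [← intervalIntegral.integral_eq_sub_of_hasDerivAt (fun s _ => hu s) hi',
    intervalIntegral.integral_of_le ht, ofReal_integral_eq_lintegral_ofReal hi]
  have : ∀ᵐ s ∂(volume.restrict (Ioc (0 : ℝ) t)), s ∈ Ioo (0 : ℝ) t := by
    rw [← Measure.restrict_congr_set Ioo_ae_eq_Ioc]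
    exact ae_restrict_mem measurableSet_Ioo
  filter_upwards [this] with s hs using hn s hs

theorem lyap : sLyap := by
  intro d N r V S c b h hS hV hV0 hc hb hD
  choose! D J hder hJ0 hJ hineq using hD
  have hg : Measurable fun w => ENNReal.ofReal (V w) := ENNReal.measurable_ofReal.comp hV
  have hbc : 0 ≤ b / c := div_nonneg hb hc.le
  have key := minimal h hS hg
    (fun t z => ENNReal.ofReal (Real.exp (-c * t) * V z + b / c * (1 - Real.exp (-c * t))))
    (fun t ht z hz => ?_)
  · intro t ht z hz
    refine (key t ht z hz).trans (ENNReal.ofReal_le_ofReal ?_)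
    have := Real.exp_pos (-c * t)
    nlinarith
  have hVd : ∀ s, HasDerivAt (fun s => V (flow s z)) (D (flow s z)) s := by
    intro s
    have h1 := hder _ (hS.flow z hz s)
    have h2 : HasDerivAt (fun x : ℝ => x - s) 1 s := (hasDerivAt_id s).sub_const s
    have h3 : HasDerivAt (fun x => V (flow x (flow s z))) (D (flow s z)) (s - s) := by
      rwa [sub_self]
    have h4 := HasDerivAt.comp (h := fun x : ℝ => x - s) s h3 h2
    rw [mul_one] at h4
    refine h4.congr_of_eventuallyEq (Filter.Eventually.of_forall fun x => ?_)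
    simp only [Function.comp, flow_flow, sub_add_cancel]
  let e : ℝ → ℝ := fun s => Real.exp (-c * (t - s))
  let u : ℝ → ℝ := fun s =>
    -(Real.exp (-Lam r z s) * (e s * V (flow s z) + b / c * (1 - e s)))
  let u' : ℝ → ℝ := fun s => Real.exp (-Lam r z s) *
    (r (flow s z) * (e s * V (flow s z) + b / c * (1 - e s)) -
      e s * (c * V (flow s z) + D (flow s z) - b))
  have hed : ∀ s, HasDerivAt e (e s * c) s := by
    intro s
    have := (((hasDerivAt_id s).const_sub t).const_mul (-c)).exp
    simpa [e] using this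
  have hu : ∀ s, HasDerivAt u (u' s) s := by
    intro s
    have h1 := (hasDerivAt_Lam h.cont z s).neg.exp
    have h2 := ((hed s).mul (hVd s)).add (((hed s).const_sub 1).const_mul (b / c))
    refine (h1.mul h2).neg.congr_deriv ?_
    simp only [Pi.neg_apply, Pi.add_apply, Pi.mul_apply, u']
    field_simp
    ring
  have he1 : ∀ s, s ≤ t → e s ≤ 1 := fun s hs => Real.exp_le_one_iff.mpr (by nlinarith)
  have hlow : ∀ s, s ≤ t → Real.exp (-Lam r z s) *
      (e s * J (flow s z) + r (flow s z) * (b / c * (1 - e s))) ≤ u' s := by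
    intro s _
    refine mul_le_mul_of_nonneg_left ?_ (Real.exp_nonneg _)
    have h1 := hineq _ (hS.flow z hz s)
    have h2 : 0 < e s := Real.exp_pos _
    nlinarith
  have hlow0 : ∀ s, s ≤ t → 0 ≤ e s * J (flow s z) + r (flow s z) * (b / c * (1 - e s)) := by
    intro s hs
    have h1 := hJ0 _ (hS.flow z hz s)
    have h2 : 0 < e s := Real.exp_pos _
    have h3 := h.nonneg (flow s z)
    have h4 : 0 ≤ 1 - e s := by linarith [he1 s hs]
    positivity
  have hint := lint_deriv hu ht fun s hs =>
    (mul_nonneg (Real.exp_nonneg _) (hlow0 s hs.2.le)).trans (hlow s hs.2.le)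
  have hstep : ∫⁻ s in Ioc (0 : ℝ) t, surv N z s * ∫⁻ w, ENNReal.ofReal
      (Real.exp (-c * (t - s)) * V w + b / c * (1 - Real.exp (-c * (t - s)))) ∂N (flow s z) ≤
      ENNReal.ofReal (u t - u 0) := by
    rw [← hint]
    refine setLIntegral_mono' measurableSet_Ioc fun s hs => ?_
    refine le_trans ?_ (ENNReal.ofReal_le_ofReal (hlow s hs.2))
    have h2 : 0 < e s := Real.exp_pos _
    have h4 : 0 ≤ b / c * (1 - e s) := mul_nonneg hbc (by linarith [he1 s hs.2])
    rw [h.surv_eq, ENNReal.ofReal_mul (Real.exp_nonneg _)]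
    refine mul_le_mul_right ?_ _
    have h5 : ∀ w, ENNReal.ofReal (Real.exp (-c * (t - s)) * V w +
        b / c * (1 - Real.exp (-c * (t - s)))) =
        ENNReal.ofReal (e s) * ENNReal.ofReal (V w) + ENNReal.ofReal (b / c * (1 - e s)) := by
      intro w
      rw [← ENNReal.ofReal_mul h2.le, ← ENNReal.ofReal_add (mul_nonneg h2.le (hV0 w)) h4]
    simp only [h5]
    rw [lintegral_add_right _ measurable_const, lintegral_const_mul _ hg, lintegral_const, h.mass,
      ENNReal.ofReal_add (mul_nonneg h2.le (hJ0 _ (hS.flow z hz s)))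
        (mul_nonneg (h.nonneg _) h4), ENNReal.ofReal_mul h2.le,
      ENNReal.ofReal_mul (h.nonneg _), mul_comm (ENNReal.ofReal (r _))]
    gcongr
    exact hJ _ (hS.flow z hz s)
  refine (add_le_add_right hstep _).trans ?_
  have hut : u t = -(Real.exp (-Lam r z t) * V (flow t z)) := by simp [u, e]
  have hu0 : u 0 = -(Real.exp (-c * t) * V z + b / c * (1 - Real.exp (-c * t))) := by
    simp [u, e, Lam, flow_zero]
  have hnn : 0 ≤ u t - u 0 := by
    have hc' : Continuous u := continuous_iff_continuousAt.mpr fun s => (hu s).continuousAt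
    have := monotoneOn_of_deriv_nonneg (convex_Icc 0 t) hc'.continuousOn
      (fun s _ => (hu s).differentiableAt.differentiableWithinAt) (fun s hs => by
        rw [interior_Icc] at hs
        rw [(hu s).deriv]
        exact (mul_nonneg (Real.exp_nonneg _) (hlow0 s hs.2.le)).trans (hlow s hs.2.le))
      (left_mem_Icc.mpr ht) (right_mem_Icc.mpr ht) ht
    linarith
  rw [h.surv_eq, ← ENNReal.ofReal_mul (Real.exp_nonneg _),
    ← ENNReal.ofReal_add (mul_nonneg (Real.exp_nonneg _) (hV0 _)) hnn, hut, hu0]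
  exact le_of_eq (by congr 1; ring)

end Pool.Agent.Lib.MP_2024f4_pr.TR.Lyap
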