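import Mathlib
import Pool.Agent.Lib.MP_2024f4_pr.TR.Lyap

set_option autoImplicit false

open MeasureTheory ProbabilityTheory Set
open scoped ENNReal

namespace Pool.Agent.Lib.MP_2024f4_pr.TR.InvA

lemma refl (f : ℝ → ℝ≥0∞) (t : ℝ) :
    ∫⁻ u in Ioc (0 : ℝ) t, f (t - u) = ∫⁻ s in Ioc (0 : ℝ) t, f s := by
  rw [← Measure.restrict_congr_set (Ico_ae_eq_Ioc (μ := volume) (a := (0 : ℝ)) (b := t)) ]
  nth_rewrite 1 [Measure.restrict_congr_set (Ico_ae_eq_Ioc (μ := volume) (a := (0 : ℝ)) (b := t))]
  rw [← lintegral_indicator measurableSet_Ioc, ← lintegral_indicator measurableSet_Ico,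
    ← lintegral_sub_left_eq_self (μ := volume) ((Ico (0 : ℝ) t).indicator f) t]
  refine lintegral_congr fun u => ?_
  have : t - u ∈ Ico (0 : ℝ) t ↔ u ∈ Ioc (0 : ℝ) t := by
    simp only [mem_Ico, mem_Ioc]; constructor <;> rintro ⟨h1, h2⟩ <;> constructor <;> linarith
  by_cases hu : u ∈ Ioc (0 : ℝ) t
  · rw [indicator_of_mem hu, indicator_of_mem (this.mpr hu)]
  · rw [indicator_of_notMem hu, indicator_of_notMem (mt this.mp hu)]

lemma tri1 (f : ℝ → ℝ → ℝ≥0∞) (t : ℝ) :
    ∫⁻ s in Ioc (0 : ℝ) t, ∫⁻ u in Ioc (0 : ℝ) (t - s), f s u =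
      ∫⁻ s, ∫⁻ u, {p : ℝ × ℝ | 0 < p.1 ∧ 0 < p.2 ∧ p.1 + p.2 ≤ t}.indicator
        (fun p => f p.1 p.2) (s, u) := by
  rw [← lintegral_indicator measurableSet_Ioc]
  refine lintegral_congr fun s => ?_
  by_cases hs : s ∈ Ioc (0 : ℝ) t
  · rw [indicator_of_mem hs, ← lintegral_indicator measurableSet_Ioc]
    refine lintegral_congr fun u => ?_
    by_cases hu : u ∈ Ioc (0 : ℝ) (t - s)
    · rw [indicator_of_mem hu, indicator_of_mem]
      exact ⟨hs.1, hu.1, by linarith [hu.2]⟩
    · rw [indicator_of_notMem hu, indicator_of_notMem]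
      rintro ⟨_, h2, h3⟩
      exact hu ⟨h2, by linarith⟩
  · rw [indicator_of_notMem hs]
    symm
    refine (lintegral_congr fun u => indicator_of_notMem ?_ _).trans lintegral_zero
    rintro ⟨h1, h2, h3⟩
    exact hs ⟨h1, by linarith⟩

lemma tri {f : ℝ → ℝ → ℝ≥0∞} (hf : Measurable fun p : ℝ × ℝ => f p.1 p.2) (t : ℝ) :
    ∫⁻ s in Ioc (0 : ℝ) t, ∫⁻ u in Ioc (0 : ℝ) (t - s), f s u =
      ∫⁻ u in Ioc (0 : ℝ) t, ∫⁻ s in Ioc (0 : ℝ) (t - u), f s u := by
  have hS : MeasurableSet {p : ℝ × ℝ | 0 < p.1 ∧ 0 < p.2 ∧ p.1 + p.2 ≤ t} :=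
    (measurableSet_lt measurable_const measurable_fst).inter
      ((measurableSet_lt measurable_const measurable_snd).inter
        (measurableSet_le (measurable_fst.add measurable_snd) measurable_const))
  rw [tri1 f t, tri1 (fun u s => f s u) t,
    lintegral_lintegral_swap (f := fun s u => {p : ℝ × ℝ | 0 < p.1 ∧ 0 < p.2 ∧ p.1 + p.2 ≤ t}.indicator
      (fun p => f p.1 p.2) (s, u)) (hf.indicator hS).aemeasurable]
  refine lintegral_congr fun u => lintegral_congr fun s => ?_
  simp only [indicator, mem_ofPred_eq]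
  refine if_congr ?_ rfl rfl
  constructor <;> rintro ⟨h1, h2, h3⟩ <;> exact ⟨h2, h1, by linarith⟩

variable {d : ℕ} {N : St d → Measure (St d)} {r : St d → ℝ}

lemma lawN_fin (h : Reg N r) (n : ℕ) (t : ℝ) (z : St d) : lawN N n t z univ ≠ ∞ := by
  rcases le_or_gt 0 t with ht | ht
  · have h1 := lint_lawN_le (N := N) n t z (fun _ => 1)
    simp only [lintegral_const, one_mul] at h1
    exact ne_top_of_le_ne_top ENNReal.one_ne_top (h1.trans (h.W_le_one t ht z))
  · cases n with
    | zero => simp [lawN, h.surv_eq]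
    | succ n => rw [h.lawN_succ n t z MeasurableSet.univ, Ioc_eq_empty (by linarith)]; simp

/-- one jump followed by a free flight of length `u` -/
noncomputable def G (N : St d → Measure (St d)) (g : St d → ℝ≥0∞) (u : ℝ) (w : St d) : ℝ≥0∞ :=
  ∫⁻ y, surv N y u * g (flow u y) ∂N w

lemma meas_S (h : Reg N r) {g : St d → ℝ≥0∞} (hg : Measurable g) :
    Measurable fun p : ℝ × St d => surv N p.2 p.1 * g (flow p.1 p.2) :=
  (meas_comp2 (surv N) h.measurable_surv measurable_snd measurable_fst).mul
    (hg.comp continuous_flow.measurable)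

lemma meas_S' (h : Reg N r) {g : St d → ℝ≥0∞} (hg : Measurable g) {T : Type}
    [MeasurableSpace T] {u : T → ℝ} {z : T → St d} (hu : Measurable u) (hz : Measurable z) :
    Measurable fun q => surv N (z q) (u q) * g (flow (u q) (z q)) :=
  meas_comp2 (fun u z => surv N z u * g (flow u z)) (meas_S h hg) hu hz

lemma meas_G (h : Reg N r) {g : St d → ℝ≥0∞} (hg : Measurable g) :
    Measurable fun p : ℝ × St d => G N g p.1 p.2 := by
  refine measurable_lintegral_fin (fun p : ℝ × St d => N p.2) (h.meas.comp measurable_snd) ?_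
    (fun q => surv N q.2 q.1.1 * g (flow q.1.1 q.2)) ?_
  · intro q; rw [h.mass]; exact ENNReal.ofReal_ne_top
  · exact meas_S' h hg measurable_fst.fst measurable_snd

lemma meas_A (h : Reg N r) {g : St d → ℝ≥0∞} (hg : Measurable g) (n : ℕ) {T : Type}
    [MeasurableSpace T] {t u : T → ℝ} {z : T → St d} (ht : Measurable t) (hu : Measurable u)
    (hz : Measurable z) : Measurable fun q => ∫⁻ y, G N g (u q) y ∂lawN N n (t q) (z q) := by
  refine measurable_lintegral_fin (fun q => lawN N n (t q) (z q))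
    (meas_comp2 (lawN N n) (h.measurable_lawN n) ht hz) (fun q => lawN_fin h n _ _)
    (fun q => G N g (u q.1) q.2) ?_
  exact meas_comp2 (G N g) (meas_G h hg) (hu.comp measurable_fst) measurable_snd

/-- last-jump recursion -/
lemma last (h : Reg N r) {g : St d → ℝ≥0∞} (hg : Measurable g) (n : ℕ) : ∀ (t : ℝ) (z : St d),
    ∫⁻ w, g w ∂lawN N (n + 1) t z =
      ∫⁻ u in Ioc (0 : ℝ) t, ∫⁻ y, G N g u y ∂lawN N n (t - u) z := by
  have hGu : ∀ u, Measurable (G N g u) := fun u =>
    meas_comp2 (G N g) (meas_G h hg) measurable_const measurable_id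
  induction n with
  | zero =>
    intro t z
    rw [lint_lawN_succ h 0 t z hg, ← refl]
    refine lintegral_congr fun u => ?_
    rw [lint_lawN_zero h _ _ (hGu u), sub_sub_cancel]
    simp only [lint_lawN_zero h _ _ hg, G]
  | succ n ih =>
    intro t z
    rw [lint_lawN_succ h (n + 1) t z hg]
    simp only [ih, lint_lawN_succ h n _ z (hGu _)]
    have hf : Measurable fun p : ℝ × ℝ => surv N z p.1 *
        ∫⁻ w, (∫⁻ y, G N g p.2 y ∂lawN N n (t - p.2 - p.1) w) ∂N (flow p.1 z) := by
      refine Measurable.mul (meas_comp2 (surv N) h.measurable_surv measurable_const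
        measurable_fst) ?_
      refine measurable_lintegral_fin (fun p : ℝ × ℝ => N (flow p.1 z))
        (h.meas_N measurable_fst measurable_const) ?_
        (fun q => ∫⁻ y, G N g q.1.2 y ∂lawN N n (t - q.1.2 - q.1.1) q.2) ?_
      · intro q; rw [h.mass]; exact ENNReal.ofReal_ne_top
      · exact meas_A h hg n (by fun_prop) (by fun_prop) measurable_snd
    rw [← tri (f := fun s u => surv N z s *
      ∫⁻ w, (∫⁻ y, G N g u y ∂lawN N n (t - u - s) w) ∂N (flow s z)) hf t]
    refine lintegral_congr fun s => ?_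
    have : IsFiniteMeasure (N (flow s z)) := ⟨by rw [h.mass]; exact ENNReal.ofReal_lt_top⟩
    rw [lintegral_const_mul' _ _ (by rw [h.surv_eq]; exact ENNReal.ofReal_ne_top),
      lintegral_lintegral_swap]
    · simp only [sub_right_comm t s]
    · exact (meas_A h hg n (T := St d × ℝ) (by fun_prop) measurable_snd
        measurable_fst).aemeasurable

lemma unit {ρ : ℝ → ℝ} (hc : Continuous ρ) (h0 : ∀ s, 0 ≤ ρ s) {t : ℝ} (ht : 0 ≤ t) :
    ENNReal.ofReal (Real.exp (-∫ s in (0 : ℝ)..t, ρ s)) +
      ∫⁻ u in Ioc (0 : ℝ) t, ENNReal.ofReal (Real.exp (-∫ s in (0 : ℝ)..u, ρ s)) *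
        ENNReal.ofReal (ρ u) = 1 := by
  have hd : ∀ u, HasDerivAt (fun u => -Real.exp (-∫ s in (0 : ℝ)..u, ρ s))
      (Real.exp (-∫ s in (0 : ℝ)..u, ρ s) * ρ u) u := by
    intro u
    have h1 : HasDerivAt (fun u => ∫ s in (0 : ℝ)..u, ρ s) (ρ u) u :=
      intervalIntegral.integral_hasDerivAt_right (hc.intervalIntegrable _ _)
        (hc.stronglyMeasurableAtFilter _ _) hc.continuousAt
    refine h1.neg.exp.neg.congr_deriv ?_
    simp only [Pi.neg_apply]; ring
  have h2 := Lyap.lint_deriv hd ht fun s _ => mul_nonneg (Real.exp_nonneg _) (h0 s)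
  simp only [ENNReal.ofReal_mul (Real.exp_nonneg _)] at h2
  have h3 : 0 ≤ ∫ s in (0 : ℝ)..t, ρ s := intervalIntegral.integral_nonneg ht fun s _ => h0 s
  have h4 : Real.exp (-∫ s in (0 : ℝ)..t, ρ s) ≤ 1 := Real.exp_le_one_iff.mpr (by linarith)
  rw [h2, ← ENNReal.ofReal_add (Real.exp_nonneg _) (by simp; linarith)]
  simp

theorem invA : sInvA := by
  intro d N r r' μ h hC hμ hr' hr0 hJ hS
  have hneg : Continuous fun p : ℝ × St d => r' (flow (-p.1) p.2) :=
    hr'.comp (continuous_flow.comp (continuous_fst.neg.prodMk continuous_snd))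
  have hL : Continuous fun p : St d × ℝ => ∫ s in (0 : ℝ)..p.2, r' (flow (-s) p.1) :=
    intervalIntegral.continuous_parametric_primitive_of_continuous
      (f := fun (z : St d) (s : ℝ) => r' (flow (-s) z)) (hneg.comp continuous_swap)
  have key : ∀ n : ℕ, ∀ t, 0 ≤ t → ∀ g : St d → ℝ≥0∞, Measurable g →
      ∫⁻ z, ∑ k ∈ Finset.range n, ∫⁻ w, g w ∂lawN N k t z ∂μ ≤ ∫⁻ z, g z ∂μ := by
    intro n
    induction n with
    | zero => simp
    | succ n ih =>
      intro t ht g hg
      have hGu : ∀ u, Measurable (G N g u) := fun u =>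
        meas_comp2 (G N g) (meas_G h hg) measurable_const measurable_id
      simp only [Finset.sum_range_succ', last h hg, lint_lawN_zero h _ _ hg]
      have hSu : ∀ u : ℝ, Measurable fun z : St d => surv N z u * g (flow u z) := fun u =>
        meas_S' h hg measurable_const measurable_id
      rw [lintegral_add_right _ (hSu t)]
      have hm : Measurable fun p : St d × ℝ => ∑ k ∈ Finset.range n,
          ∫⁻ y, G N g p.2 y ∂lawN N k (t - p.2) p.1 :=
        Finset.measurable_sum _ fun k _ => meas_A h hg k (by fun_prop) measurable_snd measurable_fst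
      have hw : Measurable fun p : ℝ × St d =>
          ENNReal.ofReal (Real.exp (-∫ s in (0 : ℝ)..p.1, r' (flow (-s) p.2))) *
            ENNReal.ofReal (r' (flow (-p.1) p.2)) :=
        (ENNReal.measurable_ofReal.comp (Real.continuous_exp.comp
          (hL.comp continuous_swap).neg).measurable).mul
          (ENNReal.measurable_ofReal.comp hneg.measurable)
      have h1 : ∫⁻ z, ∑ k ∈ Finset.range n, ∫⁻ u in Ioc (0 : ℝ) t,
          ∫⁻ y, G N g u y ∂lawN N k (t - u) z ∂volume ∂μ ≤
          ∫⁻ z, (∫⁻ u in Ioc (0 : ℝ) t,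
            ENNReal.ofReal (Real.exp (-∫ s in (0 : ℝ)..u, r' (flow (-s) z))) *
              ENNReal.ofReal (r' (flow (-u) z))) * g z ∂μ := by
        calc _ = ∫⁻ z, ∫⁻ u in Ioc (0 : ℝ) t, ∑ k ∈ Finset.range n,
              ∫⁻ y, G N g u y ∂lawN N k (t - u) z ∂volume ∂μ := by
              refine lintegral_congr fun z => ?_
              rw [lintegral_finsetSum _ fun k _ => meas_A h hg k (t := fun u => t - u)
                (u := fun u => u) (z := fun _ => z) (by fun_prop) measurable_id measurable_const]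
          _ = ∫⁻ u in Ioc (0 : ℝ) t, ∫⁻ z, ∑ k ∈ Finset.range n,
              ∫⁻ y, G N g u y ∂lawN N k (t - u) z ∂μ := lintegral_lintegral_swap hm.aemeasurable
          _ ≤ ∫⁻ u in Ioc (0 : ℝ) t, ∫⁻ z,
              ENNReal.ofReal (Real.exp (-∫ s in (0 : ℝ)..u, r' (flow (-s) z))) *
                ENNReal.ofReal (r' (flow (-u) z)) * g z ∂μ := by
              refine setLIntegral_mono' measurableSet_Ioc fun u hu => ?_
              refine (ih _ (by linarith [hu.2]) _ (hGu u)).trans ?_
              refine (hJ _ (hSu u)).trans ?_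
              have h2 := hS u hu.1.le (fun y => ENNReal.ofReal (r' (flow (-u) y)) * g y)
                ((ENNReal.measurable_ofReal.comp (hneg.comp
                  (continuous_const.prodMk continuous_id)).measurable).mul hg)
              simp only [flow_flow, neg_add_cancel, flow_zero] at h2
              refine le_trans (le_of_eq (lintegral_congr fun z => ?_)) (h2.trans (le_of_eq
                (lintegral_congr fun z => ?_)))
              · ring
              · ring
          _ = ∫⁻ z, ∫⁻ u in Ioc (0 : ℝ) t,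
              ENNReal.ofReal (Real.exp (-∫ s in (0 : ℝ)..u, r' (flow (-s) z))) *
                ENNReal.ofReal (r' (flow (-u) z)) * g z ∂volume ∂μ :=
              lintegral_lintegral_swap (f := fun u z =>
                ENNReal.ofReal (Real.exp (-∫ s in (0 : ℝ)..u, r' (flow (-s) z))) *
                  ENNReal.ofReal (r' (flow (-u) z)) * g z) (hw.mul (hg.comp measurable_snd)).aemeasurable
          _ = _ := by
              refine lintegral_congr fun z => ?_
              exact lintegral_mul_const _ (meas_comp2 (fun u z =>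
                ENNReal.ofReal (Real.exp (-∫ s in (0 : ℝ)..u, r' (flow (-s) z))) *
                  ENNReal.ofReal (r' (flow (-u) z))) hw measurable_id measurable_const)
      refine (add_le_add h1 (hS t ht g hg)).trans ?_
      have hLt : Continuous fun z : St d => ∫ s in (0 : ℝ)..t, r' (flow (-s) z) :=
        hL.comp (continuous_id.prodMk continuous_const)
      have hm2 : Measurable fun z : St d =>
          ENNReal.ofReal (Real.exp (-∫ s in (0 : ℝ)..t, r' (flow (-s) z))) * g z :=
        (ENNReal.measurable_ofReal.comp (Real.continuous_exp.comp hLt.neg).measurable).mul hg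
      rw [← lintegral_add_right _ hm2]
      refine le_of_eq (lintegral_congr fun z => ?_)
      have h3 := unit (ρ := fun s => r' (flow (-s) z))
        (hneg.comp (continuous_id.prodMk continuous_const)) (fun s => hr0 _) ht
      rw [← add_mul, add_comm, h3, one_mul]
  intro t ht
  have hb : ∀ A, MeasurableSet A → μ.bind (W N t) A = ∫⁻ w, W N t w A ∂μ :=
    fun A hA => Measure.bind_apply hA (measurable_Wt h t).aemeasurable
  refine eq_of_le_of_univ (fun A hA => ?_) ?_ measure_univ
  · rw [hb A hA]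
    have hg : Measurable (A.indicator (1 : St d → ℝ≥0∞)) := measurable_one.indicator hA
    simp only [← lintegral_indicator_one hA, lint_W_tsum]
    rw [lintegral_tsum fun k => (meas_lint (measurable_lawNt h k t) hg).aemeasurable]
    refine ENNReal.tsum_le_of_sum_range_le fun n => ?_
    rw [← lintegral_finsetSum _ fun k _ => meas_lint (measurable_lawNt h k t) hg]
    exact key n t ht _ hg
  · rw [hb _ MeasurableSet.univ]
    simp [h.W_univ hC t ht]

end Pool.Agent.Lib.MP_2024f4_pr.TR.InvA
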