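import Mathlib
import Pool.Agent.Lib.MP_2024f4_pr.TR.St

set_option autoImplicit false

open MeasureTheory ProbabilityTheory Set
open scoped ENNReal

namespace Pool.Agent.Lib.MP_2024f4_pr.TR.PL

variable {d : ℕ}

lemma int_t (U φ : Euc d → ℝ) :
    ∫ z, φ z ∂target U = (∫ z, Real.exp (-U z) * φ z) / ∫ z, Real.exp (-U z) := by
  rw [target, integral_tilted, ← integral_div]
  exact integral_congr_ae (ae_of_all _ fun z => by simp only [smul_eq_mul]; ring)

/-- the exponent of the test function -/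
noncomputable def ex (g x : Euc d) (K : ℝ) (z : Euc d) : ℝ := inner ℝ g (z - x) - K * ‖z - x‖ ^ 2

lemma contDiff_ex (g x : Euc d) (K : ℝ) : ContDiff ℝ ((⊤ : ℕ∞) : WithTop ℕ∞) (ex g x K) :=
  (contDiff_const.inner ℝ (contDiff_id.sub contDiff_const)).sub
    (contDiff_const.mul ((contDiff_id.sub contDiff_const).norm_sq ℝ))

lemma grad (g x : Euc d) (K : ℝ) (z : Euc d) : gradient (fun z => Real.exp (ex g x K z / 2)) z =
    Real.exp (ex g x K z / 2) • ((1 / 2 : ℝ) • g - K • (z - x)) := by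
  have h0 := (hasFDerivAt_id (𝕜 := ℝ) z).sub_const x
  have h1 := (((((innerSL ℝ g).hasFDerivAt.comp z h0).sub (h0.norm_sq.const_mul K))).mul_const
    (2⁻¹ : ℝ)).exp
  refine HasGradientAt.gradient (hasGradientAt_iff_hasFDerivAt.2 (h1.congr_fderiv ?_))
  ext v
  simp [ex, div_eq_mul_inv]
  ring

lemma w1 (t : ℝ) : Real.exp (-t ^ 2) ≤ Real.exp (1 - t) := Real.exp_le_exp.2 (by nlinarith)

lemma w2 (t : ℝ) : Real.exp (-t ^ 2) * t ^ 2 ≤ 2 * Real.exp (1 - t) := by
  have a := Real.add_one_le_exp (t ^ 2 / 2)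
  have b : Real.exp (-t ^ 2) * Real.exp (t ^ 2 / 2) ≤ Real.exp (1 - t) := by
    rw [← Real.exp_add]
    exact Real.exp_le_exp.2 (by nlinarith)
  nlinarith [Real.exp_pos (-t ^ 2)]

lemma intW : Integrable (fun y : Euc d => Real.exp (1 - ‖y‖)) volume :=
  ((integrable_exp_neg_norm (X := Euc d) one_pos).const_mul (Real.exp 1)).congr
    (ae_of_all _ fun y => by simp only [← Real.exp_add]; congr 1; ring)

theorem pl : sPL := by
  intro d U M hU hH ⟨C, hC⟩
  have M1 := hH.one_le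
  have cU : Continuous U := hU.1.continuous
  have iL : Integrable (fun y : Euc d => Real.exp (-(2 * M + 1) * ‖y‖ ^ 2)) volume :=
    intW.mono' (Continuous.aestronglyMeasurable (by fun_prop)) (ae_of_all _ fun y => by
      rw [Real.norm_of_nonneg (Real.exp_nonneg _)]
      exact (Real.exp_le_exp.2 (by nlinarith [sq_nonneg ‖y‖])).trans (w1 _))
  obtain ⟨Z, hZ⟩ : ∃ Z, Z = ∫ z, Real.exp (-U z) := ⟨_, rfl⟩
  obtain ⟨c, hc⟩ : ∃ c, c = ∫ y : Euc d, Real.exp (1 - ‖y‖) := ⟨_, rfl⟩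
  obtain ⟨c₁, hc₁⟩ : ∃ c, c = ∫ y : Euc d, Real.exp (-(2 * M + 1) * ‖y‖ ^ 2) := ⟨_, rfl⟩
  have Z0 : 0 < Z := hZ ▸ integral_exp_pos hU.2.1
  have c0 : 0 < c := hc ▸ integral_exp_pos intW
  have c10 : 0 < c₁ := hc₁ ▸ integral_exp_pos iL
  obtain ⟨L, hL⟩ : ∃ L, L = M + 2 + 4 * |C| * (M + 1) ^ 2 := ⟨_, rfl⟩
  have L0 : 0 ≤ L := by rw [hL]; positivity
  refine ⟨1 + |C| + |Real.log (c / Z)| + L * (2 * c / c₁), by positivity, fun x => ?_⟩
  obtain ⟨g, hg⟩ : ∃ g, g = gradient U x := ⟨_, rfl⟩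
  rw [← hg]
  have cE := (contDiff_ex g x (M + 1)).continuous
  have e0 := Real.exp_pos (-U x)
  have tay : ∀ z, |U z - U x - inner ℝ g (z - x)| ≤ M * ‖z - x‖ ^ 2 := fun z => by
    have := hH.taylor x (z - x)
    rwa [add_sub_cancel, ← hg, real_inner_comm] at this
  have up : ∀ z, Real.exp (-U z) * Real.exp (ex g x (M + 1) z) ≤
      Real.exp (-U x) * Real.exp (-‖z - x‖ ^ 2) := fun z => by
    rw [← Real.exp_add, ← Real.exp_add, ex]
    exact Real.exp_le_exp.2 (by linarith [(abs_le.1 (tay z)).1])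
  have lo : ∀ z, Real.exp (-U x) * Real.exp (-(2 * M + 1) * ‖z - x‖ ^ 2) ≤
      Real.exp (-U z) * Real.exp (ex g x (M + 1) z) := fun z => by
    rw [← Real.exp_add, ← Real.exp_add, ex]
    exact Real.exp_le_exp.2 (by linarith [(abs_le.1 (tay z)).2])
  have u1 : ∀ z, Real.exp (-U z) * Real.exp (ex g x (M + 1) z) ≤
      Real.exp (-U x) * Real.exp (1 - ‖z - x‖) := fun z =>
    (up z).trans (mul_le_mul_of_nonneg_left (w1 _) e0.le)
  have u2 : ∀ z, Real.exp (-U z) * (Real.exp (ex g x (M + 1) z) * ‖z - x‖ ^ 2) ≤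
      2 * Real.exp (-U x) * Real.exp (1 - ‖z - x‖) := fun z => by
    have a := mul_le_mul_of_nonneg_right (up z) (sq_nonneg ‖z - x‖)
    have b := mul_le_mul_of_nonneg_left (w2 ‖z - x‖) e0.le
    linarith
  have iW := intW.comp_sub_right x
  have j1 : Integrable (fun z => Real.exp (-U z) * Real.exp (ex g x (M + 1) z)) volume :=
    (iW.const_mul _).mono' (Continuous.aestronglyMeasurable (by fun_prop)) (ae_of_all _ fun z => by
      rw [Real.norm_of_nonneg (by positivity)]; exact u1 z)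
  have j2 : Integrable (fun z => Real.exp (-U z) * (Real.exp (ex g x (M + 1) z) * ‖z - x‖ ^ 2))
      volume :=
    (iW.const_mul _).mono' (Continuous.aestronglyMeasurable (by fun_prop)) (ae_of_all _ fun z => by
      rw [Real.norm_of_nonneg (by positivity)]; exact u2 z)
  have i1 : Integrable (fun z => Real.exp (ex g x (M + 1) z)) (target U) :=
    (integrable_tilted_iff hU.2.1 _).2 j1
  have i2 : Integrable (fun z => Real.exp (ex g x (M + 1) z) * ‖z - x‖ ^ 2) (target U) :=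
    (integrable_tilted_iff hU.2.1 _).2 j2
  obtain ⟨m, hm⟩ : ∃ m, m = ∫ z, Real.exp (ex g x (M + 1) z) ∂target U := ⟨_, rfl⟩
  obtain ⟨J, hJ⟩ : ∃ J, J = ∫ z, Real.exp (ex g x (M + 1) z) * ‖z - x‖ ^ 2 ∂target U := ⟨_, rfl⟩
  have m1 : m ≤ Real.exp (-U x) * (c / Z) := by
    have := integral_mono j1 (iW.const_mul _) u1
    rw [integral_const_mul, integral_sub_right_eq_self (fun y : Euc d => Real.exp (1 - ‖y‖)) x,
      ← hc] at this
    rw [hm, int_t, ← hZ, ← mul_div_assoc]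
    exact div_le_div_of_nonneg_right this Z0.le
  have m2 : Real.exp (-U x) * (c₁ / Z) ≤ m := by
    have := integral_mono ((iL.comp_sub_right x).const_mul _) j1 lo
    rw [integral_const_mul, integral_sub_right_eq_self
      (fun y : Euc d => Real.exp (-(2 * M + 1) * ‖y‖ ^ 2)) x, ← hc₁] at this
    rw [hm, int_t, ← hZ, ← mul_div_assoc]
    exact div_le_div_of_nonneg_right this Z0.le
  have m0 : 0 < m := lt_of_lt_of_le (by positivity) m2
  have m3 : J ≤ 2 * c / c₁ * m := by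
    have := integral_mono j2 (iW.const_mul _) u2
    rw [integral_const_mul, integral_sub_right_eq_self (fun y : Euc d => Real.exp (1 - ‖y‖)) x,
      ← hc] at this
    rw [hJ, int_t, ← hZ]
    refine (div_le_div_of_nonneg_right this Z0.le).trans
      (le_trans (le_of_eq ?_) (mul_le_mul_of_nonneg_left m2 (by positivity)))
    field_simp
  have sq : ∀ z, Real.exp (ex g x (M + 1) z / 2) ^ 2 = Real.exp (ex g x (M + 1) z) := fun z => by
    rw [← Real.exp_nat_mul]
    congr 1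
    push_cast
    ring
  have b1 : ∀ z, |Real.exp (ex g x (M + 1) z) * ex g x (M + 1) z| ≤
      ‖g‖ ^ 2 * Real.exp (ex g x (M + 1) z) +
        (M + 2) * (Real.exp (ex g x (M + 1) z) * ‖z - x‖ ^ 2) := fun z => by
    have a := abs_le.1 (abs_real_inner_le_norm g (z - x))
    have b : |ex g x (M + 1) z| ≤ ‖g‖ ^ 2 + (M + 2) * ‖z - x‖ ^ 2 := by
      rw [ex, abs_le]
      constructor <;> nlinarith [sq_nonneg (‖g‖ - ‖z - x‖), sq_nonneg ‖g‖, sq_nonneg ‖z - x‖]
    rw [abs_mul, abs_of_pos (Real.exp_pos _)]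
    nlinarith [mul_le_mul_of_nonneg_left b (Real.exp_pos (ex g x (M + 1) z)).le]
  have b2 : ∀ z, Real.exp (ex g x (M + 1) z) * ‖(1 / 2 : ℝ) • g - (M + 1) • (z - x)‖ ^ 2 ≤
      ‖g‖ ^ 2 / 2 * Real.exp (ex g x (M + 1) z) +
        2 * (M + 1) ^ 2 * (Real.exp (ex g x (M + 1) z) * ‖z - x‖ ^ 2) := fun z => by
    have a := norm_sub_le ((1 / 2 : ℝ) • g) ((M + 1) • (z - x))
    rw [norm_smul, norm_smul, Real.norm_of_nonneg (by norm_num),
      Real.norm_of_nonneg (by linarith)] at a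
    have b := pow_le_pow_left₀ (norm_nonneg _) a 2
    have e : ‖(1 / 2 : ℝ) • g - (M + 1) • (z - x)‖ ^ 2 ≤
        ‖g‖ ^ 2 / 2 + 2 * (M + 1) ^ 2 * ‖z - x‖ ^ 2 := by
      nlinarith [sq_nonneg (1 / 2 * ‖g‖ - (M + 1) * ‖z - x‖)]
    nlinarith [mul_le_mul_of_nonneg_left e (Real.exp_pos (ex g x (M + 1) z)).le]
  have k1 := (i1.const_mul (‖g‖ ^ 2)).add (i2.const_mul (M + 2))
  have k2 := (i1.const_mul (‖g‖ ^ 2 / 2)).add (i2.const_mul (2 * (M + 1) ^ 2))
  have i3 : Integrable (fun z => Real.exp (ex g x (M + 1) z) * ex g x (M + 1) z) (target U) :=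
    k1.mono' (Continuous.aestronglyMeasurable (by fun_prop)) (ae_of_all _ b1)
  have i4 : Integrable (fun z => Real.exp (ex g x (M + 1) z) *
      ‖(1 / 2 : ℝ) • g - (M + 1) • (z - x)‖ ^ 2) (target U) :=
    k2.mono' (Continuous.aestronglyMeasurable (by fun_prop)) (ae_of_all _ fun z => by
      rw [Real.norm_of_nonneg (by positivity)]; exact b2 z)
  have key := hC (fun z => Real.exp (ex g x (M + 1) z / 2))
    ((contDiff_ex g x (M + 1)).div_const 2).exp
  simp only [grad, norm_smul, mul_pow, Real.norm_eq_abs, sq_abs, sq, Real.log_exp] at key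
  have key := key i1 i3 i4
  have s1 := integral_mono k1.neg i3 fun z => (abs_le.1 (b1 z)).1
  have s2 := integral_mono i4 k2 b2
  simp only [Pi.neg_apply, Pi.add_apply, integral_neg,
    integral_add (i1.const_mul _) (i2.const_mul _), integral_const_mul, ← hm, ← hJ] at s1 s2 key
  have s3 : Real.log m ≤ -U x + |Real.log (c / Z)| := by
    have := Real.log_le_log m0 m1
    rw [Real.log_mul e0.ne' (by positivity), Real.log_exp] at this
    linarith [le_abs_self (Real.log (c / Z))]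
  have s0 : 0 ≤ ∫ z, Real.exp (ex g x (M + 1) z) *
      ‖(1 / 2 : ℝ) • g - (M + 1) • (z - x)‖ ^ 2 ∂target U := integral_nonneg fun z => by positivity
  have s4 := (mul_le_mul_of_nonneg_right (le_abs_self C) s0).trans
    (mul_le_mul_of_nonneg_left s2 (abs_nonneg C))
  have s5 := mul_le_mul_of_nonneg_left s3 m0.le
  have s6 := mul_le_mul_of_nonneg_left m3 L0
  have s7 : 0 ≤ m * ((1 + |C|) + (|Real.log (c / Z)| + L * (2 * c / c₁)) * ‖g‖ ^ 2) := by positivity
  refine le_of_mul_le_mul_left ?_ m0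
  rw [hL] at s6 s7 ⊢
  linarith

end Pool.Agent.Lib.MP_2024f4_pr.TR.PL
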