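import Mathlib
import Pool.Agent.Lib.MP_2024f4_pr.TR.St

set_option autoImplicit false

open MeasureTheory ProbabilityTheory Set
open scoped ENNReal

namespace Pool.Agent.Lib.MP_2024f4_pr.TR.Semi

lemma shift (f : ℝ → ℝ≥0∞) (a s : ℝ) :
    ∫⁻ u in Ioc a (a + s), f u = ∫⁻ u in Ioc (0 : ℝ) s, f (a + u) := by
  rw [← lintegral_indicator measurableSet_Ioc, ← lintegral_indicator measurableSet_Ioc,
    ← lintegral_add_left_eq_self (μ := volume) _ a]
  refine lintegral_congr fun u => ?_
  simp only [indicator, mem_Ioc, lt_add_iff_pos_right, add_le_add_iff_left]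

variable {d : ℕ} {N : St d → Measure (St d)} {r : St d → ℝ}

lemma le (h : Reg N r) {g : St d → ℝ≥0∞} (hg : Measurable g) (t s : ℝ) (ht : 0 ≤ t) (hs : 0 ≤ s)
    (z : St d) : ∫⁻ w, g w ∂W N (t + s) z ≤ ∫⁻ w, (∫⁻ u, g u ∂W N s w) ∂W N t z := by
  have hG : Measurable fun w => ∫⁻ u, g u ∂W N s w := meas_lint (measurable_Wt h s) hg
  set G : St d → ℝ≥0∞ := fun w => ∫⁻ u, g u ∂W N s w with hGd
  let F : ℝ → St d → ℝ≥0∞ := fun u z =>
    if u < s then ∫⁻ w, g w ∂W N u z else ∫⁻ w, G w ∂W N (u - s) z
  have key := minimal h closed_univ hg F (fun u hu z _ => ?_) (t + s) (by linarith) z (mem_univ _)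
  · have : ¬ t + s < s := by linarith
    simpa only [F, if_neg this, add_sub_cancel_right] using key
  by_cases hus : u < s
  · simp only [F, if_pos hus]
    rw [lint_W_eq h u z hg]
    refine add_le_add_right (setLIntegral_mono' measurableSet_Ioc fun v hv => ?_) _
    have : u - v < s := by linarith [hv.1]
    simp only [if_pos this, le_refl]
  · have hus' : s ≤ u := not_lt.mp hus
    simp only [F, if_neg hus]
    rw [lint_W_eq h (u - s) z hG]
    have hsplit : Ioc (0 : ℝ) u = Ioc 0 (u - s) ∪ Ioc (u - s) (u - s + s) := by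
      rw [Ioc_union_Ioc_eq_Ioc (by linarith) (by linarith)]; congr 1; ring
    rw [hsplit, lintegral_union measurableSet_Ioc (Ioc_disjoint_Ioc_of_le le_rfl), shift,
      add_comm (∫⁻ _ in Ioc (0 : ℝ) (u - s), _), ← add_assoc]
    refine add_le_add ?_ (setLIntegral_mono' measurableSet_Ioc fun v hv => ?_)
    · simp only [hGd]
      rw [lint_W_eq h s _ hg, mul_add, ← mul_assoc, ← surv_add h, flow_flow,
        ← lintegral_const_mul' _ _ (by rw [h.surv_eq]; exact ENNReal.ofReal_ne_top)]
      refine add_le_add (le_of_eq ?_) (setLIntegral_mono' measurableSet_Ioc fun v hv => ?_)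
      · congr 2 <;> ring_nf
      · have : u - (u - s + v) < s := by linarith [hv.1]
        simp only [if_pos this]
        rw [surv_add h, mul_assoc, flow_flow, add_comm v, show u - (u - s + v) = s - v by ring]
    · have : ¬ u - v < s := by linarith [hv.2]
      simp only [if_neg this]
      rw [show u - v - s = u - s - v by ring]

theorem semi : sSemi := by
  intro d N r h hC t s ht hs z
  have hb : ∀ A, MeasurableSet A → (W N t z).bind (W N s) A = ∫⁻ w, W N s w A ∂W N t z :=
    fun A hA => Measure.bind_apply hA (measurable_Wt h s).aemeasurable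
  refine eq_of_le_of_univ (fun A hA => ?_) (h.W_univ hC _ (by linarith) z) ?_
  · have := le h (g := A.indicator 1) (measurable_one.indicator hA) t s ht hs z
    simp only [lintegral_indicator_one hA] at this
    rw [hb A hA]; exact this
  · rw [hb _ MeasurableSet.univ]
    simp [h.W_univ hC s hs, h.W_univ hC t ht]

end Pool.Agent.Lib.MP_2024f4_pr.TR.Semi
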