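import Mathlib
import Pool.Agent.Lib.MP_2024f4_pr.TR.St

set_option autoImplicit false

open MeasureTheory ProbabilityTheory Set
open scoped ENNReal

namespace Pool.Agent.Lib.MP_2024f4_pr.TR.Split

/-- half of the logarithm, beyond the level `2L` -/
noncomputable def gl (L x : ℝ) : ℝ := if 2 * L < Real.log x ∧ 1 < x then Real.log x / 2 else 0

lemma measurable_gl (L : ℝ) : Measurable (gl L) := by
  unfold gl
  refine Measurable.ite ((measurableSet_lt measurable_const Real.measurable_log).inter
    (measurableSet_lt measurable_const measurable_id)) (Real.measurable_log.div_const 2)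
    measurable_const

lemma gl_nonneg (L x : ℝ) : 0 ≤ gl L x := by
  unfold gl
  split_ifs with h
  · have := Real.log_nonneg h.2.le; linarith
  · exact le_rfl

lemma exp_gl {L x : ℝ} (hx : 0 ≤ x) : Real.exp (gl L x) - 1 ≤ Real.exp (-L) * x := by
  unfold gl
  split_ifs with h
  · have h1 : Real.exp (Real.log x / 2) ≤ Real.exp (-L) * x := by
      conv_rhs => rw [← Real.exp_log (show 0 < x by linarith [h.2]), ← Real.exp_add]
      exact Real.exp_le_exp.mpr (by linarith [h.1])
    linarith
  · simp only [Real.exp_zero, sub_self]; positivity

lemma kl_le {L x : ℝ} (hL : 0 ≤ L) (hx : 0 ≤ x) : InformationTheory.klFun x ≤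
    max (1 - x) 0 + 2 * L * max (x - 1) 0 + 2 * (x * gl L x) := by
  rw [InformationTheory.klFun_apply]
  have h0 := gl_nonneg L x
  rcases le_or_gt x 1 with h | h
  · rw [max_eq_left (by linarith), max_eq_right (by linarith)]
    nlinarith [mul_nonneg hx h0, mul_nonpos_of_nonneg_of_nonpos hx (Real.log_nonpos hx h)]
  · rw [max_eq_right (by linarith), max_eq_left (by linarith)]
    by_cases h2 : 2 * L < Real.log x
    · rw [gl, if_pos ⟨h2, h⟩]
      nlinarith [mul_nonneg hL (sub_nonneg.mpr h.le)]
    · have h3 := Real.log_le_sub_one_of_pos (show 0 < x by linarith)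
      nlinarith [mul_nonneg hx h0, mul_nonneg (sub_nonneg.mpr h.le) (sub_nonneg.mpr (not_lt.mp h2))]

theorem split : sSplit := by
  intro E _ μ m L D hμ hm hac hL hD
  let h : E → ℝ := fun z => (m.rnDeriv μ z).toReal
  have hh : Measurable h := (Measure.measurable_rnDeriv m μ).ennreal_toReal
  have hh0 : ∀ z, 0 ≤ h z := fun z => ENNReal.toReal_nonneg
  have hi : Integrable h μ := Measure.integrable_toReal_rnDeriv
  have hD0 : 0 ≤ D := (abs_nonneg _).trans (hD ∅ MeasurableSet.empty)
  have hG : Measurable fun z => gl L (h z) := (measurable_gl L).comp hh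
  have hfin := Measure.rnDeriv_ne_top m μ
  refine ⟨fun z => gl L (h z), hG, fun z => gl_nonneg _ _, ?_, ?_⟩
  · calc _ ≤ ∫⁻ z, ENNReal.ofReal (Real.exp (-L)) * m.rnDeriv μ z ∂μ := by
          refine lintegral_mono_ae ?_
          filter_upwards [hfin] with z hz
          refine (ENNReal.ofReal_le_ofReal (exp_gl (hh0 z))).trans ?_
          rw [ENNReal.ofReal_mul (Real.exp_nonneg _), ENNReal.ofReal_toReal hz]
      _ = _ := by
          rw [lintegral_const_mul _ (Measure.measurable_rnDeriv m μ), Measure.lintegral_rnDeriv hac]
          simp
  · have hA : MeasurableSet {z | h z < 1} := measurableSet_lt hh measurable_const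
    have hB : MeasurableSet {z | 1 < h z} := measurableSet_lt measurable_const hh
    have i1 : Integrable (fun z => max (1 - h z) 0) μ :=
      ((integrable_const _).sub hi).sup (integrable_const _)
    have i2 : Integrable (fun z => max (h z - 1) 0) μ :=
      (hi.sub (integrable_const _)).sup (integrable_const _)
    have e1 : ∫ z, max (1 - h z) 0 ∂μ ≤ D := by
      have : (fun z => max (1 - h z) 0) = {z | h z < 1}.indicator fun z => 1 - h z := by
        funext z
        by_cases hz : h z < 1
        · rw [indicator_of_mem (by exact hz), max_eq_left (by linarith)]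
        · rw [indicator_of_notMem (by exact hz), max_eq_right (by linarith)]
      rw [this, integral_indicator hA, integral_sub (integrable_const _) hi.integrableOn,
        Measure.setIntegral_toReal_rnDeriv hac]
      have := (abs_le.mp (hD _ hA)).1
      simp only [integral_const, MeasurableSet.univ, measureReal_restrict_apply, univ_inter,
        smul_eq_mul, mul_one]
      linarith
    have e2 : ∫ z, max (h z - 1) 0 ∂μ ≤ D := by
      have : (fun z => max (h z - 1) 0) = {z | 1 < h z}.indicator fun z => h z - 1 := by
        funext z
        by_cases hz : 1 < h z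
        · rw [indicator_of_mem (by exact hz), max_eq_left (by linarith)]
        · rw [indicator_of_notMem (by exact hz), max_eq_right (by linarith)]
      rw [this, integral_indicator hB, integral_sub hi.integrableOn (integrable_const _),
        Measure.setIntegral_toReal_rnDeriv hac]
      have := (abs_le.mp (hD _ hB)).2
      simp only [integral_const, MeasurableSet.univ, measureReal_restrict_apply, univ_inter,
        smul_eq_mul, mul_one]
      linarith
    have hn : ∀ z, 0 ≤ max (1 - h z) 0 + 2 * L * max (h z - 1) 0 := fun z => by positivity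
    have hG' : Measurable fun z => ENNReal.ofReal (gl L (h z)) := ENNReal.measurable_ofReal.comp hG
    rw [InformationTheory.klDiv_eq_lintegral_klFun_of_ac hac,
      ← lintegral_rnDeriv_mul hac hG'.aemeasurable]
    calc _ ≤ ∫⁻ z, ENNReal.ofReal (max (1 - h z) 0 + 2 * L * max (h z - 1) 0) +
          2 * (m.rnDeriv μ z * ENNReal.ofReal (gl L (h z))) ∂μ := by
          refine lintegral_mono_ae ?_
          filter_upwards [hfin] with z hz
          refine (ENNReal.ofReal_le_ofReal (kl_le hL (hh0 z))).trans ?_
          rw [ENNReal.ofReal_add (hn z) (mul_nonneg zero_le_two (mul_nonneg (hh0 z) (gl_nonneg _ _))),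
            ENNReal.ofReal_mul zero_le_two, ENNReal.ofReal_mul (hh0 z), ENNReal.ofReal_toReal hz]
          simp
      _ ≤ _ := by
          have hm2 : Measurable fun z => m.rnDeriv μ z * ENNReal.ofReal (gl L (h z)) :=
            (Measure.measurable_rnDeriv m μ).mul hG'
          have i3 : Integrable (fun z => max (1 - h z) 0 + 2 * L * max (h z - 1) 0) μ :=
            i1.add (i2.const_mul _)
          rw [lintegral_add_right _ (hm2.const_mul 2), lintegral_const_mul _ hm2,
            ← ofReal_integral_eq_lintegral_ofReal i3 (ae_of_all _ hn),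
            integral_add i1 (i2.const_mul _), integral_const_mul]
          refine add_le_add_left (ENNReal.ofReal_le_ofReal ?_) _
          nlinarith [mul_le_mul_of_nonneg_left e2 hL]

end Pool.Agent.Lib.MP_2024f4_pr.TR.Split
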