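import Mathlib
import Pool.Agent.Lib.MP_2024f4_pr.TR.St

set_option autoImplicit false

open MeasureTheory ProbabilityTheory Set
open scoped ENNReal

namespace Pool.Agent.Lib.MP_2024f4_pr.TR.ZD

variable {d : ℕ}

lemma flip_flip (i : Fin d) (v : Euc d) : flip i (flip i v) = v := by
  ext j
  by_cases h : j = i
  · subst h; simp [flip]; ring
  · simp [flip, h]

/-- the jump intensity dominates the flip of one coordinate -/
lemma le_jump (U : Euc d → ℝ) (γ : Fin d → ℝ) (z : St d) (i : Fin d) (F : St d → ℝ≥0∞) :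
    ENNReal.ofReal (max (z.2 i * gradient U z.1 i) 0 + γ i) * F (z.1, flip i z.2) ≤
      ∫⁻ w, F w ∂zigzag U γ z := by
  rw [zigzag, lintegral_finsetSum_measure]
  refine le_trans (le_of_eq ?_) (Finset.single_le_sum (f := fun j => ∫⁻ w, F w ∂(ENNReal.ofReal
    (max (z.2 j * gradient U z.1 j) 0 + γ j) • Measure.dirac (z.1, flip j z.2)))
    (fun _ _ => zero_le) (Finset.mem_univ i))
  rw [lintegral_smul_measure, lintegral_dirac, smul_eq_mul]

lemma norm_comb (v : Euc d) (i : Fin d) {a b c τ : ℝ} (ha : 0 ≤ a) (hb : 0 ≤ b) (hc : 0 ≤ c)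
    (h : a + b + c ≤ τ) : ‖a • v + b • flip i v + c • v‖ ≤ τ * ‖v‖ := by
  have h1 : ‖a • v + b • flip i v + c • v‖ ≤ ‖a • v‖ + ‖b • flip i v‖ + ‖c • v‖ :=
    norm_add₃_le
  rw [norm_smul, norm_smul, norm_smul, norm_flip, Real.norm_of_nonneg ha, Real.norm_of_nonneg hb,
    Real.norm_of_nonneg hc] at h1
  nlinarith [norm_nonneg v]

lemma meas_end (x v : Euc d) (i : Fin d) (τ a : ℝ) {g : St d → ℝ≥0∞} (hg : Measurable g) :
    Measurable fun σ : ℝ => g (x + τ • v - EuclideanSpace.single i (a * σ * v i), v) := by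
  refine hg.comp (Measurable.prodMk ?_ measurable_const)
  have : (fun σ : ℝ => x + τ • v - EuclideanSpace.single i (a * σ * v i)) =
      fun σ : ℝ => x + τ • v - (a * σ * v i) • (EuclideanSpace.single i (1 : ℝ) : Euc d) := by
    funext σ; ext j; by_cases h : j = i <;> simp [h]
  rw [this]
  exact Continuous.measurable (by fun_prop)

theorem zd : sZD := by
  intro d U γ x v i τ δ L₁ L₂ a₂ g hU hγ hδ hτ hL₁ hL₂ ha₂ hg hb
  have h : Reg (zigzag U γ) (rZ U γ) := zigzag_reg hU hγ
  refine le_trans ?_ (lint_lawN_le 2 τ (x, v) g)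
  rw [lint_lawN_succ h 1 τ (x, v) hg]
  have hsub : Ioc (0 : ℝ) (τ / 2) ⊆ Ioc 0 τ := Ioc_subset_Ioc_right (by linarith)
  refine le_trans ?_ (lintegral_mono_set hsub)
  set I := ∫⁻ σ in Ioo (0 : ℝ) δ, g (x + τ • v - EuclideanSpace.single i (2 * σ * v i), v)
    with hI
  set c : ℝ := γ i * a₂ * Real.exp (-(L₁ * τ + L₂ * δ)) with hc
  have hγi := hγ i
  have key : ∀ s ∈ Ioc (0 : ℝ) (τ / 2), ENNReal.ofReal c * I ≤ surv (zigzag U γ) (x, v) s *
      ∫⁻ w, (∫⁻ u, g u ∂lawN (zigzag U γ) 1 (τ - s) w) ∂zigzag U γ (flow s (x, v)) := by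
    intro s hs
    have hs1 : ENNReal.ofReal (Real.exp (-(L₁ * s))) ≤ surv (zigzag U γ) (x, v) s := by
      refine le_surv h _ hs.1.le fun u hu0 hu => (hb (x + u • v) ?_).1
      have := norm_comb v i (a := u) (b := 0) (c := 0) (τ := τ) hu0 le_rfl le_rfl
        (by linarith [hs.2])
      simpa using this
    have hj1 := le_jump U γ (flow s (x, v)) i
      (fun w => ∫⁻ u, g u ∂lawN (zigzag U γ) 1 (τ - s) w)
    have hγ1 : ENNReal.ofReal (γ i) ≤ ENNReal.ofReal
        (max ((flow s (x, v)).2 i * gradient U (flow s (x, v)).1 i) 0 + γ i) :=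
      ENNReal.ofReal_le_ofReal (le_add_of_nonneg_left (le_max_right _ _))
    have hin : ENNReal.ofReal (a₂ * Real.exp (-(L₁ * (τ - s) + L₂ * δ))) * I ≤
        ∫⁻ u, g u ∂lawN (zigzag U γ) 1 (τ - s) (x + s • v, flip i v) := by
      rw [lint_lawN_succ h 0 _ _ hg]
      have hsub2 : Ioo (0 : ℝ) δ ⊆ Ioc 0 (τ - s) := fun σ hσ =>
        ⟨hσ.1, by linarith [hσ.2, hs.2]⟩
      refine le_trans ?_ (lintegral_mono_set hsub2)
      rw [hI, ← lintegral_const_mul _ (meas_end x v i τ 2 hg)]
      refine setLIntegral_mono' measurableSet_Ioo fun σ hσ => ?_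
      have hs2 : ENNReal.ofReal (Real.exp (-(L₂ * σ))) ≤
          surv (zigzag U γ) (x + s • v, flip i v) σ := by
        refine le_surv h _ hσ.1.le fun u hu0 hu => (hb (x + s • v + u • flip i v) ?_).2.1
        have := norm_comb v i (a := s) (b := u) (c := 0) (τ := τ) hs.1.le hu0 le_rfl
          (by linarith [hs.2, hσ.2])
        simpa [add_assoc] using this
      have hj2 := le_jump U γ (flow σ (x + s • v, flip i v)) i
        (fun w => ∫⁻ u, g u ∂lawN (zigzag U γ) 0 (τ - s - σ) w)
      have ha : ENNReal.ofReal a₂ ≤ ENNReal.ofReal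
          (max ((flow σ (x + s • v, flip i v)).2 i *
            gradient U (flow σ (x + s • v, flip i v)).1 i) 0 + γ i) := by
        refine ENNReal.ofReal_le_ofReal (hb (x + s • v + σ • flip i v) ?_).2.2
        have := norm_comb v i (a := s) (b := σ) (c := 0) (τ := τ) hs.1.le hσ.1.le le_rfl
          (by linarith [hs.2, hσ.2])
        simpa [add_assoc] using this
      have ht3 : 0 ≤ τ - s - σ := by linarith [hs.2, hσ.2]
      have hs3 : ENNReal.ofReal (Real.exp (-(L₁ * (τ - s - σ)))) ≤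
          surv (zigzag U γ) (x + s • v + σ • flip i v, v) (τ - s - σ) := by
        refine le_surv h _ ht3 fun u hu0 hu => (hb (x + s • v + σ • flip i v + u • v) ?_).1
        have := norm_comb v i (a := s) (b := σ) (c := u) (τ := τ) hs.1.le hσ.1.le hu0
          (by linarith)
        simpa [add_assoc] using this
      have hend : flow (τ - s - σ) (x + s • v + σ • flip i v, v) =
          (x + τ • v - EuclideanSpace.single i (2 * σ * v i), v) := by
        simp only [flow]
        congr 1
        ext j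
        by_cases hj : j = i
        · subst hj; simp [flip]; ring
        · simp [flip, hj]; ring
      have hz : ((flow σ (x + s • v, flip i v)).1, flip i (flow σ (x + s • v, flip i v)).2) =
          (x + s • v + σ • flip i v, v) := by
        simp only [flow, flip_flip]
      rw [hz, lint_lawN_zero h _ _ hg, hend] at hj2
      refine le_trans ?_ (mul_le_mul' hs2 (le_trans (mul_le_mul' ha
        (mul_le_mul' hs3 le_rfl)) hj2))
      rw [← mul_assoc, ← mul_assoc, ← ENNReal.ofReal_mul (Real.exp_nonneg _),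
        ← ENNReal.ofReal_mul (by positivity)]
      refine mul_le_mul' (ENNReal.ofReal_le_ofReal ?_) le_rfl
      rw [mul_comm (Real.exp _) a₂, mul_assoc, ← Real.exp_add]
      refine mul_le_mul_of_nonneg_left (Real.exp_le_exp.mpr ?_) ha₂
      nlinarith [hσ.1, hσ.2, mul_nonneg hL₁ hσ.1.le, mul_nonneg hL₂ (sub_nonneg.mpr hσ.2.le)]
    refine le_trans ?_ (mul_le_mul' hs1 (le_trans (mul_le_mul' hγ1 hin) hj1))
    rw [← mul_assoc, ← mul_assoc, ← ENNReal.ofReal_mul (Real.exp_nonneg _),
      ← ENNReal.ofReal_mul (by positivity)]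
    refine mul_le_mul' (ENNReal.ofReal_le_ofReal (le_of_eq ?_)) le_rfl
    have : Real.exp (-(L₁ * τ + L₂ * δ)) =
        Real.exp (-(L₁ * s)) * Real.exp (-(L₁ * (τ - s) + L₂ * δ)) := by
      rw [← Real.exp_add]; congr 1; ring
    rw [hc, this]; ring
  refine le_trans (le_of_eq ?_) (setLIntegral_mono' measurableSet_Ioc key)
  rw [setLIntegral_const, Real.volume_Ioc, sub_zero, mul_right_comm (ENNReal.ofReal c),
    ← ENNReal.ofReal_mul (by positivity)]
  congr 2
  rw [hc]; ring

/-- the double flip, parametrised by the displacement -/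
lemma zd' (h2 : sZD) (U : Euc d → ℝ) (γ : Fin d → ℝ) (x v : Euc d) (i : Fin d)
    (τ δ L₁ L₂ a₂ : ℝ) (g : St d → ℝ≥0∞) (hU : Standing U) (hγ : ∀ i, 0 < γ i) (hδ : 0 < δ)
    (hτ : 2 * δ ≤ τ) (hL₁ : 0 ≤ L₁) (hL₂ : 0 ≤ L₂) (ha₂ : 0 ≤ a₂) (hg : Measurable g)
    (hb : ∀ y, ‖y - x‖ ≤ τ * ‖v‖ → rZ U γ (y, v) ≤ L₁ ∧ rZ U γ (y, flip i v) ≤ L₂ ∧
      a₂ ≤ max (flip i v i * gradient U y i) 0 + γ i) :
    ENNReal.ofReal (τ / 4 * γ i * a₂ * Real.exp (-(L₁ * τ + L₂ * δ))) *
        ∫⁻ ρ in Ioo (0 : ℝ) (2 * δ), g (x + τ • v - EuclideanSpace.single i (ρ * v i), v) ≤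
      ∫⁻ u, g u ∂W (zigzag U γ) τ (x, v) := by
  refine le_trans (le_of_eq ?_) (h2 d U γ x v i τ δ L₁ L₂ a₂ g hU hγ hδ hτ hL₁ hL₂ ha₂ hg hb)
  have hm : Measurable fun ρ : ℝ => g (x + τ • v - EuclideanSpace.single i (ρ * v i), v) := by
    simpa using meas_end x v i τ 1 hg
  have hmul : Measurable fun σ : ℝ => 2 * σ := by fun_prop
  have h1 := setLIntegral_map (μ := volume) (s := Ioo (0 : ℝ) (2 * δ)) measurableSet_Ioo hm hmul
  have hpre : (fun σ : ℝ => 2 * σ) ⁻¹' Ioo (0 : ℝ) (2 * δ) = Ioo 0 δ := by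
    ext σ
    simp only [mem_preimage, mem_Ioo]
    constructor <;> rintro ⟨h1, h2⟩ <;> constructor <;> linarith
  rw [hpre, Real.map_volume_mul_left two_ne_zero, Measure.restrict_smul, lintegral_smul_measure,
    smul_eq_mul] at h1
  rw [← h1, ← mul_assoc, ← ENNReal.ofReal_mul (by have := hγ i; have : 0 ≤ τ := by linarith
                                                  positivity)]
  congr 2
  rw [abs_of_pos (by norm_num)]; ring

/-- displacement vector -/
noncomputable def dis (v : Euc d) (ρ : Fin d → ℝ) : Euc d := WithLp.toLp 2 fun j => ρ j * v j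

lemma continuous_dis (v : Euc d) : Continuous (dis v) := by
  unfold dis; fun_prop

theorem zb (h1 : sSemi) (h2 : sZD) : sZB := by
  intro d U γ z τ L₁ δ L₂ a₂ g hU hγ hz hτ hδ hδτ hL₁ hL₂ ha₂ hg hb
  obtain ⟨x, v⟩ := z
  simp only at hb ⊢
  have h : Reg (zigzag U γ) (rZ U γ) := zigzag_reg hU hγ
  have hC : Confined (zigzag U γ) (rZ U γ) := zigzag_confined hγ
  set c : Fin d → ℝ := fun i => τ / 4 * γ i * a₂ i * Real.exp (-(L₁ * τ + L₂ i * δ i)) with hc
  have hc0 : ∀ i, 0 ≤ c i := fun i => by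
    have := hγ i; have := ha₂ i; simp only [hc]; positivity
  set μ : Fin d → Measure ℝ := fun i => volume.restrict (Ioo (0 : ℝ) (2 * δ i)) with hμ
  set f : (Fin d → ℝ) → ℝ≥0∞ := fun ρ => g (x + ((d : ℝ) * τ) • v - dis v ρ, v) with hf
  have hfm : Measurable f := by
    refine hg.comp (Measurable.prodMk ?_ measurable_const)
    exact (continuous_const.sub (continuous_dis v)).measurable
  have key : ∀ s : Finset (Fin d), ∀ ρ₀ : Fin d → ℝ, (∀ j ∈ s, ρ₀ j = 0) →
      ‖(((d : ℝ) - s.card) * τ) • v - dis v ρ₀‖ ≤ ((d : ℝ) - s.card) * τ * ‖v‖ →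
      ENNReal.ofReal (∏ i ∈ s, c i) * lmarginal μ s f ρ₀ ≤
        ∫⁻ u, g u ∂W (zigzag U γ) (s.card * τ)
          (x + (((d : ℝ) - s.card) * τ) • v - dis v ρ₀, v) := by
    intro s
    induction s using Finset.induction_on with
    | empty =>
      intro ρ₀ _ _
      refine le_trans (le_of_eq ?_) (lint_lawN_le 0 _ _ g)
      rw [lint_lawN_zero h _ _ hg]
      simp [flow_zero, surv, hf]
    | insert i s hi ih =>
      intro ρ₀ h0 hn
      rw [Finset.card_insert_of_notMem hi, Nat.cast_add, Nat.cast_one] at hn ⊢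
      have hs0 : (0 : ℝ) ≤ s.card * τ := by positivity
      have hG : Measurable fun u => ∫⁻ w, g w ∂W (zigzag U γ) (s.card * τ) u :=
        meas_lint (measurable_Wt h _) hg
      rw [show ((s.card : ℝ) + 1) * τ = τ + s.card * τ by ring,
        h1 d _ _ h hC τ _ hτ.le hs0,
        Measure.lintegral_bind (measurable_Wt h _).aemeasurable hg.aemeasurable]
      refine le_trans ?_ (zd' h2 U γ _ v i τ (δ i) L₁ (L₂ i) (a₂ i) _ hU hγ (hδ i) (hδτ i) hL₁
        (hL₂ i) (ha₂ i) hG fun y hy => ?_)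
      · rw [Finset.prod_insert hi, ENNReal.ofReal_mul (hc0 i), mul_assoc,
          lmarginal_insert f hfm hi, ← lintegral_const_mul' _ _ ENNReal.ofReal_ne_top]
        refine mul_le_mul' le_rfl (setLIntegral_mono' measurableSet_Ioo fun ρ hρ => ?_)
        have hi0 : ρ₀ i = 0 := h0 i (Finset.mem_insert_self i s)
        have hd : (((d : ℝ) - s.card) * τ) • v - dis v (Function.update ρ₀ i ρ) =
            ((((d : ℝ) - (s.card + 1)) * τ) • v - dis v ρ₀) +
              ((τ - ρ / 2) • v + (ρ / 2) • flip i v + (0 : ℝ) • v) := by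
          ext j
          by_cases hj : j = i
          · subst hj; simp [dis, flip, hi0]; ring
          · simp [dis, flip, hj]; ring
        have hx : x + (((d : ℝ) - (s.card + 1)) * τ) • v - dis v ρ₀ + τ • v -
            EuclideanSpace.single i (ρ * v i) =
            x + (((d : ℝ) - s.card) * τ) • v - dis v (Function.update ρ₀ i ρ) := by
          ext j
          by_cases hj : j = i
          · subst hj; simp [dis, hi0]; ring
          · simp [dis, hj]; ring
        rw [hx]
        refine ih _ (fun j hj => ?_) ?_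
        · have hne : j ≠ i := fun e => hi (e ▸ hj)
          rw [Function.update_of_ne hne]
          exact h0 j (Finset.mem_insert_of_mem hj)
        · rw [hd]
          have := norm_comb v i (a := τ - ρ / 2) (b := ρ / 2) (c := 0) (τ := τ)
            (by linarith [hρ.2, hδτ i, hδ i]) (by linarith [hρ.1]) le_rfl (by linarith)
          refine (norm_add_le _ _).trans ?_
          linarith
      · have h3 : ‖y - x‖ ≤ d * τ * ‖v‖ := by
          have e : y - x = (y - (x + (((d : ℝ) - (s.card + 1)) * τ) • v - dis v ρ₀)) +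
              ((((d : ℝ) - (s.card + 1)) * τ) • v - dis v ρ₀) := by abel
          rw [e]
          refine (norm_add_le _ _).trans ?_
          nlinarith [mul_nonneg hs0 (norm_nonneg v)]
        exact ⟨(hb y h3).1, ((hb y h3).2 i).1, ((hb y h3).2 i).2⟩
  have hd0 : dis v 0 = 0 := by ext j; simp [dis]
  have hk := key Finset.univ 0 (fun _ _ => rfl) (by simp [hd0])
  simp only [Finset.card_univ, Fintype.card_fin, sub_self, zero_mul, zero_smul, add_zero, hd0,
    sub_zero, lmarginal_univ] at hk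
  refine le_trans (le_of_eq ?_) hk
  congr 1
  have hv : ∀ j, v j * v j = 1 := fun j => by rcases hz j with e | e <;> simp at e <;> simp [e]
  have hp1 : ∀ j, MeasurePreserving (fun ρ : ℝ => x j + d * τ * v j - ρ * v j) volume volume := by
    intro j
    rcases hz j with e | e <;> simp only at e
    · simpa [e] using Measure.measurePreserving_sub_left volume (x j + d * τ)
    · simpa [e] using measurePreserving_add_left volume (x j + -(d * τ))
  have hp2 := (PiLp.volume_preserving_toLp (Fin d)).comp (volume_preserving_pi hp1)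
  have hBm : MeasurableSet (Box τ δ (x, v)) := by
    simp only [Box, ofPred_forall]
    refine MeasurableSet.iInter fun i => ?_
    have hm : Measurable fun y : Euc d => (x i + d * τ * v i - y i) * v i := by fun_prop
    exact hm (measurableSet_Ioo (a := 0) (b := 2 * δ i))
  have hgm : Measurable fun y : Euc d => g (y, v) := hg.comp (measurable_id.prodMk measurable_const)
  rw [← hp2.setLIntegral_comp_preimage hBm hgm, hμ, ← Measure.restrict_pi_pi, ← volume_pi]
  have hpre : ((WithLp.toLp 2) ∘ fun (a : Fin d → ℝ) i => x i + d * τ * v i - a i * v i) ⁻¹'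
      Box τ δ (x, v) = univ.pi fun i => Ioo (0 : ℝ) (2 * δ i) := by
    ext a
    simp only [Box, mem_preimage, Function.comp, mem_ofPred_eq, mem_pi, mem_univ, true_imp_iff,
      mem_Ioo]
    refine forall_congr' fun i => ?_
    rw [show (x i + d * τ * v i - (x i + d * τ * v i - a i * v i)) * v i = a i * (v i * v i) by
      ring, hv, mul_one]
  rw [hpre]
  refine lintegral_congr fun a => ?_
  simp only [hf, Function.comp]
  congr 2

end Pool.Agent.Lib.MP_2024f4_pr.TR.ZD
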