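import Mathlib
import Pool.Agent.Lib.MP_2024f4_pr.TR.St

set_option autoImplicit false

open MeasureTheory ProbabilityTheory Set
open scoped ENNReal

namespace Pool.Agent.Lib.MP_2024f4_pr.TR.ZL

variable {d : ℕ} {U : Euc d → ℝ} {M : ℝ} {γ : Fin d → ℝ}

lemma flip_self (i : Fin d) (v : Euc d) : flip i v i = -v i := by simp [flip]; ring

lemma flip_ne {i j : Fin d} (h : j ≠ i) (v : Euc d) : flip i v j = v j := by simp [flip, h]

lemma drift_zz (hγ : ∀ i, 0 < γ i) {V : St d → ℝ} (hV : Measurable V) (hV0 : ∀ z, 0 ≤ V z)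
    {c b D : ℝ} {z : St d} (hD : HasDerivAt (fun s => V (flow s z)) D 0)
    (h : D + ∑ i, (max (z.2 i * gradient U z.1 i) 0 + γ i) * (V (z.1, flip i z.2) - V z) ≤
      -c * V z + b) : Drift (zigzag U γ) (rZ U γ) V c b z := by
  have hn : ∀ i, 0 ≤ max (z.2 i * gradient U z.1 i) 0 + γ i := fun i =>
    add_nonneg (le_max_right _ _) (hγ i).le
  refine ⟨D, ∑ i, (max (z.2 i * gradient U z.1 i) 0 + γ i) * V (z.1, flip i z.2), hD,
    Finset.sum_nonneg fun i _ => mul_nonneg (hn i) (hV0 _), le_of_eq ?_, ?_⟩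
  · rw [zigzag, lintegral_finsetSum_measure,
      ENNReal.ofReal_sum_of_nonneg fun i _ => mul_nonneg (hn i) (hV0 _)]
    refine Finset.sum_congr rfl fun i _ => ?_
    rw [lintegral_smul_measure, lintegral_dirac' _ hV.ennreal_ofReal,
      smul_eq_mul, ENNReal.ofReal_mul (hn i)]
  · simp only [mul_sub, Finset.sum_sub_distrib, ← Finset.sum_mul] at h
    rw [rZ]
    linarith

lemma sum_le {f : Fin d → ℝ} {c : ℝ} (h : ∀ i, f i ≤ c) : ∑ i, f i ≤ d * c :=
  (Finset.sum_le_sum fun i _ => h i).trans_eq (by simp)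

lemma abs_sign {z : St d} (hz : z ∈ SZ d) (i : Fin d) : |z.2 i| = 1 := by
  rcases hz i with h | h <;> simp [h]

lemma norm_sign {z : St d} (hz : z ∈ SZ d) : ‖z.2‖ ≤ d + 1 := by
  rw [EuclideanSpace.norm_eq]
  simp only [Real.norm_eq_abs, abs_sign hz, one_pow, Finset.sum_const, Finset.card_univ,
    Fintype.card_fin, nsmul_eq_mul, mul_one]
  have : (0 : ℝ) ≤ d := Nat.cast_nonneg d
  exact Real.sqrt_le_iff.2 ⟨by positivity, by nlinarith⟩

lemma der_s (h : Hess U M) {z : St d} (hz : z ∈ SZ d) (i : Fin d) :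
    ∃ D : ℝ, HasDerivAt (fun s : ℝ => z.2 i * gradient U (z.1 + s • z.2) i) D 0 ∧
      |D| ≤ M * (d + 1) := by
  obtain ⟨D, h1, h2⟩ := h.der2 z.1 z.2 (EuclideanSpace.single i (z.2 i))
  refine ⟨D, ?_, h2.trans ?_⟩
  · simpa only [EuclideanSpace.inner_single_left, conj_trivial] using h1
  · rw [PiLp.norm_single, Real.norm_eq_abs, abs_sign hz, mul_one]
    exact mul_le_mul_of_nonneg_left (norm_sign hz) (by linarith [h.one_le])

lemma abs_arctan (s : ℝ) : |Real.arctan s| ≤ 2 := by
  have := Real.arctan_lt_pi_div_two s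
  have := Real.neg_pi_div_two_lt_arctan s
  have := Real.pi_le_four
  exact abs_le.2 ⟨by linarith, by linarith⟩

lemma mul_arctan {s : ℝ} (hs : 0 ≤ s) : 3 / 4 * (s - 1) ≤ s * Real.arctan s := by
  have h0 : 0 ≤ Real.arctan s := Real.arctan_nonneg.2 hs
  by_cases h : s ≤ 1
  · nlinarith
  · have h1 := Real.arctan_strictMono.monotone (le_of_not_ge h)
    rw [Real.arctan_one] at h1
    have := Real.pi_gt_three
    nlinarith

lemma coord {ε δ P s g : ℝ} (hε : 0 ≤ ε) (hδ : 0 ≤ δ) (h1 : 1 / 2 ≤ P) (h2 : P ≤ 3 / 2)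
    (hg : 0 ≤ g) :
    ε * s * P / 2 - 2 * δ * ((max s 0 + g) * Real.arctan s) ≤ ε * |s| + δ * (2 + 4 * g) ∧
    (ε ≤ δ → ε * s * P / 2 - 2 * δ * ((max s 0 + g) * Real.arctan s) ≤
      -(ε * |s| / 4) + δ * (2 + 4 * g)) := by
  have h3 : -(2 * g) ≤ g * Real.arctan s := by nlinarith [(abs_le.1 (abs_arctan s)).1]
  have h4 := mul_le_mul_of_nonneg_left h3 hδ
  rcases le_total 0 s with hs | hs
  · rw [max_eq_left hs, abs_of_nonneg hs]
    have h5 := mul_le_mul_of_nonneg_left (mul_arctan hs) hδ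
    have h6 := mul_le_mul_of_nonneg_left h2 (mul_nonneg hε hs)
    have h7 := mul_nonneg hδ (mul_nonneg hs (Real.arctan_nonneg.2 hs))
    have h8 := mul_nonneg hε hs
    refine ⟨by nlinarith, fun h => ?_⟩
    have h9 := mul_le_mul_of_nonneg_right h hs
    nlinarith
  · rw [max_eq_right hs, abs_of_nonpos hs]
    have h8 := mul_nonneg hε (neg_nonneg.2 hs)
    have h6 := mul_le_mul_of_nonneg_left h1 h8
    exact ⟨by nlinarith, fun _ => by nlinarith⟩

lemma norm_le_sum (g : Euc d) : ‖g‖ ≤ ∑ i, |g i| := by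
  rw [EuclideanSpace.norm_eq]
  exact Real.sqrt_le_iff.2 ⟨Finset.sum_nonneg fun i _ => abs_nonneg _,
    Finset.sum_sq_le_sq_sum_of_nonneg fun i _ => abs_nonneg _⟩

theorem zl : sZL := by
  intro d U w M C₀ c₁ C₁ w₀ γ a hP hγ ha
  have hd : (0 : ℝ) ≤ d := Nat.cast_nonneg d
  have hM : 0 ≤ M := by linarith [hP.hess.one_le]
  have hc₁ := hP.c₁_pos
  have hC₁ := hP.one_le_C₁
  have hG : 0 ≤ ∑ i, γ i := Finset.sum_nonneg fun i _ => (hγ i).le
  obtain ⟨C5, hC5⟩ : ∃ C5, C5 = 1 + 2 * d + 4 * ∑ i, γ i + d * (M * (d + 1)) := ⟨_, rfl⟩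
  have hC5p : 0 < C5 := by rw [hC5]; positivity
  obtain ⟨δ, hδ, hδ1, hδ2⟩ : ∃ δ : ℝ, 0 < δ ∧ δ * (4 * d + 4) ≤ 1 ∧ δ * (4 * C5) ≤ a * c₁ :=
    ⟨min (1 / (4 * d + 4)) (a * c₁ / (4 * C5)), by positivity,
      (le_div_iff₀ (by positivity)).1 (min_le_left _ _),
      (le_div_iff₀ (by positivity)).1 (min_le_right _ _)⟩
  let P : St d → ℝ := fun z => 1 + δ * ∑ i, Real.arctan (z.2 i * gradient U z.1 i)
  have hPb : ∀ z, 1 / 2 ≤ P z ∧ P z ≤ 3 / 2 := fun z => by
    have h1 : |∑ i, Real.arctan (z.2 i * gradient U z.1 i)| ≤ d * 2 := by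
      exact (Finset.abs_sum_le_sum_abs _ _).trans (sum_le fun i => abs_arctan _)
    have h2 := mul_le_mul_of_nonneg_left (abs_le.1 h1).1 hδ.le
    have h3 := mul_le_mul_of_nonneg_left (abs_le.1 h1).2 hδ.le
    exact ⟨by simp only [P]; nlinarith, by simp only [P]; nlinarith⟩
  let V : St d → ℝ := fun z => Real.exp (a * w z.1) * P z
  have hVm : Measurable V := by
    have h1 := hP.contw
    have h2 := hP.hess.cont
    have h3 := Real.continuous_arctan
    exact Continuous.measurable (by simp only [V, P]; fun_prop)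
  have hV0 : ∀ z, 0 ≤ V z := fun z => mul_nonneg (Real.exp_nonneg _) (by linarith [(hPb z).1])
  obtain ⟨K, hK⟩ : ∃ K, K = d * (2 * C₁ * a) + δ * C5 + a * c₁ / 4 := ⟨_, rfl⟩
  have hK0 : 0 ≤ K := by rw [hK]; positivity
  refine ⟨V, a * c₁ / 6, Real.exp (a * max w₀ (a / δ)) * K, hVm, by positivity, by positivity,
    fun z => ?_, fun z hz => ?_⟩
  · have := Real.exp_pos (a * w z.1)
    exact ⟨by simp only [V]; nlinarith [hPb z], by simp only [V]; nlinarith [hPb z]⟩
  choose D hD hDb using der_s hP.hess hz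
  have hw := hP.one_le z.1
  have hw0 : 0 < w z.1 := by linarith
  have hin : inner ℝ z.2 (gradient U z.1) = ∑ i, z.2 i * gradient U z.1 i := by
    rw [PiLp.inner_apply]
    exact Finset.sum_congr rfl fun i _ => by rw [RCLike.inner_apply, conj_trivial, mul_comm]
  have hder := (((hP.der z.1 z.2).const_mul a).exp).mul
    (((HasDerivAt.fun_sum fun i (_ : i ∈ Finset.univ) => (hD i).arctan).const_mul δ).const_add 1)
  refine drift_zz hγ hVm hV0 hder ?_
  simp only [zero_smul, add_zero]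
  have hfl : ∀ i, V (z.1, flip i z.2) - V z =
      Real.exp (a * w z.1) * (-(2 * δ * Real.arctan (z.2 i * gradient U z.1 i))) := fun i => by
    simp only [V, P]
    rw [← Finset.add_sum_erase _ _ (Finset.mem_univ i),
      ← Finset.add_sum_erase _ (fun j => Real.arctan (z.2 j * gradient U z.1 j))
        (Finset.mem_univ i), flip_self, neg_mul, Real.arctan_neg,
      Finset.sum_congr rfl fun j hj => by rw [flip_ne (Finset.ne_of_mem_erase hj)]]
    ring
  have hε : 0 ≤ a / w z.1 := by positivity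
  obtain ⟨T, hT⟩ : ∃ T, T = ∑ i, (a / w z.1 * (z.2 i * gradient U z.1 i) * P z / 2 -
    2 * δ * ((max (z.2 i * gradient U z.1 i) 0 + γ i) *
      Real.arctan (z.2 i * gradient U z.1 i))) := ⟨_, rfl⟩
  obtain ⟨Q, hQ⟩ : ∃ Q, Q = ∑ i, 1 / (1 + (z.2 i * gradient U z.1 i) ^ 2) * D i := ⟨_, rfl⟩
  have hQb : Q ≤ d * (M * (d + 1)) := by
    rw [hQ]
    exact sum_le fun i => by
      have h1 : 1 / (1 + (z.2 i * gradient U z.1 i) ^ 2) ≤ 1 :=
        (div_le_one (by positivity)).2 (by nlinarith [sq_nonneg (z.2 i * gradient U z.1 i)])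
      have h2 : 0 ≤ 1 / (1 + (z.2 i * gradient U z.1 i) ^ 2) := by positivity
      nlinarith [abs_le.1 (hDb i), abs_nonneg (D i), le_abs_self (D i), hDb i]
  have hmain : Real.exp (a * w z.1) * (T + δ * Q) ≤
      -(a * c₁ / 6) * V z + Real.exp (a * max w₀ (a / δ)) * K := by
    have hE := Real.exp_pos (a * w z.1)
    have hs : ∀ i, |z.2 i * gradient U z.1 i| = |gradient U z.1 i| := fun i => by
      rw [abs_mul, abs_sign hz, one_mul]
    have hco := fun i => coord (s := z.2 i * gradient U z.1 i) hε hδ.le (hPb z).1 (hPb z).2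
      (hγ i).le
    have hsum : ∑ i : Fin d, δ * (2 + 4 * γ i) = δ * (2 * d + 4 * ∑ i, γ i) := by
      rw [← Finset.mul_sum, Finset.sum_add_distrib, ← Finset.mul_sum]
      simp [mul_comm]
    have hq := mul_le_mul_of_nonneg_left hQb hδ.le
    have hcP := mul_le_mul_of_nonneg_left (hPb z).2 (show 0 ≤ a * c₁ / 6 by positivity)
    by_cases hb : max w₀ (a / δ) ≤ w z.1
    · have h1 : a / w z.1 ≤ δ := by
        have := (div_le_iff₀ hδ).1 ((le_max_right _ _).trans hb)
        rw [div_le_iff₀ hw0]; linarith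
      have h2 : T ≤ -(a / w z.1 * (∑ i, |gradient U z.1 i|) / 4) +
          δ * (2 * d + 4 * ∑ i, γ i) := by
        rw [hT, ← hsum, Finset.mul_sum, Finset.sum_div, ← Finset.sum_neg_distrib,
          ← Finset.sum_add_distrib]
        exact Finset.sum_le_sum fun i _ => hs i ▸ (hco i).2 h1
      have h3 := mul_le_mul_of_nonneg_left
        ((hP.pl _ ((le_max_left _ _).trans hb)).trans (norm_le_sum _)) hε
      have h4 : a / w z.1 * (2 * c₁ * w z.1) = 2 * (a * c₁) := by field_simp
      have h5 : T + δ * Q ≤ -(a * c₁ / 6) * P z := by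
        rw [hC5] at hδ2
        nlinarith
      have h6 := mul_le_mul_of_nonneg_left h5 hE.le
      have h7 : 0 ≤ Real.exp (a * max w₀ (a / δ)) * K := by positivity
      simp only [V]
      nlinarith
    · have h2 : T ≤ d * (2 * C₁ * a) + δ * (2 * d + 4 * ∑ i, γ i) := by
        rw [hT, ← hsum]
        refine (Finset.sum_le_sum fun i _ => (hco i).1).trans ?_
        rw [Finset.sum_add_distrib]
        refine add_le_add_left ?_ _
        exact sum_le fun i => by
          have h3 := mul_le_mul_of_nonneg_left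
            ((PiLp.norm_apply_le (gradient U z.1) i).trans (hP.up z.1)) hε
          have h4 : a / w z.1 * (2 * C₁ * w z.1) = 2 * C₁ * a := by field_simp
          rw [hs i, ← h4]
          exact h3
      have h5 : T + δ * Q + a * c₁ / 6 * P z ≤ K := by
        rw [hK, hC5]
        nlinarith
      have h6 := mul_le_mul_of_nonneg_left h5 hE.le
      have h7 := mul_le_mul_of_nonneg_right (Real.exp_le_exp.2
        (mul_le_mul_of_nonneg_left (le_of_not_ge hb) ha.le)) hK0
      simp only [V]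
      nlinarith
  refine le_trans (le_of_eq ?_) hmain
  simp only [hfl]
  rw [hin, ← hQ, hT, Finset.sum_sub_distrib, ← Finset.sum_div, ← Finset.sum_mul,
    ← Finset.mul_sum, ← Finset.mul_sum]
  have : ∑ i, (max (z.2 i * gradient U z.1 i) 0 + γ i) *
      (Real.exp (a * w z.1) * -(2 * δ * Real.arctan (z.2 i * gradient U z.1 i))) =
      -(Real.exp (a * w z.1) * (2 * δ * ∑ i, (max (z.2 i * gradient U z.1 i) 0 + γ i) *
        Real.arctan (z.2 i * gradient U z.1 i))) := by
    rw [Finset.mul_sum, Finset.mul_sum, ← Finset.sum_neg_distrib]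
    exact Finset.sum_congr rfl fun i _ => by ring
  rw [this]
  simp only [P]
  field_simp
  ring

lemma der_pos (u : ℝ) : HasDerivAt (fun u : ℝ => max u 0 ^ 2) (2 * max u 0) u := by
  rcases lt_trichotomy u 0 with h | h | h
  · rw [max_eq_right h.le, mul_zero]
    refine (hasDerivAt_const u (0 : ℝ)).congr_of_eventuallyEq ?_
    filter_upwards [Iio_mem_nhds h] with x hx
    rw [max_eq_right (le_of_lt hx)]; ring
  · subst h
    rw [max_self, mul_zero, hasDerivAt_iff_isLittleO_nhds_zero]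
    refine Asymptotics.IsBigO.trans_isLittleO (g := fun x : ℝ => x ^ 2)
      (Asymptotics.isBigO_of_le _ fun x => ?_) (Asymptotics.isLittleO_pow_id one_lt_two)
    simp only [zero_add, max_self, smul_eq_mul, mul_zero, sub_zero, Real.norm_eq_abs, abs_pow,
      sq_abs, ne_eq, OfNat.ofNat_ne_zero, not_false_eq_true, zero_pow]
    rcases le_total x 0 with hx | hx
    · rw [max_eq_right hx]; nlinarith [sq_nonneg x]
    · rw [max_eq_left hx]
  · rw [max_eq_left h.le]
    refine (by simpa using hasDerivAt_pow 2 u : HasDerivAt (fun x : ℝ => x ^ 2) (2 * u) u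
      ).congr_of_eventuallyEq ?_
    filter_upwards [Ioi_mem_nhds h] with x hx
    rw [max_eq_left (le_of_lt hx)]

/-- a bounded cut-off -/
noncomputable def cut (u : ℝ) : ℝ := 2 - 2 / (1 + max u 0 ^ 2)

lemma cut_bd (u : ℝ) : 0 ≤ cut u ∧ cut u ≤ 2 := by
  have h1 : 0 < 1 + max u 0 ^ 2 := by positivity
  have h2 : 2 / (1 + max u 0 ^ 2) ≤ 2 := by
    rw [div_le_iff₀ h1]; nlinarith [sq_nonneg (max u 0)]
  have h3 : 0 ≤ 2 / (1 + max u 0 ^ 2) := by positivity
  exact ⟨by rw [cut]; linarith, by rw [cut]; linarith⟩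

lemma cut_zero {u : ℝ} (h : u ≤ 0) : cut u = 0 := by simp [cut, max_eq_right h]

lemma cut_one {u : ℝ} (h : 1 ≤ u) : 1 ≤ cut u := by
  have h2 : 2 / (1 + max u 0 ^ 2) ≤ 1 := by
    rw [div_le_iff₀ (by positivity), max_eq_left (by linarith)]; nlinarith
  rw [cut]; linarith

lemma cut_der (u : ℝ) : ∃ D, HasDerivAt cut D u ∧ |D| ≤ 2 := by
  have h1 : 0 < 1 + max u 0 ^ 2 := by positivity
  have h0 : 0 ≤ max u 0 := le_max_right _ _
  refine ⟨_, ((hasDerivAt_const u (2 : ℝ)).div ((der_pos u).const_add 1) h1.ne').const_sub 2, ?_⟩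
  rw [abs_neg, abs_div, abs_of_pos (pow_pos h1 2), div_le_iff₀ (pow_pos h1 2), zero_mul, zero_sub,
    abs_neg, abs_of_nonneg (by positivity)]
  nlinarith [sq_nonneg (max u 0 - 1), sq_nonneg (max u 0), sq_nonneg (max u 0 ^ 2)]

lemma closed_SZ : Closed (zigzag U γ) (SZ d) := by
  have hm : MeasurableSet (SZ d) := by
    rw [SZ, Set.ofPred_forall]
    exact MeasurableSet.iInter fun i =>
      ((isClosed_eq (by fun_prop) continuous_const).union
        (isClosed_eq (by fun_prop) continuous_const)).measurableSet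
  refine ⟨hm, fun z hz s => hz, fun z hz => ?_⟩
  simp only [zigzag, Measure.finsetSum_apply, Measure.smul_apply, smul_eq_mul]
  refine Finset.sum_eq_zero fun i _ => mul_eq_zero_of_right _ ?_
  rw [Measure.dirac_apply' _ hm.compl]
  refine indicator_of_notMem (not_not.2 fun j => ?_) _
  by_cases h : j = i
  · subst h
    rcases hz j with h | h <;> simp [flip_self, h]
  · simpa [flip_ne h] using hz j

theorem zg (h : sLyap) : sZG := by
  intro d U M γ hU hH hγ
  have hd : (0 : ℝ) ≤ d := Nat.cast_nonneg d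
  have hM : 0 ≤ M := by linarith [hH.one_le]
  have hG : 0 ≤ ∑ i, γ i := Finset.sum_nonneg fun i _ => (hγ i).le
  obtain ⟨b, hb⟩ : ∃ b, b = 2 * (M * (d + 1)) + 2 * ∑ i, γ i := ⟨_, rfl⟩
  have hb0 : 0 ≤ b := by rw [hb]; positivity
  obtain ⟨A, hA⟩ : ∃ A, A = 2 * d * (2 + b) + 1 := ⟨_, rfl⟩
  have hA0 : 0 < A := by rw [hA]; positivity
  have hR := zigzag_reg hU hγ
  refine ⟨A + 1, by positivity, fun z hz => ?_⟩
  have hcc : Continuous cut := continuous_iff_continuousAt.2 fun u =>
    (cut_der u).choose_spec.1.continuousAt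
  have key : ∀ i, W (zigzag U γ) 1 z {y | A + 1 < y.2 i * gradient U y.1 i} ≤
      ENNReal.ofReal ((2 + b) / A) := fun i => by
    have hVm : Measurable fun y : St d => cut (y.2 i * gradient U y.1 i - A) := by
      have := hH.cont
      exact Continuous.measurable (by fun_prop)
    have h1 := h d _ _ _ (SZ d) A b hR closed_SZ hVm (fun _ => (cut_bd _).1) hA0 hb0
      (fun y hy => ?_) 1 zero_le_one z hz
    · refine (meas_le_lintegral₀ (ENNReal.measurable_ofReal.comp hVm).aemeasurable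
        fun y hy => ?_).trans (h1.trans (ENNReal.ofReal_le_ofReal ?_))
      · exact ENNReal.one_le_ofReal.2 (cut_one (by have : A + 1 < _ := hy; linarith))
      · have h2 : Real.exp (-A * 1) ≤ 1 / A := by
          rw [mul_one, Real.exp_neg, one_div]
          exact inv_anti₀ hA0 (by linarith [Real.add_one_le_exp A])
        have h3 := mul_le_mul h2 (cut_bd (z.2 i * gradient U z.1 i - A)).2 (cut_bd _).1
          (by positivity)
        rw [add_div]
        have : 1 / A * 2 = 2 / A := by ring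
        linarith
    obtain ⟨D, hD, hDb⟩ := der_s hH hy i
    obtain ⟨E, hE, hEb⟩ := cut_der (y.2 i * gradient U (y.1 + (0 : ℝ) • y.2) i - A)
    have hED := hE.comp (0 : ℝ) (hD.sub_const A)
    refine drift_zz hγ hVm (fun _ => (cut_bd _).1) hED ?_
    have h2 : E * D ≤ 2 * (M * (d + 1)) :=
      (le_abs_self _).trans ((abs_mul E D).trans_le (mul_le_mul hEb hDb (abs_nonneg _) two_pos.le))
    have h3 : γ i ≤ ∑ i, γ i := Finset.single_le_sum (fun i _ => (hγ i).le) (Finset.mem_univ i)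
    rw [Finset.sum_eq_single i (fun j _ hj => by simp [flip_ne hj.symm]) (by simp)]
    simp only [flip_self, neg_mul]
    generalize y.2 i * gradient U y.1 i = s
    have h4 := cut_bd (s - A)
    have h5 := cut_bd (-s - A)
    have h6 := hγ i
    rcases le_total 0 s with hs | hs
    · rw [max_eq_left hs, cut_zero (u := -s - A) (by linarith)]
      rcases le_total s A with h7 | h7
      · rw [cut_zero (u := s - A) (by linarith)]; nlinarith
      · nlinarith
    · rw [max_eq_right hs, cut_zero (u := s - A) (by linarith)]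
      nlinarith
  have h1 : W (zigzag U γ) 1 z (GZ U (A + 1))ᶜ ≤ ENNReal.ofReal (1 / 2) := by
    refine (measure_mono (t := (SZ d)ᶜ ∪ ⋃ i, {y | A + 1 < y.2 i * gradient U y.1 i})
      fun y hy => ?_).trans ((measure_union_le _ _).trans ?_)
    · by_contra hn
      simp only [mem_union, mem_compl_iff, mem_iUnion, mem_ofPred_eq, not_or, not_not, not_exists,
        not_lt] at hn
      exact hy hn
    · rw [absorb hR closed_SZ 1 zero_le_one z hz, zero_add]
      refine (measure_iUnion_fintype_le _ _).trans ((Finset.sum_le_sum fun i _ => key i).trans ?_)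
      rw [← ENNReal.ofReal_sum_of_nonneg fun _ _ => by positivity]
      refine ENNReal.ofReal_le_ofReal ?_
      simp only [Finset.sum_const, Finset.card_univ, Fintype.card_fin, nsmul_eq_mul]
      rw [← mul_div_assoc, div_le_iff₀ hA0, hA]
      linarith
  have h2 := measure_univ_le_add_compl (μ := W (zigzag U γ) 1 z) (GZ U (A + 1))
  rw [hR.W_univ (zigzag_confined hγ) 1 zero_le_one] at h2
  have h3 : ENNReal.ofReal (1 / 2) + ENNReal.ofReal (1 / 2) = 1 := by
    rw [← ENNReal.ofReal_add (by norm_num) (by norm_num)]; norm_num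
  exact (ENNReal.add_le_add_iff_right ENNReal.ofReal_ne_top).1
    (h3.trans_le (h2.trans (add_le_add_right h1 _)))

end Pool.Agent.Lib.MP_2024f4_pr.TR.ZL
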