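import Mathlib
import Pool.Agent.Lib.MP_2024f4_pr.TR.Semi
import Pool.Agent.Lib.MP_2024f4_pr.TR.InvA
import Pool.Agent.Lib.MP_2024f4_pr.TR.Inv
import Pool.Agent.Lib.MP_2024f4_pr.TR.Ent
import Pool.Agent.Lib.MP_2024f4_pr.TR.Split
import Pool.Agent.Lib.MP_2024f4_pr.TR.Hess
import Pool.Agent.Lib.MP_2024f4_pr.TR.PL
import Pool.Agent.Lib.MP_2024f4_pr.TR.Dens
import Pool.Agent.Lib.MP_2024f4_pr.TR.ZL
import Pool.Agent.Lib.MP_2024f4_pr.TR.ZD
import Pool.Agent.Lib.MP_2024f4_pr.TR.ZM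
import Pool.Agent.Lib.MP_2024f4_pr.TR.BL
import Pool.Agent.Lib.MP_2024f4_pr.TR.BG
import Pool.Agent.Lib.MP_2024f4_pr.TR.BM

set_option autoImplicit false

open MeasureTheory ProbabilityTheory Set
open scoped ENNReal

namespace Pool.Agent.Lib.MP_2024f4_pr.TR.Top

variable {d : ℕ}

lemma setup {N : St d → Measure (St d)} {r V : St d → ℝ} {S : Set (St d)} {μ : Measure (St d)}
    {c b : ℝ} (h : Reg N r) (hC : Confined N r) (hS : Closed N S) (hμ : IsProbabilityMeasure μ)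
    (hinv : ∀ t, 0 ≤ t → μ.bind (W N t) = μ) (hμS : μ Sᶜ = 0) (hV : Measurable V)
    (hV0 : ∀ z, 0 ≤ V z) (hc : 0 < c) (hb : 0 ≤ b) (hD : ∀ z ∈ S, Drift N r V c b z) :
    Setup (W N) μ S V c (b / c) :=
  ⟨measurable_Wt h, fun t ht z => h.W_univ hC t ht z, Semi.semi d N r h hC, hμ, hinv, hS.meas, hμS,
    absorb h hS, hV, hV0, hc, div_nonneg hb hc.le, Lyap.lyap d N r V S c b h hS hV hV0 hc hb hD⟩

lemma lint_ne {p : Measure (St d)} {V f : St d → ℝ} {K : ℝ} (hf : Integrable f p)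
    (hV : ∀ z, V z ≤ K * f z) : ∫⁻ z, ENNReal.ofReal (V z) ∂p ≠ ∞ := by
  have h1 := (hf.const_mul K).lintegral_lt_top
  exact ((lintegral_mono fun z => ENNReal.ofReal_le_ofReal (hV z)).trans_lt h1).ne

lemma sub_level {a x v R : ℝ} (ha : 0 < a) (h : Real.exp (a * x) ≤ 2 * v) (hR : v ≤ R) :
    x ≤ 2 * R / a := by
  rw [le_div_iff₀ ha]
  linarith [Real.add_one_le_exp (a * x)]

theorem zz (hd : 0 < d) {U : Euc d → ℝ} (hU : Standing U) (hL : LSI (target U)) {γ : Fin d → ℝ}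
    (hγ : ∀ i, 0 < γ i) {a : ℝ} (ha : 0 < a) :
    ∃ lam : ℝ, 0 < lam ∧ ∀ p₀ : Measure (St d), IsProbabilityMeasure p₀ →
      Integrable (fun z : St d => Real.exp (a * ‖z.1‖)) p₀ →
      InformationTheory.klDiv p₀ ((target U).prod (signs d)) ≠ ∞ →
      ∃ C₀ : ℝ, ∀ t, 0 ≤ t → IsProbabilityMeasure (law (zigzag U γ) p₀ t) ∧
        InformationTheory.klDiv (law (zigzag U γ) p₀ t) ((target U).prod (signs d)) ≤
          ENNReal.ofReal (C₀ * Real.exp (-lam * t)) := by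
  obtain ⟨w, M, C₀, c₁, C₁, w₀, hP⟩ := Hess.pot PL.pl d U hU hL
  have hC₁ : 0 < C₁ := by linarith [hP.one_le_C₁]
  have ha' : 0 < a / C₁ := div_pos ha hC₁
  obtain ⟨V, c, b, hV, hc, hb, hVb, hD⟩ := ZL.zl d U w M C₀ c₁ C₁ w₀ γ _ hP hγ ha'
  have hV0 : ∀ z, 0 ≤ V z := fun z => by linarith [(hVb z).1, Real.exp_pos (a / C₁ * w z.1)]
  have hR := zigzag_reg hU hγ
  have hC : Confined (zigzag U γ) _ := zigzag_confined (U := U) hγ
  have := hU.isProb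
  have := isProb_signs d
  have hcl : Closed (zigzag U γ) (SZ d) := ZL.closed_SZ
  have hμS : ((target U).prod (signs d)) (SZ d)ᶜ = 0 := by
    have e : (SZ d)ᶜ = univ ×ˢ {v : Euc d | ∀ i, v i = 1 ∨ v i = -1}ᶜ := by
      ext z; simp [SZ]
    have hm : MeasurableSet {v : Euc d | ∀ i, v i = 1 ∨ v i = -1} :=
      measurable_prodMk_left (x := (0 : Euc d)) hcl.meas
    rw [e, Measure.prod_prod, signs, uniformOn, cond_apply hm]
    simp
  have hS := setup hR hC hcl inferInstance ((Inv.inv InvA.invA d U hU).1 γ hγ) hμS hV hV0 hc hb hD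
  have hzb := ZD.zb Semi.semi ZD.zd
  have hM : Minor (W (zigzag U γ)) (SZ d) V := by
    intro R
    obtain ⟨ρ, -, hρ⟩ := hP.coer (2 * R / (a / C₁))
    obtain ⟨T, hT, ν, hν, h⟩ := ZM.zm Semi.semi hzb d U γ ρ hd hU hγ
    exact ⟨T, hT, ν, hν, fun z hz hzR => h z hz (hρ _ (sub_level ha' (hVb z).1 hzR))⟩
  obtain ⟨lam, hlam, h⟩ := Ent.ent Young.young Split.split _ _ _ _ _ _ _ hS
    (Harris.harris _ _ _ _ _ _ _ hS hM)
    (ZM.zr (ZL.zg Lyap.lyap) hzb Dens.dens d U w M C₀ c₁ C₁ w₀ γ _ V hU hP hγ ha'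
      fun z => (hVb z).1)
  refine ⟨lam, hlam, fun p hp hi hkl => ?_⟩
  have hVK : ∀ z : St d, V z ≤ 2 * Real.exp a * Real.exp (a * ‖z.1‖) := by
    intro z
    refine (hVb z).2.trans ?_
    rw [mul_assoc, ← Real.exp_add]
    refine mul_le_mul_of_nonneg_left (Real.exp_le_exp.mpr ?_) zero_le_two
    refine (mul_le_mul_of_nonneg_left (hP.grow z.1) ha'.le).trans (le_of_eq ?_)
    field_simp
  obtain ⟨C, hC'⟩ := h p hp (lint_ne hi hVK) hkl
  exact ⟨C, fun t ht => ⟨hR.isProb_law hC p t ht, hC' t ht⟩⟩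

theorem bb {U : Euc d → ℝ} (hU : Standing U) (hL : LSI (target U)) {γ : ℝ}
    (hγ : 0 < γ) {a : ℝ} (ha : 0 < a) :
    ∃ lam : ℝ, 0 < lam ∧ ∀ p₀ : Measure (St d), IsProbabilityMeasure p₀ →
      Integrable (fun z : St d => Real.exp (a * (‖z.1‖ + ‖z.2‖))) p₀ →
      InformationTheory.klDiv p₀ ((target U).prod (stdGaussian (Euc d))) ≠ ∞ →
      ∃ C₀ : ℝ, ∀ t, 0 ≤ t → IsProbabilityMeasure (law (bps U γ) p₀ t) ∧
        InformationTheory.klDiv (law (bps U γ) p₀ t) ((target U).prod (stdGaussian (Euc d))) ≤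
          ENNReal.ofReal (C₀ * Real.exp (-lam * t)) := by
  obtain ⟨w, M, C₀, c₁, C₁, w₀, hP⟩ := Hess.pot PL.pl d U hU hL
  obtain ⟨V, a', c, b, K, hV, ha', hc, hb, hVb, hD⟩ :=
    BL.bl Dens.mom d U w M C₀ c₁ C₁ w₀ γ a hP hγ ha
  have hV0 : ∀ z, 0 ≤ V z := fun z => (Real.exp_nonneg _).trans (hVb z).2.1
  have hR := bps_reg hU hγ
  have hC : Confined (bps U γ) _ := bps_confined (U := U) hγ
  have := hU.isProb
  have hS := setup hR hC closed_univ inferInstance ((Inv.inv InvA.invA d U hU).2 γ hγ) (by simp)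
    hV hV0 hc hb fun z _ => hD z
  have hM : Minor (W (bps U γ)) univ V := by
    intro R
    obtain ⟨ρ, -, hρ⟩ := hP.coer (2 * R / a')
    obtain ⟨ν, hν, h⟩ := BM.bm BG.bd Dens.dens d U γ (max ρ (2 * R / a)) hU hγ
    refine ⟨1, le_rfl, ν, hν, fun z _ hzR => h z
      ((hρ _ (sub_level ha' (hVb z).1 hzR)).trans (le_max_left _ _))
      ((sub_level ha ((hVb z).2.1.trans (by linarith [hV0 z])) hzR).trans (le_max_right _ _))⟩
  obtain ⟨lam, hlam, h⟩ := Ent.ent Young.young Split.split _ _ _ _ _ _ _ hS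
    (Harris.harris _ _ _ _ _ _ _ hS hM)
    (BM.br (BG.bg Lyap.lyap) BG.bd Dens.dens Dens.mom d U w M C₀ c₁ C₁ w₀ γ _ V hU hP hγ ha'
      fun z => (hVb z).1)
  refine ⟨lam, hlam, fun p hp hi hkl => ?_⟩
  obtain ⟨C, hC'⟩ := h p hp (lint_ne hi fun z => (hVb z).2.2) hkl
  exact ⟨C, fun t ht => ⟨hR.isProb_law hC p t ht, hC' t ht⟩⟩

end Pool.Agent.Lib.MP_2024f4_pr.TR.Top
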