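import Mathlib
import Pool.Agent.Lib.MP_2024f4_pr.TR.St

set_option autoImplicit false

open MeasureTheory ProbabilityTheory Set
open scoped ENNReal

namespace Pool.Agent.Lib.MP_2024f4_pr.TR.ZM

variable {d : ℕ}

lemma norm_le {u : Euc d} {c : ℝ} (hc : 0 ≤ c) (h : ∀ i, |u i| ≤ c) : ‖u‖ ≤ d * c := by
  rw [EuclideanSpace.norm_eq, Real.sqrt_le_left (by positivity)]
  have h1 : (d : ℝ) ≤ d ^ 2 := by exact_mod_cast Nat.le_self_pow two_ne_zero d
  calc ∑ i, ‖u i‖ ^ 2 ≤ ∑ _i : Fin d, c ^ 2 :=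
        Finset.sum_le_sum fun i _ => pow_le_pow_left₀ (norm_nonneg _) (h i) 2
    _ = d * c ^ 2 := by simp
    _ ≤ (d * c) ^ 2 := by rw [mul_pow]; gcongr

lemma crd (u : Euc d) (i : Fin d) : |u i| ≤ ‖u‖ := PiLp.norm_apply_le u i

lemma flip_self (i : Fin d) (v : Euc d) : flip i v i = -v i := by simp [flip]; ring

lemma flip_ne {i j : Fin d} (h : j ≠ i) (v : Euc d) : flip i v j = v j := by simp [flip, h]

lemma abs_one {z : St d} (h : z ∈ SZ d) (i : Fin d) : |z.2 i| = 1 := by
  rcases h i with e | e <;> simp [e]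

lemma norm_v {z : St d} (h : z ∈ SZ d) : ‖z.2‖ ≤ d := by
  simpa using norm_le zero_le_one fun i => (abs_one h i).le

lemma flip_mem {z : St d} (h : z ∈ SZ d) (y : Euc d) (i : Fin d) : (y, flip i z.2) ∈ SZ d := by
  intro j
  by_cases e : j = i
  · subst e
    rcases h j with e | e <;> simp [flip_self, e]
  · simpa [flip_ne e] using h j

lemma norm_flow {z : St d} (h : z ∈ SZ d) {s : ℝ} (hs : 0 ≤ s) :
    ‖(flow s z).1‖ ≤ ‖z.1‖ + s * d := by
  refine (norm_add_le _ _).trans (add_le_add_right ?_ _)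
  rw [norm_smul, Real.norm_of_nonneg hs]
  exact mul_le_mul_of_nonneg_left (norm_v h) hs

lemma mul_le {z : St d} (h : z ∈ SZ d) (i : Fin d) (a : ℝ) : z.2 i * a ≤ |a| := by
  refine (le_abs_self _).trans ?_
  rw [abs_mul, abs_one h, one_mul]

/-- a measure carried by a set of positions with one velocity -/
noncomputable def lay (c : ℝ≥0∞) (B : Set (Euc d)) (v : Euc d) : Measure (St d) :=
  c • (volume.restrict B).map fun y => (y, v)

lemma lay_apply (c : ℝ≥0∞) (B : Set (Euc d)) (v : Euc d) {A : Set (St d)} (hA : MeasurableSet A) :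
    lay c B v A = c * ∫⁻ y in B, A.indicator 1 (y, v) := by
  rw [lay, Measure.smul_apply, smul_eq_mul, ← lintegral_indicator_one hA,
    lintegral_map (measurable_one.indicator hA) measurable_prodMk_right]

lemma lay_univ (c : ℝ≥0∞) (B : Set (Euc d)) (v : Euc d) : lay c B v univ = c * volume B := by
  rw [lay_apply _ _ _ MeasurableSet.univ]
  simp

variable {U : Euc d → ℝ} {γ : Fin d → ℝ}

lemma rate_bd (hU : Standing U) (hγ : ∀ i, 0 < γ i) (R : ℝ) :
    ∃ L, 0 ≤ L ∧ ∀ z ∈ SZ d, ‖z.1‖ ≤ R → rZ U γ z ≤ L := by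
  obtain ⟨G, hG⟩ := (isCompact_closedBall (0 : Euc d) R).exists_bound_of_continuousOn
    hU.continuous_gradient.continuousOn
  refine ⟨∑ i, (|G| + γ i), Finset.sum_nonneg fun i _ => add_nonneg (abs_nonneg _) (hγ i).le,
    fun z hz h => Finset.sum_le_sum fun i _ => add_le_add_left (max_le ?_ (abs_nonneg _)) _⟩
  exact (mul_le hz i _).trans ((crd _ i).trans
    ((hG _ (mem_closedBall_zero_iff.2 h)).trans (le_abs_self _)))

lemma stay {N : St d → Measure (St d)} {r : St d → ℝ} (h : Reg N r) (z : St d) {t L : ℝ}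
    (ht : 0 ≤ t) (h1 : t ≤ 1) (h0 : 0 ≤ L) (hL : ∀ s, 0 ≤ s → s ≤ t → r (flow s z) ≤ L)
    {g : St d → ℝ≥0∞} (hg : Measurable g) :
    ENNReal.ofReal (Real.exp (-L)) * g (flow t z) ≤ ∫⁻ w, g w ∂W N t z := by
  refine le_trans ?_ (lint_lawN_le 0 t z g)
  rw [lint_lawN_zero h t z hg]
  refine mul_le_mul_left (le_trans (ENNReal.ofReal_le_ofReal (Real.exp_le_exp.2 ?_))
    (le_surv h z ht hL)) _
  nlinarith

lemma jump (z : St d) (i : Fin d) (F : St d → ℝ≥0∞) :
    ENNReal.ofReal (γ i) * F (z.1, flip i z.2) ≤ ∫⁻ w, F w ∂zigzag U γ z := by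
  rw [zigzag, lintegral_finsetSum_measure]
  refine le_trans ?_ (Finset.single_le_sum (fun _ _ => zero_le) (Finset.mem_univ i))
  rw [lintegral_smul_measure, lintegral_dirac, smul_eq_mul]
  exact mul_le_mul_left (ENNReal.ofReal_le_ofReal (le_add_of_nonneg_left (le_max_right _ _))) _

/-- states whose velocity has the coordinates from `j` on equal to one -/
def Sj (d : ℕ) (ρ : ℝ) (j : ℕ) : Set (St d) :=
  {z | z ∈ SZ d ∧ ‖z.1‖ ≤ ρ - j * d ∧ ∀ i : Fin d, j ≤ i.1 → z.2 i = 1}

lemma step (hU : Standing U) (hγ : ∀ i, 0 < γ i) {ρ L e : ℝ} (h0 : 0 ≤ L)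
    (hL : ∀ z ∈ SZ d, ‖z.1‖ ≤ ρ → rZ U γ z ≤ L) (e1 : e ≤ 1) (e2 : ∀ i, e ≤ γ i) {j : ℕ}
    {z : St d} (hz : z ∈ Sj d ρ (j + 1)) {g : St d → ℝ≥0∞} (hg : Measurable g) {m : ℝ≥0∞}
    (hm : ∀ y ∈ Sj d ρ j, m ≤ g y) :
    ENNReal.ofReal (Real.exp (-L)) * (ENNReal.ofReal e * (ENNReal.ofReal (Real.exp (-L)) * m)) ≤
      ∫⁻ w, g w ∂W (zigzag U γ) 1 z := by
  have h := zigzag_reg hU hγ
  obtain ⟨a, b, c⟩ := hz
  push_cast at b
  have hd : (0 : ℝ) ≤ d := Nat.cast_nonneg d
  have hj : (0 : ℝ) ≤ j * d := by positivity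
  have k1 : ∀ s, 0 ≤ s → s ≤ 1 → rZ U γ (flow s z) ≤ L := fun s s0 s1 =>
    hL _ a (by have := norm_flow a s0; nlinarith)
  by_cases hc : ∀ i : Fin d, j ≤ i.1 → z.2 i = 1
  · refine le_trans (mul_le_mul_right ?_ _) (stay h z zero_le_one le_rfl h0 k1 hg)
    refine le_trans ?_ (hm (flow 1 z) ⟨a, by have := norm_flow a zero_le_one; linarith, hc⟩)
    refine (mul_le_of_le_one_left' (ENNReal.ofReal_le_one.2 e1)).trans
      (mul_le_of_le_one_left' (ENNReal.ofReal_le_one.2 ?_))
    exact Real.exp_le_one_iff.2 (by linarith)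
  push Not at hc
  obtain ⟨i, i1, i2⟩ := hc
  have i3 : i.1 = j := by
    by_contra q
    exact i2 (c i (by omega))
  rw [lint_W_eq h 1 z hg]
  refine le_trans ?_ le_add_self
  refine le_trans (le_of_eq ?_) (setLIntegral_mono' (f := fun _ => ENNReal.ofReal (Real.exp (-L)) *
    (ENNReal.ofReal e * (ENNReal.ofReal (Real.exp (-L)) * m))) measurableSet_Ioc fun s hs => ?_)
  · rw [setLIntegral_const]
    simp
  have s0 := hs.1.le
  have s1 : 0 ≤ 1 - s := by linarith [hs.2]
  refine mul_le_mul' (le_trans (ENNReal.ofReal_le_ofReal (Real.exp_le_exp.2 (by nlinarith)))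
    (le_surv h z s0 fun u u0 u1 => k1 u u0 (u1.trans hs.2))) ?_
  refine le_trans (mul_le_mul' (ENNReal.ofReal_le_ofReal (e2 i)) ?_) (jump (flow s z) i _)
  have a' : ((flow s z).1, flip i (flow s z).2) ∈ SZ d := flip_mem (z := flow s z) a _ i
  have b' := norm_flow a s0
  refine le_trans (mul_le_mul_right (hm (flow (1 - s) ((flow s z).1, flip i (flow s z).2))
    ⟨a', ?_, fun k hk => ?_⟩) _) (stay h ((flow s z).1, flip i (flow s z).2) s1 (by linarith) h0
      (fun u u0 u1 => hL (flow u ((flow s z).1, flip i (flow s z).2)) a' ?_) hg)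
  · have := norm_flow a' s1
    simp only at this
    linarith
  · show flip i z.2 k = 1
    by_cases q : k = i
    · rw [q, flip_self, (a i).resolve_left i2, neg_neg]
    · rw [flip_ne q]
      exact c k (by have := Fin.val_ne_of_ne q; omega)
  · have := norm_flow a' u0
    simp only at this
    nlinarith

/-- small sets -/
def Small (U : Euc d → ℝ) (γ : Fin d → ℝ) (A : Set (St d)) : Prop :=
  ∃ T : ℝ, 1 ≤ T ∧ ∃ ν : Measure (St d), ν univ ≠ 0 ∧ ∀ z ∈ A, ν ≤ W (zigzag U γ) T z

lemma base (h2 : sZB) (hd : 0 < d) (hU : Standing U) (hγ : ∀ i, 0 < γ i) {ρ : ℝ} (hρ : 0 ≤ ρ) :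
    Small U γ (Sj d ρ 0) := by
  have d1 : (1 : ℝ) ≤ d := by exact_mod_cast hd
  set τ := 2 * ρ + 2 with hτ
  obtain ⟨L, h0, hL⟩ := rate_bd hU hγ (ρ + d * τ * d)
  let c : Euc d := WithLp.toLp 2 fun _ => d * τ - τ / 2
  let o : Euc d := WithLp.toLp 2 fun _ => 1
  have τ0 : 0 < τ := by positivity
  refine ⟨d * τ, by nlinarith, lay (ENNReal.ofReal (∏ i, (τ / 4 * γ i * γ i *
    Real.exp (-(L * τ + L * (τ / 2)))))) (Metric.ball c 1) o, ?_, fun z hz => ?_⟩
  · rw [lay_univ]
    refine mul_ne_zero (ENNReal.ofReal_pos.2 (Finset.prod_pos fun i _ => ?_)).ne'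
      (Metric.measure_ball_pos _ _ one_pos).ne'
    have := hγ i
    positivity
  obtain ⟨a, b, e⟩ := hz
  simp only [Nat.cast_zero, zero_mul, sub_zero] at b
  have ho : z.2 = o := by
    ext i
    exact e i (Nat.zero_le _)
  refine Measure.le_iff.2 fun A hA => ?_
  rw [lay_apply _ _ _ hA, ← lintegral_indicator_one hA, ← ho]
  refine le_trans (mul_le_mul_right (lintegral_mono_set fun y hy i => ?_) _)
    (h2 d U γ z τ L (fun _ => τ / 2) (fun _ => L) γ _ hU hγ a τ0 (fun _ => by positivity)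
      (fun _ => by linarith) h0 (fun _ => h0) (fun i => (hγ i).le) (measurable_one.indicator hA)
      fun y hy => ?_)
  · have k1 := abs_le.1 ((crd _ i).trans b)
    have k2 := abs_lt.1 ((crd (y - c) i).trans_lt (mem_ball_iff_norm.1 hy))
    simp only [c, PiLp.sub_apply] at k2
    rw [e i (Nat.zero_le _)]
    constructor <;> linarith
  · have k : ‖y‖ ≤ ρ + d * τ * d := by
      have k1 := norm_le_insert' y z.1
      have k2 := mul_le_mul_of_nonneg_left (norm_v a) (show 0 ≤ d * τ by positivity)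
      linarith
    exact ⟨hL (y, z.2) a k, fun i => ⟨hL _ (flip_mem a y i) k,
      le_add_of_nonneg_left (le_max_right _ _)⟩⟩

theorem zm (h1 : sSemi) (h2 : sZB) : sZM := by
  intro d U γ ρ hd hU hγ
  have h := zigzag_reg hU hγ
  have : Nonempty (Fin d) := ⟨⟨0, hd⟩⟩
  obtain ⟨i, hi⟩ := Finite.exists_min γ
  obtain ⟨L, h0, hL⟩ := rate_bd hU hγ (|ρ| + d * d)
  have key : ∀ j, Small U γ (Sj d (|ρ| + d * d) j) := by
    intro j
    induction j with
    | zero => exact base h2 hd hU hγ (by positivity)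
    | succ j ih =>
      obtain ⟨T, T1, ν, n0, hν⟩ := ih
      refine ⟨1 + T, by linarith, ENNReal.ofReal (Real.exp (-L)) • ENNReal.ofReal (min 1 (γ i)) •
        ENNReal.ofReal (Real.exp (-L)) • ν, ?_, fun z hz => Measure.le_iff.2 fun A hA => ?_⟩
      · have := hγ i
        simp only [Measure.smul_apply, smul_eq_mul]
        refine mul_ne_zero ?_ (mul_ne_zero ?_ (mul_ne_zero ?_ n0)) <;>
          exact (ENNReal.ofReal_pos.2 (by positivity)).ne'
      · rw [h1 d _ _ h (zigzag_confined hγ) 1 T zero_le_one (by linarith),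
          Measure.bind_apply hA (measurable_Wt h T).aemeasurable]
        exact step hU hγ h0 hL (min_le_left _ _) (fun k => (min_le_right _ _).trans (hi k)) hz
          (meas_coe (measurable_Wt h T) hA) fun y hy => hν y hy A
  obtain ⟨T, T1, ν, n0, hν⟩ := key d
  exact ⟨T, T1, ν, n0, fun z a b => hν z ⟨a, by linarith [le_abs_self ρ],
    fun k hk => absurd k.2 (by omega)⟩⟩

lemma meas_SZ : MeasurableSet (SZ d) := by
  simp only [SZ, ofPred_forall, ofPred_or]
  exact MeasurableSet.iInter fun i => (measurableSet_eq_fun (by fun_prop) measurable_const).union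
    (measurableSet_eq_fun (by fun_prop) measurable_const)

lemma meas_GZ (hg : Continuous (gradient U)) (A : ℝ) : MeasurableSet (GZ U A) := by
  simp only [GZ, ofPred_and, ofPred_forall]
  exact meas_SZ.inter (MeasurableSet.iInter fun i =>
    (isClosed_le (by fun_prop) continuous_const).measurableSet)

lemma meas_lay {c : St d → ℝ} {δ : St d → Fin d → ℝ} (hc : Measurable c)
    (hδ : ∀ i, Measurable fun z => δ z i) :
    Measurable fun z : St d => lay (ENNReal.ofReal (c z)) (Box 1 (δ z) z) z.2 := by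
  have hB : MeasurableSet {p : St d × Euc d | p.2 ∈ Box 1 (δ p.1) p.1} := by
    show MeasurableSet {p : St d × Euc d | ∀ i,
      0 < (p.1.1 i + d * 1 * p.1.2 i - p.2 i) * p.1.2 i ∧
        (p.1.1 i + d * 1 * p.1.2 i - p.2 i) * p.1.2 i < 2 * δ p.1 i}
    simp only [ofPred_forall, ofPred_and]
    exact MeasurableSet.iInter fun i => (measurableSet_lt measurable_const (by fun_prop)).inter
      (measurableSet_lt (by fun_prop) (((hδ i).comp measurable_fst).const_mul 2))
  refine Measure.measurable_of_measurable_coe _ fun A hA => ?_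
  simp only [lay_apply _ _ _ hA]
  refine hc.ennreal_ofReal.mul ?_
  have h1 : Measurable fun p : St d × Euc d => A.indicator (1 : St d → ℝ≥0∞) (p.2, p.1.2) :=
    (measurable_one.indicator hA).comp (by fun_prop)
  have h2 := (h1.indicator hB).lintegral_prod_right' (ν := (volume : Measure (Euc d)))
  convert h2 using 2 with z
  exact (lintegral_indicator (measurable_prodMk_left hB) _).symm

lemma vol_box {z : St d} (hz : z ∈ SZ d) {δ : Fin d → ℝ} (hδ : ∀ i, 0 ≤ δ i) :
    ENNReal.ofReal (∏ i, 2 * δ i) ≤ volume (Box 1 δ z) := by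
  let a : Fin d → ℝ := fun i => z.1 i + d * 1 * z.2 i - δ i * z.2 i
  have h1 := (PiLp.volume_preserving_ofLp (Fin d)).measure_preimage
    (s := Set.pi univ fun i => Ioo (a i - δ i) (a i + δ i))
    (MeasurableSet.univ_pi fun i => measurableSet_Ioo).nullMeasurableSet
  rw [volume_pi_pi] at h1
  simp only [Real.volume_Ioo, add_sub_sub_cancel, ← two_mul] at h1
  rw [ENNReal.ofReal_prod_of_nonneg fun i _ => mul_nonneg zero_le_two (hδ i), ← h1]
  refine measure_mono fun y hy i => ?_
  obtain ⟨k1, k2⟩ := hy i (mem_univ _)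
  simp only [a] at k1 k2
  rcases hz i with e | e <;> rw [e] at k1 k2 ⊢ <;> constructor <;> linarith

lemma box_near {z : St d} (hz : z ∈ SZ d) {δ : Fin d → ℝ} (hδ : ∀ i, 2 * δ i ≤ 1) {y : Euc d}
    (hy : y ∈ Box 1 δ z) : ‖z.1 - y‖ ≤ d * (d + 1) := by
  refine norm_le (by positivity) fun i => abs_le.2 ?_
  obtain ⟨k1, k2⟩ := hy i
  have := hδ i
  have hd : (0 : ℝ) ≤ d := Nat.cast_nonneg d
  rw [PiLp.sub_apply]
  rcases hz i with e | e <;> rw [e] at k1 k2 <;> constructor <;> linarith

lemma dens (h3 : sDens) (hU : Standing U) : ∃ K : ℝ, 0 < K ∧ ∀ (c : ℝ) (B : Set (Euc d))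
    (v : Euc d) (p : Euc d → ℝ), (∀ i, v i = 1 ∨ v i = -1) → MeasurableSet B → Measurable p →
    (∀ y ∈ B, c ≤ p y) → lay (ENNReal.ofReal c) B v ≤ ((target U).prod (signs d)).withDensity
      fun w => ENNReal.ofReal (K * Real.exp (U w.1) * p w.1) := by
  have := isProb_signs d
  obtain ⟨h4, ⟨K, K0, hK⟩, -⟩ := h3 d
  obtain ⟨Z, Z0, hZ⟩ := h4 U hU
  have hc : Measurable U := hU.1.continuous.measurable
  refine ⟨K * Z, by positivity, fun c B v p hv hB hp h => Measure.le_iff.2 fun A hA => ?_⟩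
  have h1 : Measurable fun w : St d => ENNReal.ofReal K * (ENNReal.ofReal (p w.1) *
      A.indicator 1 w) := ((hp.comp measurable_fst).ennreal_ofReal.mul
        (measurable_one.indicator hA)).const_mul _
  calc lay (ENNReal.ofReal c) B v A
      ≤ ∫⁻ y, ENNReal.ofReal (p y) * A.indicator 1 (y, v) := by
        rw [lay_apply _ _ _ hA, ← lintegral_const_mul' _ _ ENNReal.ofReal_ne_top]
        exact (setLIntegral_mono' hB fun y hy =>
          mul_le_mul_left (ENNReal.ofReal_le_ofReal (h y hy)) _).trans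
            (setLIntegral_le_lintegral _ _)
    _ ≤ ∫⁻ y, ∫⁻ u, ENNReal.ofReal K * (ENNReal.ofReal (p y) * A.indicator 1 (y, u))
          ∂signs d := by
        refine lintegral_mono fun y => ?_
        have h2 := lintegral_mono' (hK v hv) (le_refl fun u => ENNReal.ofReal (p y) *
          A.indicator (1 : St d → ℝ≥0∞) (y, u))
        rw [lintegral_dirac, lintegral_smul_measure, smul_eq_mul] at h2
        rw [lintegral_const_mul' _ _ ENNReal.ofReal_ne_top]
        exact h2
    _ = _ := by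
        rw [← lintegral_prod _ h1.aemeasurable, hZ _ inferInstance,
          lintegral_withDensity_eq_lintegral_mul _ (by fun_prop) h1, withDensity_apply _ hA,
          ← lintegral_indicator hA]
        refine lintegral_congr fun w => ?_
        by_cases e : w ∈ A
        · simp only [Pi.mul_apply, indicator_of_mem e, Pi.one_apply, mul_one]
          rw [← mul_assoc, ← ENNReal.ofReal_mul (by positivity),
            ← ENNReal.ofReal_mul (by positivity)]
          congr 1
          ring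
        · simp [e]

lemma rates {M A : ℝ} (hH : Hess U M) (A0 : 0 ≤ A) {z : St d}
    (hz : z ∈ GZ U A) {m : ℝ} (hm : m = M * (d * d)) {L : ℝ} (hL : L = ∑ i, (A + m + γ i))
    {y : Euc d} (hy : ‖y - z.1‖ ≤ d * 1 * ‖z.2‖) : rZ U γ (y, z.2) ≤ L ∧ ∀ i,
      rZ U γ (y, flip i z.2) ≤ L + |gradient U z.1 i| ∧
      γ i + max (|gradient U z.1 i| - 2 * A - m) 0 ≤
        max (flip i z.2 i * gradient U y i) 0 + γ i := by
  obtain ⟨a, b⟩ := hz
  have M0 : 0 ≤ M := zero_le_one.trans hH.one_le
  have m0 : 0 ≤ m := by rw [hm]; positivity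
  have k0 : ∀ i, |gradient U y i - gradient U z.1 i| ≤ m := fun i => by
    refine (crd (gradient U y - gradient U z.1) i).trans ((hH.lip _ _).trans ?_)
    rw [hm]
    refine mul_le_mul_of_nonneg_left (hy.trans ?_) M0
    rw [mul_one]
    exact mul_le_mul_of_nonneg_left (norm_v a) (Nat.cast_nonneg d)
  have k1 : ∀ i, max (z.2 i * gradient U y i) 0 ≤ A + m := fun i => by
    have k := abs_le.1 (k0 i)
    have := b i
    refine max_le ?_ (by positivity)
    rcases a i with e | e <;> rw [e] at this ⊢ <;> linarith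
  refine ⟨hL ▸ Finset.sum_le_sum fun i _ => add_le_add_left (k1 i) _, fun i => ⟨?_, ?_⟩⟩
  · have : L + |gradient U z.1 i| = ∑ j, (A + m + γ j +
        if j = i then |gradient U z.1 i| else 0) := by
      rw [Finset.sum_add_distrib, hL]
      simp
    rw [this]
    refine Finset.sum_le_sum fun j _ => ?_
    by_cases e : j = i
    · subst e
      have k := abs_le.1 (k0 j)
      have k2 := le_abs_self (gradient U z.1 j)
      have k3 := neg_abs_le (gradient U z.1 j)
      have : max (flip j z.2 j * gradient U y j) 0 ≤ m + |gradient U z.1 j| := by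
        refine max_le ?_ (by positivity)
        rw [flip_self]
        rcases a j with e | e <;> rw [e] <;> linarith
      simp only [if_true]
      linarith
    · simp only [if_neg e, flip_ne e, add_zero]
      exact add_le_add_left (k1 j) _
  · rw [add_comm]
    refine add_le_add_left (max_le_max ?_ le_rfl) _
    have k := abs_le.1 (k0 i)
    have := b i
    rw [flip_self]
    rcases a i with e | e <;> rw [e] at this ⊢ <;>
      rcases abs_cases (gradient U z.1 i) with q | q <;> linarith [q.1, q.2]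

lemma fac {g C L t D : ℝ} (g0 : 0 < g) (L0 : 0 ≤ L) (t0 : 0 ≤ t) (D0 : 0 ≤ D)
    (hC : C = 1 + L + D) :
    g / 4 * (g / (C + g)) * Real.exp (-(L + 1)) * (1 + (L + t)) ≤
      1 / 4 * g * (g + max (t - D) 0) * Real.exp (-(L * 1 + (L + t) * (1 / (2 * (1 + (L + t)))))) := by
  have C0 : 0 < C := by rw [hC]; positivity
  have s0 := le_max_right (t - D) 0
  have s1 := le_max_left (t - D) 0
  have k1 : g / (C + g) * (1 + (L + t)) ≤ g + max (t - D) 0 := by
    rw [div_mul_eq_mul_div, div_le_iff₀ (by positivity)]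
    have : 1 + (L + t) ≤ C + max (t - D) 0 := by linarith
    nlinarith [mul_le_mul_of_nonneg_left this g0.le, mul_nonneg s0 C0.le, mul_pos g0 g0]
  have k2 : (L + t) * (1 / (2 * (1 + (L + t)))) ≤ 1 := by
    rw [mul_one_div, div_le_one (by positivity)]
    linarith
  calc _ = 1 / 4 * g * (g / (C + g) * (1 + (L + t))) * Real.exp (-(L + 1)) := by ring
    _ ≤ _ := by
      gcongr
      linarith

theorem zr (h1 : sZG) (h2 : sZB) (h3 : sDens) : sZR := by
  intro d U w M C₀ c₁ C₁ w₀ γ a V hU hP hγ ha hV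
  have hH := hP.hess
  have hg := hH.cont
  obtain ⟨A, A0, hA⟩ := h1 d U M γ hU hH hγ
  obtain ⟨K, K0, hK⟩ := dens h3 hU
  have M0 : 0 ≤ M := zero_le_one.trans hH.one_le
  obtain ⟨m, hm⟩ : ∃ m : ℝ, m = M * (d * d) := ⟨_, rfl⟩
  have m0 : 0 ≤ m := by rw [hm]; positivity
  obtain ⟨L, hL⟩ : ∃ L : ℝ, L = ∑ i, (A + m + γ i) := ⟨_, rfl⟩
  have L0 : 0 ≤ L := hL ▸ Finset.sum_nonneg fun i _ => by have := hγ i; positivity
  let κ : Fin d → ℝ := fun i => γ i / 4 * (γ i / (1 + L + (2 * A + m) + γ i)) * Real.exp (-(L + 1))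
  have κ0 : ∀ i, 0 < κ i := fun i => by have := hγ i; positivity
  have P0 : 0 < ∏ i, κ i := Finset.prod_pos fun i _ => κ0 i
  let l : St d → Fin d → ℝ := fun z i => L + |gradient U z.1 i|
  have l0 : ∀ z i, 0 ≤ l z i := fun z i => by positivity
  let δ : St d → Fin d → ℝ := fun z i => 1 / (2 * (1 + l z i))
  have δ0 : ∀ z i, 0 < δ z i := fun z i => by have := l0 z i; positivity
  have δ1 : ∀ z i, 2 * δ z i ≤ 1 := fun z i => by
    have := l0 z i
    rw [mul_one_div, div_le_one (by positivity)]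
    linarith
  let c : St d → ℝ := fun z => ∏ i, κ i * (1 + l z i)
  have c0 : ∀ z, 0 ≤ c z := fun z => Finset.prod_nonneg fun i _ => by
    have := l0 z i
    have := κ0 i
    positivity
  have ml : ∀ i, Measurable fun z => l z i := fun i => Continuous.measurable (by fun_prop)
  let E := L + M * (d * (d + 1))
  let p : Euc d → ℝ := fun y => (∏ i, κ i) * Real.exp (d * (E + ‖gradient U y‖))
  have mp : Measurable p := Continuous.measurable (by fun_prop)
  have mU : Measurable U := hU.1.continuous.measurable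
  have mB : ∀ z : St d, MeasurableSet (Box 1 (δ z) z) := fun z => by
    simp only [Box, ofPred_forall, ofPred_and]
    exact MeasurableSet.iInter fun i => (measurableSet_lt measurable_const (by fun_prop)).inter
      (measurableSet_lt (by fun_prop) measurable_const)
  refine ⟨1, d * 1, min (1 / 2) (∏ i, κ i),
    (|Real.log (K * ∏ i, κ i) + d * E - C₀| + 1 + d * (2 * C₁)) / a ^ 2, GZ U A,
    fun z => lay (ENNReal.ofReal (c z)) (Box 1 (δ z) z) z.2,
    fun u => K * Real.exp (U u.1) * p u.1, one_pos, by positivity, by positivity, meas_GZ hg A,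
    meas_lay (Finset.measurable_prod _ fun i _ => ((ml i).const_add 1).const_mul _)
      fun i => (((ml i).const_add 1).const_mul 2).const_div 1, by fun_prop,
    fun z hz => (ENNReal.ofReal_le_ofReal (min_le_left _ _)).trans (hA z hz),
    fun z hz => ⟨?_, Measure.le_iff.2 fun B hB => ?_, hK _ _ _ p hz.1 (mB z) mp fun y hy => ?_⟩,
    fun z => by positivity, fun z _ => ?_⟩
  · rw [lay_univ]
    refine le_trans ?_ (mul_le_mul_right (vol_box hz.1 fun i => (δ0 z i).le) _)
    rw [← ENNReal.ofReal_mul (c0 z), ← Finset.prod_mul_distrib]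
    refine ENNReal.ofReal_le_ofReal ((min_le_right _ _).trans (le_of_eq
      (Finset.prod_congr rfl fun i _ => ?_)))
    have := l0 z i
    simp only [δ]
    field_simp
  · rw [lay_apply _ _ _ hB, ← lintegral_indicator_one hB]
    refine le_trans (mul_le_mul_left (ENNReal.ofReal_le_ofReal ?_) _) (h2 d U γ z 1 L (δ z) (l z)
      (fun i => γ i + max (|gradient U z.1 i| - 2 * A - m) 0) _ hU hγ hz.1 one_pos (δ0 z) (δ1 z) L0
      (l0 z) (fun i => add_nonneg (hγ i).le (le_max_right _ _)) (measurable_one.indicator hB)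
      fun y hy => rates hH A0 hz hm hL hy)
    refine Finset.prod_le_prod (fun i _ => mul_nonneg (κ0 i).le (by have := l0 z i; positivity))
      fun i _ => ?_
    rw [sub_sub]
    exact fac (hγ i) L0 (abs_nonneg _) (by positivity) rfl
  · have k1 := (hH.lip _ _).trans (mul_le_mul_of_nonneg_left (box_near hz.1 (δ1 z) hy) M0)
    have k2 := norm_le_insert' (gradient U z.1) (gradient U y)
    have k3 : ∏ i, (1 + l z i) ≤ ∏ _i : Fin d, Real.exp (E + ‖gradient U y‖) :=
      Finset.prod_le_prod (fun i _ => by have := l0 z i; positivity) fun i _ => by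
        have := crd (gradient U z.1) i
        refine le_trans ?_ (Real.add_one_le_exp _)
        simp only [l, E]
        linarith
    rw [Finset.prod_const, Finset.card_univ, Fintype.card_fin, ← Real.exp_nat_mul] at k3
    simp only [c, p]
    rw [Finset.prod_mul_distrib]
    exact mul_le_mul_of_nonneg_left k3 P0.le
  · have w1 := hP.one_le z.1
    have e1 : K * Real.exp (U z.1) * p z.1 =
        (K * ∏ i, κ i) * Real.exp (U z.1 + d * (E + ‖gradient U z.1‖)) := by
      rw [Real.exp_add]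
      ring
    have V0 : 0 < V z := by linarith [hV z, Real.exp_pos (a * w z.1)]
    have k1 : a * w z.1 ≤ 1 + Real.log (1 + V z) := by
      rw [← Real.exp_le_exp, Real.exp_add, Real.exp_log (by positivity)]
      nlinarith [hV z, Real.add_one_le_exp 1]
    have k2 : w z.1 ^ 2 ≤ (1 + Real.log (1 + V z)) ^ 2 / a ^ 2 := by
      rw [le_div_iff₀ (by positivity), mul_comm, ← mul_pow]
      exact pow_le_pow_left₀ (by positivity) k1 2
    have C0 : 0 ≤ C₁ := zero_le_one.trans hP.one_le_C₁
    have k3 : 1 ≤ w z.1 ^ 2 := one_le_pow₀ w1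
    have k4 : ‖gradient U z.1‖ ≤ 2 * C₁ * w z.1 ^ 2 := (hP.up _).trans
      (mul_le_mul_of_nonneg_left (by nlinarith) (by positivity))
    have k5 := mul_le_mul_of_nonneg_left k4 (Nat.cast_nonneg d)
    have k6 := le_mul_of_one_le_right (abs_nonneg (Real.log (K * ∏ i, κ i) + d * E - C₀)) k3
    have k7 := le_abs_self (Real.log (K * ∏ i, κ i) + d * E - C₀)
    have k8 := hP.sq z.1
    simp only
    rw [e1, Real.log_mul (by positivity) (Real.exp_pos _).ne', Real.log_exp, div_mul_eq_mul_div,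
      mul_div_assoc]
    refine le_trans ?_ (mul_le_mul_of_nonneg_left k2 (by positivity))
    linarith

end Pool.Agent.Lib.MP_2024f4_pr.TR.ZM
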